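import Pool.Agent.Helper8.POS.Fin
import Pool.Agent.Helper8.PRE.Stay
import Pool.Agent.Helper8.PRE.P8e
import Pool.Agent.Helper8.GrowthInR

/-!
# Consequences for the exceptional set and for the map `3x + 1`
-/

set_option autoImplicit false

namespace Pool.Agent.Helper8.POS

open Finset Pool.Agent.Helper68.Moeller Pool.Agent.Helper52.Tao Pool.Agent.Helper91.PL

variable {d m : ℕ} {r : ℤ → ℤ}

theorem exists_Base (hd : 2 ≤ d) (hdm : d < m) (hco : Nat.Coprime m d)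
    (hw : (m : ℝ) ≤ (d : ℝ) ^ ((d : ℝ) / ((d : ℝ) - 1))) (hr : Admissible d m r) :
    ∃ p v s0 : ℕ, PRE.Base d m p v s0 r := by
  obtain ⟨s0, hc1, hc2⟩ := PRE.dead_mod_all (r := r) hd hdm hco hr
  exact ⟨m, 1, s0, hd, hdm, hco, hr, by omega, le_refl 1, (pow_one m).symm, hw, hc1, hc2⟩

theorem density_one (hd : 2 ≤ d) (hdm : d < m) (hco : Nat.Coprime m d)
    (hw : (m : ℝ) ≤ (d : ℝ) ^ ((d : ℝ) / ((d : ℝ) - 1))) (hr : Admissible d m r) :
    ∃ c : ℝ, 0 < c ∧ ∀ (a : ℤ) (x : ℝ), 1 ≤ a → ¬ Dead d m r a → (a : ℝ) ≤ x →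
      c * x / a ≤
        ({n : ℤ | (∃ t : ℕ, (T d m r)^[t] n = a) ∧ 0 < n ∧ (n : ℝ) ≤ x}.ncard : ℝ) := by
  obtain ⟨c, K, hc, -, h⟩ := density_path hd hdm hco hw hr
  refine ⟨c, hc, fun a x ha hal hx => ?_⟩
  have h1 := h a x ha hal hx
  rw [mul_div_assoc]
  refine h1.trans ?_
  have hfin : {n : ℤ | (∃ t : ℕ, (T d m r)^[t] n = a) ∧ 0 < n ∧ (n : ℝ) ≤ x}.Finite := by
    refine (Set.finite_Icc (1 : ℤ) ⌊x⌋).subset ?_
    rintro n ⟨-, h1, h2⟩
    exact ⟨h1, Int.le_floor.2 h2⟩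
  have hsub : Pth d m r (a / K) a x ⊆
      {n : ℤ | (∃ t : ℕ, (T d m r)^[t] n = a) ∧ 0 < n ∧ (n : ℝ) ≤ x} :=
    fun n hn => ⟨⟨hn.1.choose, hn.1.choose_spec.1⟩, hn.2⟩
  exact_mod_cast Set.ncard_le_ncard hsub hfin

/-- If the exceptional set is infinite, the orbits which stay large have positive lower density. -/
theorem stay_large (hd : 2 ≤ d) (hdm : d < m) (hco : Nat.Coprime m d)
    (hw : (m : ℝ) ≤ (d : ℝ) ^ ((d : ℝ) / ((d : ℝ) - 1)))
    (hr : Admissible d m r) (hinf : (E d m r).Infinite) (B : ℝ) :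
    ∃ c : ℝ, 0 < c ∧ ∃ X : ℝ, ∀ x : ℝ, X ≤ x →
      c * x ≤ ({n : ℤ | n ∈ {n : ℤ | ∀ k : ℕ, B < ((T d m r)^[k] n : ℝ)} ∧
        0 < n ∧ (n : ℝ) ≤ x}.ncard : ℝ) := by
  obtain ⟨p, v, s0, hB⟩ := exists_Base hd hdm hco hw hr
  obtain ⟨c, K, hc, hK, h⟩ := density_path hd hdm hco hw hr
  have hK1 : (1 : ℝ) ≤ K := by exact_mod_cast hK
  have hK0 : (0 : ℝ) < K := by linarith
  obtain ⟨a, ha1, ha2, ha3⟩ := PRE.alive_above hB hinf (K * max B 0)
  have ha0 : (0 : ℝ) < a := by exact_mod_cast (by omega : 0 < a)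
  have hB0 : 0 ≤ max B 0 := le_max_right _ _
  have hBm : B ≤ K * max B 0 := by
    have h1 := le_max_left B 0
    nlinarith
  have haK : B < a / K := by
    have h1 := ha3 0
    rw [Function.iterate_zero, id_eq] at h1
    rw [lt_div_iff₀ hK0]
    have h2 := mul_le_mul_of_nonneg_left (le_max_left B 0) hK0.le
    linarith
  refine ⟨c / a, by positivity, a, fun x hx => ?_⟩
  have h1 := h a x ha1 ha2 hx
  have h2 : c / a * x = c * (x / a) := by ring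
  rw [h2]
  refine h1.trans ?_
  have hfin : {n : ℤ | n ∈ {n : ℤ | ∀ k : ℕ, B < ((T d m r)^[k] n : ℝ)} ∧ 0 < n ∧
      (n : ℝ) ≤ x}.Finite := by
    refine (Set.finite_Icc (1 : ℤ) ⌊x⌋).subset ?_
    rintro n ⟨-, h1, h2⟩
    exact ⟨h1, Int.le_floor.2 h2⟩
  have hsub : Pth d m r (a / K) a x ⊆
      {n : ℤ | n ∈ {n : ℤ | ∀ k : ℕ, B < ((T d m r)^[k] n : ℝ)} ∧ 0 < n ∧ (n : ℝ) ≤ x} := by
    rintro n ⟨⟨t, ht1, ht2⟩, hn⟩
    refine ⟨fun k => ?_, hn⟩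
    rcases le_total k t with hk | hk
    · exact lt_of_lt_of_le haK (ht2 k hk)
    · obtain ⟨j, rfl⟩ := Nat.exists_eq_add_of_le hk
      rw [Nat.add_comm t j, Function.iterate_add_apply, ht1]
      exact lt_of_le_of_lt hBm (ha3 j)
  exact_mod_cast Set.ncard_le_ncard hsub hfin

theorem three_hyp : (((3 : ℕ) : ℝ) ≤ ((2 : ℕ) : ℝ) ^ (((2 : ℕ) : ℝ) / (((2 : ℕ) : ℝ) - 1))) ∧
    Admissible 2 3 (fun _ => -1) := by
  refine ⟨?_, ?_⟩
  · push_cast
    have : (2 : ℝ) / (2 - 1) = 2 := by norm_num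
    rw [this]
    norm_num
  · intro j hj1 hj2
    have : j = 1 := by
      push_cast at hj2
      omega
    subst this
    decide

theorem three_pos {n₀ : ℤ} (hn₀ : 0 < n₀) (k : ℕ) : 1 ≤ (T 2 3 (fun _ => -1))^[k] n₀ := by
  induction k with
  | zero => exact hn₀
  | succ k ih =>
    rw [Function.iterate_succ_apply']
    exact Pool.Agent.Helper8.GrowthInR.T_pos (le_refl 2) three_hyp.2 (by intros; norm_num) (by omega)

theorem three_one (j : ℕ) :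
    (T 2 3 (fun _ => -1))^[j] 1 = 1 ∨ (T 2 3 (fun _ => -1))^[j] 1 = 2 := by
  have hT1 : T 2 3 (fun _ => -1) 1 = 2 := by decide
  have hT2 : T 2 3 (fun _ => -1) 2 = 1 := by decide
  induction j with
  | zero => exact Or.inl rfl
  | succ j ih =>
    rw [Function.iterate_succ_apply']
    rcases ih with ih | ih
    · rw [ih, hT1]
      exact Or.inr rfl
    · rw [ih, hT2]
      exact Or.inl rfl

/-- One counterexample to the `3x + 1` conjecture gives a positive proportion of them. -/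
theorem three_many {n₀ : ℤ} (hn₀ : 0 < n₀) (h1 : ∀ t : ℕ, (T 2 3 (fun _ => -1))^[t] n₀ ≠ 1) :
    ∃ c : ℝ, 0 < c ∧ ∃ X : ℝ, ∀ x : ℝ, X ≤ x →
      c * x ≤ ({n : ℤ | n ∈ {n : ℤ | ∀ t : ℕ, (T 2 3 (fun _ => -1))^[t] n ≠ 1} ∧
        0 < n ∧ (n : ℝ) ≤ x}.ncard : ℝ) := by
  have hd : 2 ≤ 2 := le_refl 2
  have hdm : 2 < 3 := by norm_num
  have hco : Nat.Coprime 3 2 := by norm_num
  obtain ⟨hw, hr⟩ := three_hyp
  obtain ⟨p, v, s0, hB⟩ := exists_Base hd hdm hco hw hr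
  have hpos := three_pos hn₀
  obtain ⟨t, ht⟩ := PRE.exists_alive hB hpos
  obtain ⟨c, hc, h⟩ := density_one hd hdm hco hw hr
  set a : ℤ := (T 2 3 (fun _ => -1))^[t] n₀ with ha
  have ha1 : 1 ≤ a := hpos t
  have ha0 : (0 : ℝ) < a := by exact_mod_cast (by omega : 0 < a)
  refine ⟨c / a, by positivity, a, fun x hx => ?_⟩
  have h2 := h a x ha1 ht hx
  have e : c / a * x = c * x / a := by ring
  rw [e]
  refine h2.trans ?_
  have hfin : {n : ℤ | n ∈ {n : ℤ | ∀ t : ℕ, (T 2 3 (fun _ => -1))^[t] n ≠ 1} ∧ 0 < n ∧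
      (n : ℝ) ≤ x}.Finite := by
    refine (Set.finite_Icc (1 : ℤ) ⌊x⌋).subset ?_
    rintro n ⟨-, h1, h2⟩
    exact ⟨h1, Int.le_floor.2 h2⟩
  refine (Nat.cast_le (α := ℝ)).2 (Set.ncard_le_ncard ?_ hfin)
  rintro n ⟨⟨s, hs⟩, hn⟩
  refine ⟨fun i hi => ?_, hn⟩
  have hT2 : T 2 3 (fun _ => -1) 2 = 1 := by decide
  rcases le_total i s with hle | hle
  · obtain ⟨j, rfl⟩ := Nat.exists_eq_add_of_le hle
    rw [Nat.add_comm i j, Function.iterate_add_apply, hi] at hs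
    rcases three_one j with h2 | h2
    · exact h1 t (ha ▸ hs.symm.trans h2)
    · refine h1 (t + 1) ?_
      rw [Function.iterate_succ_apply', ← ha, ← hs, h2, hT2]
  · obtain ⟨j, rfl⟩ := Nat.exists_eq_add_of_le hle
    rw [Nat.add_comm s j, Function.iterate_add_apply, hs, ha, ← Function.iterate_add_apply] at hi
    exact h1 _ hi

end Pool.Agent.Helper8.POS
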