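import Pool.Agent.Helper8.POS.Defs

/-!
# Block POS-BDA: distinct offsets, integers of a residue class in an interval

* `Off_inj`: choose `n` with `m ^ s n ≡ Off w (mod d ^ t)` (`m`, `d` coprime), `m ^ s n = d ^ t y + Off w`; then `wd_unique` gives `wd t n = w` and `wd t n = u`.
* `card_class_le`: if `S` is empty trivial; otherwise let `z₀` be the least element of `S`; `z ↦ (z - z₀) / M` maps `S` injectively to the integers of
  `[0, 2 K / M]`.
-/

set_option autoImplicit false

namespace Pool.Agent.Helper8.POS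

open Finset Pool.Agent.Helper68.Moeller Pool.Agent.Helper52.Tao Pool.Agent.Helper91.PL

variable {d m : ℕ} {r : ℤ → ℤ} {A : Finset (List ℕ)} {h : ℤ → ℝ}

/-- For a fixed length and a fixed number of non-zero digits the offset determines the word. -/
theorem Off_inj (hd : 2 ≤ d) (hco : Nat.Coprime m d) (hr : Admissible d m r) {t : ℕ} {u w : List ℕ}
    (hu : u ∈ W d t) (hw : w ∈ W d t) (hs : sg u = sg w) (ho : Off d m r u = Off d m r w) :
    u = w := by
  obtain ⟨α, β, hab⟩ : IsCoprime ((m : ℤ) ^ sg w) ((d : ℤ) ^ t) := by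
    apply IsCoprime.pow
    exact Nat.isCoprime_iff_coprime.mpr hco
  have h1 : (m : ℤ) ^ sg w * (α * Off d m r w) = (d : ℤ) ^ t * (-β * Off d m r w) + Off d m r w := by
    linear_combination (Off d m r w) * hab
  have h2 : (m : ℤ) ^ sg u * (α * Off d m r w) = (d : ℤ) ^ t * (-β * Off d m r w) + Off d m r u := by
    rw [hs, ho]
    exact h1
  exact (wd_unique hd hco hr hu h2).1.symm.trans (wd_unique hd hco hr hw h1).1

/-- Integers of a residue class in an interval. -/
theorem card_class_le (S : Finset ℤ) {M : ℕ} (hM : 1 ≤ M) {K : ℝ} (hK : 0 ≤ K)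
    (h1 : ∀ z ∈ S, |(z : ℝ)| ≤ K) (h2 : ∀ z ∈ S, ∀ z' ∈ S, (M : ℤ) ∣ z - z') :
    (S.card : ℝ) ≤ 2 * K / M + 1 := by
  have hM0 : (0 : ℝ) < M := by exact_mod_cast hM
  have hMZ : (M : ℤ) ≠ 0 := by omega
  rcases S.eq_empty_or_nonempty with rfl | hne
  · simp only [card_empty, Nat.cast_zero]
    positivity
  · set z₀ := S.min' hne with hz₀
    have hz₀m : z₀ ∈ S := S.min'_mem hne
    have hge : ∀ z ∈ S, z₀ ≤ z := fun z hz => S.min'_le z hz
    have key : S.card ≤ (range (⌊2 * K / M⌋₊ + 1)).card := by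
      apply card_le_card_of_injOn (fun z => ((z - z₀) / (M : ℤ)).toNat)
      · intro z hz
        have hz' : z ∈ S := hz
        have hnn : 0 ≤ (z - z₀) / (M : ℤ) := Int.ediv_nonneg (by linarith [hge z hz']) (by positivity)
        simp only [coe_range, Set.mem_Iio]
        rw [Nat.lt_succ_iff]
        apply Nat.le_floor
        have hc : ((((z - z₀) / (M : ℤ)).toNat : ℕ) : ℝ) = (((z - z₀) / (M : ℤ) : ℤ) : ℝ) := by
          exact_mod_cast Int.toNat_of_nonneg hnn
        rw [hc, le_div_iff₀ hM0]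
        have h3 : (z - z₀) / (M : ℤ) * (M : ℤ) = z - z₀ := Int.ediv_mul_cancel (h2 z hz' z₀ hz₀m)
        have h4 : ((((z - z₀) / (M : ℤ) : ℤ) : ℝ)) * M = (z : ℝ) - z₀ := by
          exact_mod_cast h3
        rw [h4]
        have h5 := abs_le.1 (h1 z hz')
        have h6 := abs_le.1 (h1 z₀ hz₀m)
        linarith [h5.2, h6.1]
      · intro z hz z' hz' heq
        have hz1 : z ∈ S := hz
        have hz2 : z' ∈ S := hz'
        have hnn : 0 ≤ (z - z₀) / (M : ℤ) := Int.ediv_nonneg (by linarith [hge z hz1]) (by positivity)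
        have hnn' : 0 ≤ (z' - z₀) / (M : ℤ) := Int.ediv_nonneg (by linarith [hge z' hz2]) (by positivity)
        have h5 : (z - z₀) / (M : ℤ) = (z' - z₀) / (M : ℤ) := by
          have h6 : ((z - z₀) / (M : ℤ)).toNat = ((z' - z₀) / (M : ℤ)).toNat := heq
          omega
        have h3 : (z - z₀) / (M : ℤ) * (M : ℤ) = z - z₀ := Int.ediv_mul_cancel (h2 z hz1 z₀ hz₀m)
        have h4 : (z' - z₀) / (M : ℤ) * (M : ℤ) = z' - z₀ := Int.ediv_mul_cancel (h2 z' hz2 z₀ hz₀m)
        rw [h5, h4] at h3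
        linarith
    rw [card_range] at key
    have h7 : (S.card : ℝ) ≤ ((⌊2 * K / M⌋₊ + 1 : ℕ) : ℝ) := by exact_mod_cast key
    push_cast at h7
    have h8 : ((⌊2 * K / M⌋₊ : ℕ) : ℝ) ≤ 2 * K / M := Nat.floor_le (by positivity)
    linarith

end Pool.Agent.Helper8.POS
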