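import Pool.Agent.Helper8.POS.Defs

/-!
# Block POS-ALG: the transfer operator, algebra

* `hit_append`: by `Off_append`, `d ^ |uv| x + Off (u ++ v) = d ^ |v| (d ^ |u| x + Off u) + m ^ sg u * Off v`. If `Hit (sg u) x u`
  the bracket is `m ^ sg u * pt u x` (`pt_spec`), so the sum is `m ^ sg u (d ^ |v| pt u x + Off v)`; conversely `m ^ sg u` divides
  `d ^ |v| (…)`, and `m`, `d` are coprime.
* `Lo_cat`: `(u, v) ↦ u ++ v` is injective on `A ×ˢ B`, as all words of `A` have the same length.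
-/

set_option autoImplicit false

namespace Pool.Agent.Helper8.POS

open Finset Pool.Agent.Helper68.Moeller Pool.Agent.Helper52.Tao Pool.Agent.Helper91.PL

variable {d m : ℕ} {r : ℤ → ℤ} {A B : Finset (List ℕ)} {f g : ℤ → ℝ}

theorem sz_pos (hd : 1 ≤ d) (hm : 1 ≤ m) (w : List ℕ) : 0 < sz d m w := by
  unfold sz
  have h1 : (0 : ℝ) < d := by exact_mod_cast hd
  have h2 : (0 : ℝ) < m := by exact_mod_cast hm
  positivity

theorem sz_append (hm : 1 ≤ m) (u v : List ℕ) : sz d m (u ++ v) = sz d m u * sz d m v := by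
  have _ := hm
  unfold sz
  rw [List.length_append, sg_append, pow_add, pow_add, mul_div_mul_comm]

private theorem alg_key (hm : 1 ≤ m) {x : ℤ} {u : List ℕ} (v : List ℕ)
    (hu : Hit d m r (sg u) x u) :
    (d : ℤ) ^ (u ++ v).length * x + Off d m r (u ++ v) =
      (m : ℤ) ^ sg u * ((d : ℤ) ^ v.length * pt d m r u x + Off d m r v) := by
  rw [Off_append, List.length_append, mul_add, mul_left_comm, pt_spec hm hu, pow_add]
  ring

theorem hit_append (hm : 1 ≤ m) (hco : Nat.Coprime m d) (x : ℤ) (u v : List ℕ) :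
    Hit d m r (sg (u ++ v)) x (u ++ v) ↔
      Hit d m r (sg u) x u ∧ Hit d m r (sg v) (pt d m r u x) v := by
  have hm0 : (m : ℤ) ^ sg u ≠ 0 := pow_ne_zero _ (by
    have : 0 < m := hm
    exact_mod_cast this.ne')
  constructor
  · intro h
    have hu : Hit d m r (sg u) x u := by
      unfold Hit at h ⊢
      rw [Off_append, List.length_append, sg_append, pow_add, pow_add] at h
      have h1 : (m : ℤ) ^ sg u ∣ (d : ℤ) ^ u.length * (d : ℤ) ^ v.length * x +
          ((m : ℤ) ^ sg u * Off d m r v + (d : ℤ) ^ v.length * Off d m r u) :=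
        (Dvd.intro _ rfl).trans h
      have h2 : (m : ℤ) ^ sg u ∣ (d : ℤ) ^ v.length * ((d : ℤ) ^ u.length * x + Off d m r u) := by
        have h3 : (d : ℤ) ^ v.length * ((d : ℤ) ^ u.length * x + Off d m r u) =
            (d : ℤ) ^ u.length * (d : ℤ) ^ v.length * x +
            ((m : ℤ) ^ sg u * Off d m r v + (d : ℤ) ^ v.length * Off d m r u) -
            (m : ℤ) ^ sg u * Off d m r v := by ring
        rw [h3]
        exact dvd_sub h1 (Dvd.intro _ rfl)
      have h4 : IsCoprime ((m : ℤ) ^ sg u) ((d : ℤ) ^ v.length) :=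
        (Nat.isCoprime_iff_coprime.2 hco).pow
      exact h4.dvd_of_dvd_mul_left h2
    refine ⟨hu, ?_⟩
    unfold Hit at h
    rw [alg_key hm v hu, sg_append, pow_add] at h
    exact Int.dvd_of_mul_dvd_mul_left hm0 h
  · rintro ⟨hu, hv⟩
    unfold Hit at hv ⊢
    rw [alg_key hm v hu, sg_append, pow_add]
    exact mul_dvd_mul_left _ hv

theorem pt_append (hm : 1 ≤ m) {x : ℤ} {u v : List ℕ}
    (hu : Hit d m r (sg u) x u) (hv : Hit d m r (sg v) (pt d m r u x) v) :
    pt d m r (u ++ v) x = pt d m r v (pt d m r u x) := by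
  have _ := hv
  have hm0 : (0 : ℤ) < (m : ℤ) ^ sg u := by
    have : (0 : ℤ) < m := by exact_mod_cast hm
    positivity
  unfold pt
  rw [alg_key hm v hu, sg_append, pow_add, Int.mul_ediv_mul_of_pos _ _ hm0]
  rfl

theorem Lo_nonneg (hd : 1 ≤ d) (hm : 1 ≤ m) (hf : ∀ z, 0 ≤ f z) (x : ℤ) : 0 ≤ Lo d m r A f x := by
  unfold Lo
  exact Finset.sum_nonneg fun w _ => div_nonneg (hf _) (sz_pos hd hm w).le

theorem Lo_mono (hd : 1 ≤ d) (hm : 1 ≤ m) (hfg : ∀ z, f z ≤ g z) (x : ℤ) :
    Lo d m r A f x ≤ Lo d m r A g x := by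
  unfold Lo
  exact Finset.sum_le_sum fun w _ => div_le_div_of_nonneg_right (hfg _) (sz_pos hd hm w).le

theorem Lo_subset (hd : 1 ≤ d) (hm : 1 ≤ m) (hf : ∀ z, 0 ≤ f z) (hAB : A ⊆ B) (x : ℤ) :
    Lo d m r A f x ≤ Lo d m r B f x := by
  classical
  unfold Lo
  exact Finset.sum_le_sum_of_subset_of_nonneg (Finset.filter_subset_filter _ hAB)
    fun w _ _ => div_nonneg (hf _) (sz_pos hd hm w).le

theorem Lo_add (x : ℤ) : Lo d m r A (fun z => f z + g z) x = Lo d m r A f x + Lo d m r A g x := by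
  unfold Lo
  rw [← Finset.sum_add_distrib]
  exact Finset.sum_congr rfl fun w _ => add_div _ _ _

theorem Lo_sub (x : ℤ) : Lo d m r A (fun z => f z - g z) x = Lo d m r A f x - Lo d m r A g x := by
  unfold Lo
  rw [← Finset.sum_sub_distrib]
  exact Finset.sum_congr rfl fun w _ => sub_div _ _ _

theorem Lo_mul (c : ℝ) (x : ℤ) : Lo d m r A (fun z => c * f z) x = c * Lo d m r A f x := by
  unfold Lo
  rw [Finset.mul_sum]
  exact Finset.sum_congr rfl fun w _ => mul_div_assoc _ _ _

open Classical in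
private theorem Lo_ite (x : ℤ) : Lo d m r A f x =
    ∑ w ∈ A, if Hit d m r (sg w) x w then f (pt d m r w x) / sz d m w else 0 := by
  unfold Lo
  rw [Finset.sum_filter]

theorem Lo_sdiff (hAB : A ⊆ B) (x : ℤ) :
    Lo d m r (B \ A) f x = Lo d m r B f x - Lo d m r A f x := by
  classical
  rw [Lo_ite, Lo_ite, Lo_ite, Finset.sum_sdiff_eq_sub hAB]

theorem Lo_cat (hm : 1 ≤ m) (hco : Nat.Coprime m d) {i : ℕ} (hA : A ⊆ W d i) (x : ℤ) :
    Lo d m r (cat A B) f x = Lo d m r A (fun z => Lo d m r B f z) x := by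
  classical
  rw [Lo_ite, Lo_ite, cat, Finset.sum_image, Finset.sum_product]
  · refine Finset.sum_congr rfl fun u _ => ?_
    by_cases hu : Hit d m r (sg u) x u
    · rw [if_pos hu, Lo_ite, Finset.sum_div]
      refine Finset.sum_congr rfl fun v _ => ?_
      by_cases hv : Hit d m r (sg v) (pt d m r u x) v
      · rw [if_pos ((hit_append hm hco x u v).2 ⟨hu, hv⟩), if_pos hv, pt_append hm hu hv,
          sz_append hm, mul_comm, div_div]
      · rw [if_neg fun h => hv ((hit_append hm hco x u v).1 h).2, if_neg hv, zero_div]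
    · rw [if_neg hu]
      refine Finset.sum_eq_zero fun v _ => ?_
      rw [if_neg fun h => hu ((hit_append hm hco x u v).1 h).1]
  · rintro ⟨u, v⟩ hp ⟨u', v'⟩ hp' h
    have h1 : u.length = u'.length :=
      (length_of_mem_W (hA (Finset.mem_product.1 hp).1)).trans
        (length_of_mem_W (hA (Finset.mem_product.1 hp').1)).symm
    obtain ⟨h2, h3⟩ := List.append_inj h h1
    change u = u' at h2
    change v = v' at h3
    rw [h2, h3]

theorem cat_W (i j : ℕ) : cat (W d i) (W d j) = W d (i + j) := by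
  ext w
  unfold cat
  rw [Finset.mem_image, mem_W]
  constructor
  · rintro ⟨⟨u, v⟩, hp, rfl⟩
    obtain ⟨h1, h2⟩ := Finset.mem_product.1 hp
    obtain ⟨h3, h4⟩ := mem_W.1 h1
    obtain ⟨h5, h6⟩ := mem_W.1 h2
    refine ⟨?_, ?_⟩
    · change (u ++ v).length = i + j
      rw [List.length_append]
      change u.length = i at h3
      change v.length = j at h5
      omega
    · intro a ha
      rcases List.mem_append.1 ha with h | h
      · exact h4 a h
      · exact h6 a h
  · rintro ⟨h1, h2⟩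
    refine ⟨(w.take i, w.drop i), Finset.mem_product.2 ⟨mem_W.2 ⟨?_, ?_⟩, mem_W.2 ⟨?_, ?_⟩⟩, ?_⟩
    · rw [List.length_take]
      omega
    · exact fun a ha => h2 a (List.mem_of_mem_take ha)
    · rw [List.length_drop]
      omega
    · exact fun a ha => h2 a (List.mem_of_mem_drop ha)
    · exact List.take_append_drop i w

theorem cat_mono {A' B' : Finset (List ℕ)} (hA : A ⊆ A') (hB : B ⊆ B') : cat A B ⊆ cat A' B' := by
  unfold cat
  exact Finset.image_subset_image (Finset.product_subset_product hA hB)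

theorem gg_add (hm : 1 ≤ m) (hco : Nat.Coprime m d) (j i : ℕ) (x : ℤ) :
    Lo d m r (W d j) (fun z => gg d m r i z) x = gg d m r (j + i) x := by
  unfold gg
  rw [← cat_W, Lo_cat hm hco (Finset.Subset.refl _)]

end Pool.Agent.Helper8.POS
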