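import Pool.Agent.Helper8.POS.Step

/-!
# Block POS-ALLT: iteration of the step

Let `τ 0 = t0`, `τ (k + 1) = τ k + τ k / Q`, `U k = Lo (Ty (τ k)) (gg (τ k / Q)) x`. By `step` (`j = τ k / Q`, `i = τ (k + 1) / Q`,
`Q i ≤ τ k + τ k / Q ≤ 2 τ k`): `U (k + 1) ≥ U k - C / (τ k) ^ 2`, and `τ (k + 1) ≥ τ k + 1` (if `t0 ≥ Q`), so
`C / (τ k) ^ 2 ≤ 2 C / τ k - 2 C / τ (k + 1)` and `U k - 2 C / τ k` is non-decreasing: `U k ≥ U 0 - 2 C / t0`.
For `t ≥ 2 t0 ≥ τ 1` let `k` be maximal with `τ (k + 1) ≤ t` (so `t < τ (k + 2)`), `j = t - τ k`: `j ≥ τ k / Q` and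
`Q j ≤ Q (τ (k + 2) - τ k) ≤ τ k + τ (k + 1) ≤ 3 τ k`, `i = t / Q ^ 2`: `Q i ≤ t / Q ≤ 2 τ k` (`Q ≥ 16`, `t ≤ 4 τ k`). By `step` again:
`Lo (Ty t) (gg (t / Q ^ 2)) x ≥ U k - C / (τ k) ^ 2 ≥ U 0 - 3 C / t0`.
-/

set_option autoImplicit false

namespace Pool.Agent.Helper8.POS

open Finset Pool.Agent.Helper68.Moeller Pool.Agent.Helper52.Tao Pool.Agent.Helper91.PL

variable {d m Q : ℕ} {r : ℤ → ℤ} {M : ℝ}

/-- The next level. -/
private def nx (Q t : ℕ) : ℕ := t + t / Q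

private theorem nx_le (Q t : ℕ) : nx Q t ≤ 2 * t := by
  unfold nx
  have := Nat.div_le_self t Q
  omega

theorem all_t (hO : Ok d m r Q) (hmix : Mixing d m r) (hM : 1 ≤ M) : ∃ C : ℝ, 0 < C ∧ ∃ t1 : ℕ,
    ∀ t0 t : ℕ, t1 ≤ t0 → 2 * t0 ≤ t → ∀ x : ℤ,
      Lo d m r (Ty d m Q M t0) (fun z => gg d m r (t0 / Q) z) x ≤
        Lo d m r (Ty d m Q M t) (fun z => gg d m r (t / Q ^ 2) z) x + C / (t0 : ℝ) := by
  obtain ⟨C, hC, t1, h⟩ := step hO hmix hM
  have hQ16 : 16 ≤ Q := by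
    have h1 := hO.hQ
    have h2 : 0 ≤ Real.log m := Real.log_natCast_nonneg m
    have h3 : 0 ≤ 16 * Real.log m / gam d m := div_nonneg (by positivity) hO.hg.le
    have h4 : (16 : ℝ) ≤ Q := by linarith
    exact_mod_cast h4
  refine ⟨3 * C, by positivity, max t1 Q, fun t0 t ht0 ht x => ?_⟩
  have ht01 : t1 ≤ t0 := (le_max_left _ _).trans ht0
  have ht0Q : Q ≤ t0 := (le_max_right _ _).trans ht0
  set U : ℕ → ℝ := fun t => Lo d m r (Ty d m Q M t) (fun z => gg d m r (t / Q) z) x with hU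
  have hdiv : ∀ n : ℕ, Q * (n / Q) ≤ n := fun n => Nat.mul_div_le n Q
  -- one step
  have hone : ∀ n : ℕ, t0 ≤ n → U n ≤ U (nx Q n) + (2 * C / n - 2 * C / (nx Q n : ℕ)) := by
    intro n hn
    have hn0 : 0 < n := by omega
    have hi : Q * ((n + n / Q) / Q) ≤ 2 * n := (hdiv _).trans (nx_le Q n)
    have h1 := h n (n / Q) ((n + n / Q) / Q) (ht01.trans hn) le_rfl ((hdiv n).trans (by omega)) hi x
    have h2 : n + 1 ≤ nx Q n := by
      unfold nx
      have : 1 ≤ n / Q := (Nat.one_le_div_iff (by omega)).2 (ht0Q.trans hn)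
      omega
    have hnR : (0 : ℝ) < n := by exact_mod_cast hn0
    have h3 : (n : ℝ) + 1 ≤ (nx Q n : ℕ) := by exact_mod_cast h2
    have h4 : C / (n : ℝ) ^ 2 ≤ 2 * C / n - 2 * C / (nx Q n : ℕ) := by
      have h5 : 2 * C / (nx Q n : ℕ) ≤ 2 * C / ((n : ℝ) + 1) :=
        div_le_div_of_nonneg_left (by positivity) (by positivity) h3
      have h6 : C / (n : ℝ) ^ 2 ≤ 2 * C / n - 2 * C / ((n : ℝ) + 1) := by
        have e : 2 * C / n - 2 * C / ((n : ℝ) + 1) = 2 * C / (n * ((n : ℝ) + 1)) := by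
          field_simp
          ring
        rw [e, div_le_div_iff₀ (by positivity) (by positivity)]
        have h7 : (1 : ℝ) ≤ n := by exact_mod_cast hn0
        nlinarith [mul_pos hC hnR]
      linarith
    have h1' : U n ≤ U (nx Q n) + C / (n : ℝ) ^ 2 := h1
    linarith
  -- all levels
  have hge : ∀ k : ℕ, t0 + k ≤ (nx Q)^[k] t0 := by
    intro k
    induction k with
    | zero => simp
    | succ k ih =>
      rw [Function.iterate_succ_apply']
      have h1 : 1 ≤ ((nx Q)^[k] t0) / Q := (Nat.one_le_div_iff (by omega)).2 (by omega)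
      unfold nx at h1 ih ⊢
      omega
  have hall : ∀ k : ℕ, U t0 ≤ U ((nx Q)^[k] t0) + (2 * C / t0 - 2 * C / ((nx Q)^[k] t0 : ℕ)) := by
    intro k
    induction k with
    | zero => simp
    | succ k ih =>
      rw [Function.iterate_succ_apply']
      have h1 := hone ((nx Q)^[k] t0) (by have := hge k; omega)
      linarith
  -- the last level before `t`
  have hex : ∃ k, t < (nx Q)^[k] t0 := ⟨t + 1, by have := hge (t + 1); omega⟩
  classical
  have hf := Nat.find_spec hex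
  have h0 : Nat.find hex ≠ 0 := by
    intro h0
    rw [h0] at hf
    simp only [Function.iterate_zero, id_eq] at hf
    omega
  have h1 : Nat.find hex ≠ 1 := by
    intro h1
    rw [h1, Function.iterate_one] at hf
    have := nx_le Q t0
    omega
  obtain ⟨k, hk⟩ : ∃ k, Nat.find hex = k + 2 := ⟨Nat.find hex - 2, by omega⟩
  have hlt : t < (nx Q)^[k + 2] t0 := by rw [← hk]; exact hf
  have hle : (nx Q)^[k + 1] t0 ≤ t := by
    have := Nat.find_min hex (m := k + 1) (by omega)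
    omega
  set n : ℕ := (nx Q)^[k] t0 with hn
  have e1 : (nx Q)^[k + 1] t0 = nx Q n := by rw [Function.iterate_succ_apply']
  have e2 : (nx Q)^[k + 2] t0 = nx Q (nx Q n) := by
    rw [Function.iterate_succ_apply', Function.iterate_succ_apply']
  rw [e2] at hlt
  rw [e1] at hle
  have hn0 : t0 ≤ n := by have := hge k; omega
  have hnt : n ≤ t := le_trans (Nat.le_add_right n (n / Q)) hle
  have hj1 : n / Q ≤ t - n := by
    unfold nx at hle
    omega
  have hj2 : Q * (t - n) ≤ 3 * n := by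
    have h2 : t - n ≤ n / Q + (nx Q n) / Q := by
      have h3 : nx Q (nx Q n) = nx Q n + (nx Q n) / Q := rfl
      have h4 : nx Q n = n + n / Q := rfl
      omega
    have h5 := hdiv n
    have h6 := hdiv (nx Q n)
    have h7 := nx_le Q n
    calc Q * (t - n) ≤ Q * (n / Q + (nx Q n) / Q) := Nat.mul_le_mul_left _ h2
      _ = Q * (n / Q) + Q * ((nx Q n) / Q) := by ring
      _ ≤ 3 * n := by omega
  have hi2 : Q * (t / Q ^ 2) ≤ 2 * n := by
    have h2 : t / Q ^ 2 = t / Q / Q := by rw [pow_two, Nat.div_div_eq_div_mul]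
    rw [h2]
    have h3 := hdiv (t / Q)
    have h4 : t ≤ 4 * n := by
      have h5 := nx_le Q (nx Q n)
      have h6 := nx_le Q n
      omega
    have h5 : t / Q ≤ t / 2 := Nat.div_le_div_left (by omega) (by norm_num)
    omega
  have hs := h n (t - n) (t / Q ^ 2) (ht01.trans hn0) hj1 hj2 hi2 x
  rw [Nat.add_sub_cancel' hnt] at hs
  have hs' : U n ≤ Lo d m r (Ty d m Q M t) (fun z => gg d m r (t / Q ^ 2) z) x +
      C / (n : ℝ) ^ 2 := hs
  have ha := hall k
  rw [← hn] at ha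
  have ht0R : (0 : ℝ) < t0 := by exact_mod_cast (by omega : 0 < t0)
  have hnR : (t0 : ℝ) ≤ n := by exact_mod_cast hn0
  have hn1 : (1 : ℝ) ≤ n := by exact_mod_cast (by omega : 1 ≤ n)
  have h8 : C / (n : ℝ) ^ 2 ≤ C / t0 := by
    refine div_le_div_of_nonneg_left hC.le ht0R ?_
    nlinarith
  have h9 : 0 ≤ 2 * C / (n : ℝ) := by positivity
  have h10 : 3 * C / (t0 : ℝ) = C / t0 + 2 * C / t0 := by ring
  rw [h10]
  have h11 : U t0 ≤ U n + (2 * C / t0 - 2 * C / (n : ℝ)) := ha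
  have h12 : U t0 = Lo d m r (Ty d m Q M t0) (fun z => gg d m r (t0 / Q) z) x := rfl
  linarith

end Pool.Agent.Helper8.POS
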