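import Pool.Agent.Helper8.POS.Alg

/-!
# Block POS-MEAN: mean values

* `Pe_Lo`: `Hit (sg w) x w` depends on `x` modulo `m ^ sg w`, `pt w x` modulo `m ^ i` depends on `x` modulo `m ^ (sg w + i)`, and
  `sg w ≤ t`.
* `mn_Lo`: it suffices to show for every `w ∈ W d t`, `s = sg w`:
  `∑_{c < m ^ (s + i), Hit s c w} f (pt w c) = ∑_{c < m ^ i} f c` (then `mn_shift` for the function
  `c ↦ if Hit s c w then f (pt w c) else 0`, and `m ^ (-(s + i)) / sz w = m ^ (-i) / d ^ t`). The map `c ↦ pt w c mod m ^ i` is a bijection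
  from the residues `c` modulo `m ^ (s + i)` with `Hit s c w` to the residues modulo `m ^ i`: `pt w c ≡ y (mod m ^ i)`
  iff `d ^ t c + Off w ≡ m ^ s y (mod m ^ (s + i))`, which has exactly one solution `c` modulo `m ^ (s + i)` (`d ^ t` is
  invertible). Compare `pos_stepB_one` (Helper91/PL/POS.lean).
-/

set_option autoImplicit false

namespace Pool.Agent.Helper8.POS

open Finset Pool.Agent.Helper68.Moeller Pool.Agent.Helper52.Tao Pool.Agent.Helper91.PL

variable {d m : ℕ} {r : ℤ → ℤ} {A B : Finset (List ℕ)} {f g : ℤ → ℝ}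

theorem Pe_mono {i k : ℕ} (hik : i ≤ k) (hf : Pe m i f) : Pe m k f :=
  fun x y h => hf x y ((pow_dvd_pow _ hik).trans h)

private lemma sum_per40 {N : ℕ} (hf : ∀ x y : ℤ, (N : ℤ) ∣ x - y → f x = f y) (n : ℕ) :
    ∑ c ∈ range (n * N), f (c : ℤ) = n * ∑ c ∈ range N, f (c : ℤ) := by
  induction n with
  | zero => simp
  | succ n ih =>
    rw [Nat.succ_mul, Finset.sum_range_add, ih, Nat.cast_succ, add_mul, one_mul]
    congr 1
    refine Finset.sum_congr rfl fun c _ => hf _ _ ?_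
    refine ⟨n, ?_⟩
    push_cast
    ring

theorem mn_shift (hm : 1 ≤ m) {i k : ℕ} (hik : i ≤ k) (hf : Pe m i f) : mn m k f = mn m i f := by
  have hm0 : (0 : ℝ) < m := by exact_mod_cast (by omega : 0 < m)
  have h1 : m ^ k = m ^ (k - i) * m ^ i := by rw [← pow_add, Nat.sub_add_cancel hik]
  unfold mn
  rw [h1, sum_per40 (f := f) (N := m ^ i) (by
    intro x y h
    exact hf x y (by exact_mod_cast h))]
  have h2 : (m : ℝ) ^ k = (m : ℝ) ^ (k - i) * (m : ℝ) ^ i := by
    rw [← pow_add, Nat.sub_add_cancel hik]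
  rw [h2]
  push_cast
  rw [mul_div_mul_left _ _ (by positivity)]

theorem mn_nonneg (i : ℕ) (hf : ∀ z, 0 ≤ f z) : 0 ≤ mn m i f :=
  div_nonneg (Finset.sum_nonneg fun c _ => hf c) (by positivity)

theorem mn_mono (i : ℕ) (hfg : ∀ z, f z ≤ g z) : mn m i f ≤ mn m i g := by
  unfold mn
  have h1 : ∑ c ∈ range (m ^ i), f (c : ℤ) ≤ ∑ c ∈ range (m ^ i), g (c : ℤ) :=
    Finset.sum_le_sum fun c _ => hfg c
  gcongr

theorem mn_add (i : ℕ) : mn m i (fun z => f z + g z) = mn m i f + mn m i g := by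
  unfold mn
  rw [Finset.sum_add_distrib, add_div]

theorem mn_mul (c : ℝ) (i : ℕ) : mn m i (fun z => c * f z) = c * mn m i f := by
  unfold mn
  rw [← Finset.mul_sum, mul_div_assoc]

private lemma hit_congr40 {t : ℕ} {w : List ℕ} (hw : w ∈ W d t) {k : ℕ} {x y : ℤ}
    (h : (m : ℤ) ^ (sg w + k) ∣ x - y) :
    (Hit d m r (sg w) x w ↔ Hit d m r (sg w) y w) := by
  have h1 : (m : ℤ) ^ sg w ∣ x - y := (pow_dvd_pow _ (Nat.le_add_right _ _)).trans h
  obtain ⟨u, hu⟩ := h1
  unfold Hit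
  constructor
  · rintro ⟨v, hv⟩
    exact ⟨v - (d : ℤ) ^ w.length * u, by linear_combination hv - (d : ℤ) ^ w.length * hu⟩
  · rintro ⟨v, hv⟩
    exact ⟨v + (d : ℤ) ^ w.length * u, by linear_combination hv + (d : ℤ) ^ w.length * hu⟩

private lemma pt_congr40 (hm : 1 ≤ m) {t : ℕ} {w : List ℕ} (hw : w ∈ W d t) {k : ℕ} {x y : ℤ}
    (h : (m : ℤ) ^ (sg w + k) ∣ x - y) (hx : Hit d m r (sg w) x w) :
    (m : ℤ) ^ k ∣ pt d m r w x - pt d m r w y := by
  have hy := (hit_congr40 (r := r) hw h).1 hx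
  have h1 := pt_spec hm hx
  have h2 := pt_spec hm hy
  have hm0 : (m : ℤ) ^ sg w ≠ 0 := pow_ne_zero _ (by exact_mod_cast (by omega : m ≠ 0))
  have h3 : (m : ℤ) ^ sg w * (m : ℤ) ^ k ∣ (m : ℤ) ^ sg w * (pt d m r w x - pt d m r w y) := by
    rw [← pow_add]
    obtain ⟨u, hu⟩ := h
    exact ⟨(d : ℤ) ^ w.length * u, by
      linear_combination h1 - h2 + (d : ℤ) ^ w.length * hu⟩
  exact (mul_dvd_mul_iff_left hm0).1 h3

theorem Pe_Lo (hm : 1 ≤ m) {t i : ℕ} (hA : A ⊆ W d t) (hf : Pe m i f) :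
    Pe m (t + i) (fun z => Lo d m r A f z) := by
  classical
  intro x y hxy
  have hsg : ∀ w ∈ A, sg w + (t - sg w + i) = t + i := by
    intro w hw
    have h1 := sg_le_length w
    rw [length_of_mem_W (hA hw)] at h1
    omega
  show Lo d m r A f x = Lo d m r A f y
  unfold Lo
  refine Finset.sum_congr ?_ ?_
  · refine Finset.filter_congr fun w hw => ?_
    exact hit_congr40 (hA hw) (k := t - sg w + i) (by rw [hsg w hw]; exact hxy)
  · intro w hw
    rw [Finset.mem_filter] at hw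
    congr 1
    refine hf _ _ ?_
    have h1 := pt_congr40 hm (hA hw.1) (k := t - sg w + i) (x := x) (y := y)
      (by rw [hsg w hw.1]; exact hxy)
      ((hit_congr40 (hA hw.1) (k := t - sg w + i) (by rw [hsg w hw.1]; exact hxy)).2 hw.2)
    exact (pow_dvd_pow _ (Nat.le_add_left _ _)).trans h1

open Classical in
/-- The bijection. -/
private lemma sum_bij40 (hm : 1 ≤ m) (hco : Nat.Coprime m d) {t i : ℕ} {w : List ℕ}
    (hw : w ∈ W d t) (hf : Pe m i f) :
    ∑ c ∈ (range (m ^ (sg w + i))).filter (fun c : ℕ => Hit d m r (sg w) c w),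
      f (pt d m r w c) = ∑ c ∈ range (m ^ i), f (c : ℤ) := by
  obtain ⟨e, he⟩ := exists_e hco (sg w + i)
  have hmi : (0 : ℤ) < (m : ℤ) ^ i := by positivity
  have hmK : (0 : ℤ) < (m : ℤ) ^ (sg w + i) := by positivity
  have hms : (m : ℤ) ^ sg w ≠ 0 := pow_ne_zero _ (by exact_mod_cast (by omega : m ≠ 0))
  have hcop : IsCoprime ((m : ℤ) ^ (sg w + i)) ((d : ℤ) ^ w.length) :=
    (IsCoprime.pow (Nat.isCoprime_iff_coprime.mpr hco))
  have hnat : ∀ z : ℤ, (((z % (m : ℤ) ^ i).toNat : ℕ) : ℤ) = z % (m : ℤ) ^ i := fun z =>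
    Int.toNat_of_nonneg (Int.emod_nonneg _ hmi.ne')
  have hfeq : ∀ z : ℤ, f z = f (((z % (m : ℤ) ^ i).toNat : ℕ) : ℤ) := by
    intro z
    refine hf _ _ ?_
    rw [hnat, Int.emod_def]
    exact ⟨z / (m : ℤ) ^ i, by ring⟩
  refine Finset.sum_nbij (fun c : ℕ => (pt d m r w c % (m : ℤ) ^ i).toNat) ?_ ?_ ?_ ?_
  · intro c _
    have h1 : (((pt d m r w c % (m : ℤ) ^ i).toNat : ℕ) : ℤ) < (m : ℤ) ^ i := by
      rw [hnat]
      exact Int.emod_lt_of_pos _ hmi
    exact Finset.mem_range.2 (by exact_mod_cast h1)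
  · intro c hc c' hc' hcc
    rw [Finset.mem_coe, Finset.mem_filter, Finset.mem_range] at hc hc'
    have h1 : pt d m r w c % (m : ℤ) ^ i = pt d m r w c' % (m : ℤ) ^ i :=
      (hnat _).symm.trans ((congrArg (fun n : ℕ => (n : ℤ)) hcc).trans (hnat _))
    have h2 : (m : ℤ) ^ i ∣ pt d m r w c - pt d m r w c' :=
      Int.ModEq.dvd (show pt d m r w c' ≡ pt d m r w c [ZMOD (m : ℤ) ^ i] from h1.symm)
    have h3 := pt_spec hm hc.2
    have h4 := pt_spec hm hc'.2
    have h5 : (m : ℤ) ^ (sg w + i) ∣ (d : ℤ) ^ w.length * ((c : ℤ) - c') := by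
      rw [pow_add]
      obtain ⟨u, hu⟩ := h2
      exact ⟨u, by linear_combination h4 - h3 + (m : ℤ) ^ sg w * hu⟩
    have h6 : (m : ℤ) ^ (sg w + i) ∣ (c : ℤ) - c' := hcop.dvd_of_dvd_mul_left h5
    have h7 : |(c : ℤ) - c'| < (m : ℤ) ^ (sg w + i) := by
      have h8 : (c : ℤ) < (m : ℤ) ^ (sg w + i) := by exact_mod_cast hc.1
      have h9 : (c' : ℤ) < (m : ℤ) ^ (sg w + i) := by exact_mod_cast hc'.1
      rw [abs_lt]
      constructor <;> omega
    have h8 := Int.eq_zero_of_abs_lt_dvd h6 h7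
    omega
  · intro y hy
    rw [Finset.mem_coe, Finset.mem_range] at hy
    obtain ⟨c, hc⟩ : ∃ c : ℕ, c = ((e ^ w.length * ((m : ℤ) ^ sg w * y - Off d m r w)) %
      ((m : ℤ) ^ (sg w + i))).toNat := ⟨_, rfl⟩
    have hcz : (c : ℤ) = (e ^ w.length * ((m : ℤ) ^ sg w * y - Off d m r w)) %
        ((m : ℤ) ^ (sg w + i)) := by
      rw [hc]
      exact Int.toNat_of_nonneg (Int.emod_nonneg _ hmK.ne')
    have hclt : c < m ^ (sg w + i) := by
      have h1 : (c : ℤ) < (m : ℤ) ^ (sg w + i) := by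
        rw [hcz]
        exact Int.emod_lt_of_pos _ hmK
      exact_mod_cast h1
    have hdt : (m : ℤ) ^ (sg w + i) ∣ (d : ℤ) ^ w.length * e ^ w.length - 1 := by
      have h1 : (d : ℤ) * e - 1 ∣ ((d : ℤ) * e) ^ w.length - 1 ^ w.length :=
        sub_dvd_pow_sub_pow _ _ _
      rw [one_pow, mul_pow] at h1
      exact he.trans h1
    have hkey : (m : ℤ) ^ (sg w + i) ∣ (d : ℤ) ^ w.length * c + Off d m r w -
        (m : ℤ) ^ sg w * y := by
      have h1 : (m : ℤ) ^ (sg w + i) ∣ (c : ℤ) -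
          e ^ w.length * ((m : ℤ) ^ sg w * y - Off d m r w) := by
        rw [hcz, Int.emod_def]
        exact ⟨-((e ^ w.length * ((m : ℤ) ^ sg w * y - Off d m r w)) / (m : ℤ) ^ (sg w + i)), by
          ring⟩
      obtain ⟨u, hu⟩ := h1
      obtain ⟨v, hv⟩ := hdt
      refine ⟨(d : ℤ) ^ w.length * u + v * ((m : ℤ) ^ sg w * y - Off d m r w), ?_⟩
      linear_combination (d : ℤ) ^ w.length * hu + ((m : ℤ) ^ sg w * y - Off d m r w) * hv
    have hhit : Hit d m r (sg w) c w := by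
      obtain ⟨u, hu⟩ := hkey
      refine ⟨(m : ℤ) ^ i * u + y, ?_⟩
      rw [pow_add] at hu
      linear_combination hu
    have h2 := pt_spec hm hhit
    have h3 : (m : ℤ) ^ i ∣ pt d m r w c - y := by
      have h4 : (m : ℤ) ^ sg w * (m : ℤ) ^ i ∣ (m : ℤ) ^ sg w * (pt d m r w c - y) := by
        rw [← pow_add]
        obtain ⟨u, hu⟩ := hkey
        exact ⟨u, by linear_combination h2 + hu⟩
      exact (mul_dvd_mul_iff_left hms).1 h4
    refine ⟨c, ?_, ?_⟩
    · rw [Finset.mem_coe, Finset.mem_filter, Finset.mem_range]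
      exact ⟨hclt, hhit⟩
    · show (pt d m r w c % (m : ℤ) ^ i).toNat = y
      have h4 : pt d m r w c % (m : ℤ) ^ i = (y : ℤ) % (m : ℤ) ^ i :=
        (Int.modEq_iff_dvd.2 h3).symm
      have h5 : (y : ℤ) % (m : ℤ) ^ i = y :=
        Int.emod_eq_of_lt (by omega) (by exact_mod_cast hy)
      rw [h4, h5]
      exact Int.toNat_natCast y
  · intro c _
    exact hfeq _

theorem mn_Lo (hd : 1 ≤ d) (hm : 1 ≤ m) (hco : Nat.Coprime m d) {t i : ℕ} (hA : A ⊆ W d t)
    (hf : Pe m i f) :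
    mn m (t + i) (fun z => Lo d m r A f z) = (A.card : ℝ) / (d : ℝ) ^ t * mn m i f := by
  classical
  have hm0 : (0 : ℝ) < m := by exact_mod_cast (by omega : 0 < m)
  have hd0 : (0 : ℝ) < d := by exact_mod_cast (by omega : 0 < d)
  -- one word
  have hone : ∀ w ∈ A, mn m (t + i)
      (fun z => if Hit d m r (sg w) z w then f (pt d m r w z) else 0) =
      mn m i f / (m : ℝ) ^ sg w := by
    intro w hw
    have hsg : sg w ≤ t := by
      have h1 := sg_le_length w
      rwa [length_of_mem_W (hA hw)] at h1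
    have hper : Pe m (sg w + i)
        (fun z => if Hit d m r (sg w) z w then f (pt d m r w z) else 0) := by
      intro x y hxy
      have h1 := hit_congr40 (r := r) (hA hw) hxy
      simp only
      by_cases hx : Hit d m r (sg w) x w
      · rw [if_pos hx, if_pos (h1.1 hx)]
        exact hf _ _ (pt_congr40 hm (hA hw) hxy hx)
      · rw [if_neg hx, if_neg (fun h => hx (h1.2 h))]
    rw [mn_shift hm (by omega) hper]
    unfold mn
    rw [← Finset.sum_filter, sum_bij40 hm hco (hA hw) hf, pow_add, div_div, mul_comm]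
  have hsum : mn m (t + i) (fun z => Lo d m r A f z) =
      ∑ w ∈ A, mn m (t + i)
        (fun z => if Hit d m r (sg w) z w then f (pt d m r w z) else 0) / sz d m w := by
    unfold mn Lo
    rw [Finset.sum_congr rfl fun w _ => div_right_comm _ _ _, ← Finset.sum_div]
    congr 1
    have h1 : ∀ w, (∑ c ∈ range (m ^ (t + i)),
        (if Hit d m r (sg w) (c : ℤ) w then f (pt d m r w c) else 0)) / sz d m w =
        ∑ c ∈ range (m ^ (t + i)),
          (if Hit d m r (sg w) (c : ℤ) w then f (pt d m r w c) / sz d m w else 0) := by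
      intro w
      rw [Finset.sum_div]
      refine Finset.sum_congr rfl fun c _ => ?_
      split_ifs
      · rfl
      · exact zero_div _
    rw [Finset.sum_congr rfl fun w _ => h1 w, Finset.sum_comm]
    refine Finset.sum_congr rfl fun c _ => ?_
    exact Finset.sum_filter _ _
  rw [hsum]
  have h2 : ∀ w ∈ A, mn m (t + i)
      (fun z => if Hit d m r (sg w) z w then f (pt d m r w z) else 0) / sz d m w =
      mn m i f / (d : ℝ) ^ t := by
    intro w hw
    rw [hone w hw]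
    unfold sz
    rw [length_of_mem_W (hA hw)]
    field_simp
  rw [Finset.sum_congr rfl h2, Finset.sum_const, nsmul_eq_mul]
  ring

theorem Pe_gg (hm : 1 ≤ m) (j : ℕ) : Pe m j (fun z => gg d m r j z) := by
  have h1 := Pe_Lo (d := d) (r := r) (f := fun _ => (1 : ℝ)) (i := 0) hm
    (Finset.Subset.refl (W d j)) (fun _ _ _ => rfl)
  exact h1

theorem mn_gg (hd : 1 ≤ d) (hm : 1 ≤ m) (hco : Nat.Coprime m d) (j : ℕ) :
    mn m j (fun z => gg d m r j z) = 1 := by
  have h1 := mn_Lo (d := d) (r := r) (f := fun _ => (1 : ℝ)) (i := 0) hd hm hco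
    (Finset.Subset.refl (W d j)) (fun _ _ _ => rfl)
  have hd0 : (0 : ℝ) < d := by exact_mod_cast (by omega : 0 < d)
  have h2 : mn m 0 (fun _ => (1 : ℝ)) = 1 := by
    unfold mn
    simp
  rw [h2, mul_one, card_W, Nat.cast_pow, div_self (by positivity)] at h1
  exact h1

end Pool.Agent.Helper8.POS
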