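import Pool.Agent.Helper8.POS.BdA
import Pool.Agent.Helper8.POS.Mean

/-!
# Block POS-BD: the bounded density (the key point)

For EVERY integer `x`: `Lo A h x ≤ (t + 1) (2 C + 1) * mn i h`.

Proof. `Lo A h x = ∑_{c < m ^ i} h c ∑_{s ≤ t} (m ^ s / d ^ t) #{w ∈ A : sg w = s, m ^ (s + i) ∣ d ^ t x + Off w - m ^ s c}`: for `w` valid at
`x` let `c = pt w x mod m ^ i`, then `h (pt w x) = h c` and `m ^ (s + i) ∣ m ^ s (pt w x - c) = d ^ t x + Off w - m ^ s c`.
For fixed `s` the map `w ↦ Off w` is injective on the words of `W d t` with `sg w = s`: choose `n` with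
`m ^ s n ≡ Off w (mod d ^ t)`, `m ^ s n = d ^ t y + Off w`; then `wd_unique` gives `wd t n = w`. The values are integers in
`[-C d ^ t, C d ^ t]` in one residue class modulo `m ^ (s + i)`: there are at most `2 C d ^ t / m ^ (s + i) + 1` of them
(`Int.Ioc`/`Int.card_...` counting, or the injection into an interval by division by `m ^ (s + i)`).
If there is a `w ∈ A` with `sg w = s` then `m ^ (s + i) ≤ d ^ t` (`hsz`), so
`(m ^ s / d ^ t) (2 C d ^ t / m ^ (s + i) + 1) = m ^ (-i) (2 C + m ^ (s + i) / d ^ t) ≤ m ^ (-i) (2 C + 1)`.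
-/

set_option autoImplicit false

namespace Pool.Agent.Helper8.POS

open Finset Pool.Agent.Helper68.Moeller Pool.Agent.Helper52.Tao Pool.Agent.Helper91.PL

variable {d m : ℕ} {r : ℤ → ℤ} {A : Finset (List ℕ)} {h : ℤ → ℝ}

theorem Lo_le (hd : 2 ≤ d) (hm : 1 ≤ m) (hco : Nat.Coprime m d) (hr : Admissible d m r) {t i : ℕ}
    {C : ℝ} (hC : 0 ≤ C) (hA : A ⊆ W d t)
    (hoff : ∀ w ∈ A, |(Off d m r w : ℝ)| ≤ C * (d : ℝ) ^ t)
    (hsz : ∀ w ∈ A, (m : ℝ) ^ i ≤ sz d m w) (h0 : ∀ z, 0 ≤ h z) (hp : Pe m i h) (x : ℤ) :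
    Lo d m r A h x ≤ ((t : ℝ) + 1) * (2 * C + 1) * mn m i h := by
  classical
  have hm0 : (0 : ℝ) < m := by exact_mod_cast hm
  have hd0 : (0 : ℝ) < d := by exact_mod_cast (by omega : 0 < d)
  have hmi : (0 : ℤ) < (m : ℤ) ^ i := by positivity
  set Av : Finset (List ℕ) := A.filter (fun w => Hit d m r (sg w) x w) with hAv
  set cc : List ℕ → ℕ := fun w => (pt d m r w x % ((m : ℤ) ^ i)).toNat with hcc
  have hccm : ∀ w, ((cc w : ℕ) : ℤ) = pt d m r w x % (m : ℤ) ^ i := fun w =>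
    Int.toNat_of_nonneg (Int.emod_nonneg _ hmi.ne')
  have hccr : ∀ w, cc w ∈ range (m ^ i) := by
    intro w
    rw [Finset.mem_range]
    have h1 := Int.emod_lt_of_pos (pt d m r w x) hmi
    rw [← hccm w] at h1
    exact_mod_cast h1
  have hcd : ∀ w, (m : ℤ) ^ i ∣ pt d m r w x - (cc w : ℤ) := fun w => by
    rw [hccm]
    refine ⟨pt d m r w x / (m : ℤ) ^ i, ?_⟩
    have := Int.emod_add_mul_ediv (pt d m r w x) ((m : ℤ) ^ i)
    linarith
  have hsz' : ∀ w ∈ A, sz d m w = (d : ℝ) ^ t / (m : ℝ) ^ sg w := fun w hw => by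
    unfold sz
    rw [length_of_mem_W (hA hw)]
  have hmaps : ∀ w ∈ Av, (cc w, sg w) ∈ range (m ^ i) ×ˢ range (t + 1) := by
    intro w hw
    rw [Finset.mem_product, Finset.mem_range (n := t + 1)]
    refine ⟨hccr w, ?_⟩
    have h1 := sg_le_length w
    rw [length_of_mem_W (hA (Finset.mem_filter.1 hw).1)] at h1
    show sg w < t + 1
    omega
  have hinner : ∀ y ∈ range (m ^ i) ×ˢ range (t + 1),
      ∑ w ∈ Av with (cc w, sg w) = y, h (pt d m r w x) / sz d m w ≤
        h ((y.1 : ℕ) : ℤ) * ((2 * C + 1) / (m : ℝ) ^ i) := by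
    rintro ⟨c, s⟩ -
    set B : Finset (List ℕ) := Av.filter (fun w => (cc w, sg w) = (c, s)) with hB
    have hBA : ∀ w ∈ B, w ∈ A ∧ Hit d m r (sg w) x w ∧ cc w = c ∧ sg w = s := by
      intro w hw
      rw [hB, Finset.mem_filter, hAv, Finset.mem_filter, Prod.mk.injEq] at hw
      exact ⟨hw.1.1, hw.1.2, hw.2.1, hw.2.2⟩
    have h1 : ∑ w ∈ B, h (pt d m r w x) / sz d m w =
        h ((c : ℕ) : ℤ) * ((m : ℝ) ^ s / (d : ℝ) ^ t * B.card) := by
      have h2 : ∀ w ∈ B, h (pt d m r w x) / sz d m w =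
          h ((c : ℕ) : ℤ) * ((m : ℝ) ^ s / (d : ℝ) ^ t) := by
        intro w hw
        obtain ⟨a1, a2, a3, a4⟩ := hBA w hw
        have a5 := hcd w
        rw [a3] at a5
        rw [hp _ _ a5, hsz' w a1, a4, div_div_eq_mul_div, mul_div_assoc]
      rw [Finset.sum_congr rfl h2, Finset.sum_const, nsmul_eq_mul]
      ring
    change ∑ w ∈ B, h (pt d m r w x) / sz d m w ≤ _
    rw [h1]
    refine mul_le_mul_of_nonneg_left ?_ (h0 _)
    rcases Finset.eq_empty_or_nonempty B with hBe | ⟨w₀, hw₀⟩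
    · rw [hBe, Finset.card_empty, Nat.cast_zero, mul_zero]
      positivity
    obtain ⟨b1, b2, b3, b4⟩ := hBA w₀ hw₀
    have hsz₀ := hsz w₀ b1
    rw [hsz' w₀ b1, b4, le_div_iff₀ (by positivity)] at hsz₀
    have hinj : Set.InjOn (Off d m r) (B : Set (List ℕ)) := by
      intro u hu w hw ho
      obtain ⟨u1, -, -, u4⟩ := hBA u hu
      obtain ⟨w1, -, -, w4⟩ := hBA w hw
      exact Off_inj hd hco hr (hA u1) (hA w1) (u4.trans w4.symm) ho
    have hcard : (B.image (Off d m r)).card = B.card := Finset.card_image_of_injOn hinj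
    have hMpos : 1 ≤ m ^ (s + i) := Nat.one_le_pow _ _ hm
    have h3 : ((B.image (Off d m r)).card : ℝ) ≤ 2 * (C * (d : ℝ) ^ t) / (m ^ (s + i) : ℕ) + 1 := by
      refine card_class_le _ hMpos (by positivity) ?_ ?_
      · intro z hz
        obtain ⟨w, hw, rfl⟩ := Finset.mem_image.1 hz
        exact hoff w (hBA w hw).1
      · intro z hz z' hz'
        obtain ⟨w, hw, rfl⟩ := Finset.mem_image.1 hz
        obtain ⟨w', hw', rfl⟩ := Finset.mem_image.1 hz'
        obtain ⟨a1, a2, a3, a4⟩ := hBA w hw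
        obtain ⟨c1, c2, c3, c4⟩ := hBA w' hw'
        have e1 := pt_spec (d := d) (m := m) (r := r) hm a2
        have e2 := pt_spec (d := d) (m := m) (r := r) hm c2
        rw [length_of_mem_W (hA a1), a4] at e1
        rw [length_of_mem_W (hA c1), c4] at e2
        have e3 := hcd w
        have e4 := hcd w'
        rw [a3] at e3
        rw [c3] at e4
        have e5 : (m : ℤ) ^ i ∣ pt d m r w x - pt d m r w' x := by
          have := _root_.dvd_sub e3 e4
          rwa [sub_sub_sub_cancel_right] at this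
        have e6 : Off d m r w - Off d m r w' =
            (m : ℤ) ^ s * (pt d m r w x - pt d m r w' x) := by
          rw [mul_sub, e1, e2]
          ring
        rw [e6]
        push_cast
        rw [pow_add]
        exact mul_dvd_mul_left _ e5
    rw [hcard] at h3
    push_cast at h3
    have hms : (0 : ℝ) < (m : ℝ) ^ s := by positivity
    have hmi' : (0 : ℝ) < (m : ℝ) ^ i := by positivity
    have hdt : (0 : ℝ) < (d : ℝ) ^ t := by positivity
    calc (m : ℝ) ^ s / (d : ℝ) ^ t * (B.card : ℝ)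
        ≤ (m : ℝ) ^ s / (d : ℝ) ^ t * (2 * (C * (d : ℝ) ^ t) / (m : ℝ) ^ (s + i) + 1) :=
          mul_le_mul_of_nonneg_left h3 (by positivity)
      _ = 2 * C / (m : ℝ) ^ i + (m : ℝ) ^ s / (d : ℝ) ^ t := by
          rw [pow_add]
          field_simp
      _ ≤ 2 * C / (m : ℝ) ^ i + 1 / (m : ℝ) ^ i := by
          have h4 : (m : ℝ) ^ s / (d : ℝ) ^ t ≤ 1 / (m : ℝ) ^ i := by
            rw [div_le_div_iff₀ hdt hmi', one_mul, mul_comm]
            exact hsz₀
          linarith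
      _ = (2 * C + 1) / (m : ℝ) ^ i := by rw [← add_div]
  have hLo : Lo d m r A h x = ∑ y ∈ range (m ^ i) ×ˢ range (t + 1),
      ∑ w ∈ Av with (cc w, sg w) = y, h (pt d m r w x) / sz d m w := by
    rw [Finset.sum_fiberwise_of_maps_to hmaps]
    rfl
  rw [hLo]
  refine (Finset.sum_le_sum hinner).trans (le_of_eq ?_)
  rw [Finset.sum_product]
  simp only [Finset.sum_const, Finset.card_range, nsmul_eq_mul]
  unfold mn
  rw [← Finset.mul_sum, ← Finset.sum_mul]
  push_cast
  ring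

end Pool.Agent.Helper8.POS
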