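import Pool.Agent.Helper8.POS.Typ
import Pool.Agent.Helper91.PL.P3

/-!
# Block POS-COUNT: from the mass to the number of predecessors

Let `C` be the constant of `Off_le`, `|rr r a| ≤ B`.
* For `u ∈ W d (t + n)`, `n ≤ t / Q`, `u.take t ∈ Ty t`, and every `l ≤ t + n`: `|Off (u.take l)| ≤ (C + 1) d ^ l` for `t ≥ t1`: for `l ≤ t` by
  `Off_le` (the prefixes of `u.take l` are prefixes of `u.take t`); for `l = t + l'` by `Off_append`
  `|Off| ≤ m ^ sg (u.take t) |Off v| + d ^ l' C d ^ t` with `v` of length `l'`, `|Off v| ≤ B m ^ l'` (`abs_Off_le`),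
  `m ^ sg (u.take t) = d ^ t / sz ≤ d ^ t exp (-(255/256) gam t)`, and `B m ^ (t / Q) exp (-(255/256) gam t) ≤ 1` for large `t`.
* `M * sz (u.take l) ≥ 1` for all `l ≤ t + n`: for `l ≤ t` by the definition of `Ty`; for `l = t + l'` by
  `sz (u.take t) ≥ exp ((255/256) gam t)`, `sz v ≥ m ^ (-l')`, `l' log m ≤ t log m / Q ≤ gam t / 16`.
* For `u ∈ Big t R` valid at `x` and `n = pt u x`: `T^[|u| - l] n = pt (u.take l) x` (`pt_append`, `pt_iter`), which is
  `sz (u.take l) (x + Off (u.take l) / d ^ l) ≥ (x - C - 1) / M ≥ x / (2 M)` if `x ≥ 2 (C + 1)`; and `n ≤ d R * 2 x`, `n > 0`.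
* `u ↦ pt u x` is injective on the valid words of `Big t R`: for the same length by `pt_iter` (`wd` of the point is the word), for different
  lengths `x` would be periodic (`T^[i] n = x = T^[j] n`, `i < j`, so `T^[j - i] x = x`).
* `Lo (Big) 1 x = ∑ 1 / sz u ≤ #(valid words) / R`.
-/

set_option autoImplicit false

namespace Pool.Agent.Helper8.POS

open Finset Pool.Agent.Helper68.Moeller Pool.Agent.Helper52.Tao Pool.Agent.Helper91.PL

variable {d m Q : ℕ} {r : ℤ → ℤ} {M : ℝ}

private theorem hQ_facts_cb (hO : Ok d m r Q) : 0 < Real.log m ∧ (16 : ℝ) ≤ Q ∧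
    Real.log m ≤ gam d m / 16 * Q ∧ Real.log m / (Q : ℝ) ^ 2 ≤ gam d m / 256 := by
  have hg := hO.hg
  have hd := hO.hd
  have hdm := hO.hdm
  have hlog : 0 < Real.log m := Real.log_pos (by exact_mod_cast (by omega : 1 < m))
  have hQ := hO.hQ
  have h1 : 0 ≤ 16 * Real.log m / gam d m := by positivity
  have h16 : (16 : ℝ) ≤ Q := by linarith
  have h2 : 16 * Real.log m / gam d m ≤ Q := by linarith
  rw [div_le_iff₀ hg] at h2
  have h3 : Real.log m ≤ gam d m / 16 * Q := by linarith
  refine ⟨hlog, h16, h3, ?_⟩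
  rw [div_le_iff₀ (by positivity)]
  have h4 : gam d m / 16 * Q ≤ gam d m / 256 * (Q : ℝ) ^ 2 := by
    have h5 : gam d m / 256 * (Q : ℝ) ^ 2 = gam d m / 16 * Q * (Q / 16) := by ring
    rw [h5]
    have h6 : (1 : ℝ) ≤ Q / 16 := by linarith
    exact le_mul_of_one_le_right (by positivity) h6
  linarith

private theorem sz_ge_cb (hd : 1 ≤ d) (hm : 1 ≤ m) {l : ℕ} {v : List ℕ} (hv : v.length = l) :
    1 / (m : ℝ) ^ l ≤ sz d m v := by
  have hd0 : (1 : ℝ) ≤ d := by exact_mod_cast hd
  have hm0 : (1 : ℝ) ≤ m := by exact_mod_cast hm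
  unfold sz
  have h1 : sg v ≤ l := by rw [← hv]; exact sg_le_length v
  exact div_le_div₀ (by positivity) (one_le_pow₀ hd0) (by positivity) (pow_le_pow_right₀ hm0 h1)

private theorem take_mem_W_cb {N l : ℕ} {u : List ℕ} (hu : u ∈ W d N) (hl : l ≤ N) :
    u.take l ∈ W d l := by
  rw [mem_W] at hu ⊢
  refine ⟨by rw [List.length_take, hu.1]; omega, fun a ha => hu.2 a (List.mem_of_mem_take ha)⟩

private theorem drop_mem_W_cb {N l : ℕ} {u : List ℕ} (hu : u ∈ W d N) :
    u.drop l ∈ W d (N - l) := by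
  rw [mem_W] at hu ⊢
  refine ⟨by rw [List.length_drop, hu.1], fun a ha => hu.2 a (List.mem_of_mem_drop ha)⟩

private theorem pre_facts_cb (hO : Ok d m r Q) (hM : 1 ≤ M) : ∃ C : ℝ, 0 < C ∧ ∃ t1 : ℕ,
    ∀ t : ℕ, t1 ≤ t → ∀ n : ℕ, Q * n ≤ t → ∀ u ∈ W d (t + n), u.take t ∈ Ty d m Q M t →
      ∀ l ≤ t + n, |(Off d m r (u.take l) : ℝ)| ≤ C * (d : ℝ) ^ l ∧ 1 ≤ M * sz d m (u.take l) := by
  classical
  obtain ⟨hlog, h16, hlQ, hlQ2⟩ := hQ_facts_cb hO
  have hg := hO.hg
  have hd1 : 1 ≤ d := le_trans (by norm_num) hO.hd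
  have hm1 : 1 ≤ m := le_trans hd1 hO.hdm.le
  have hd0 : (1 : ℝ) ≤ d := by exact_mod_cast hd1
  have hm0 : (0 : ℝ) < m := by exact_mod_cast hm1
  obtain ⟨C, hC, hOff⟩ := Off_le hO hM
  obtain ⟨B, hB⟩ := P3Aux.exists_B0 d r
  -- the threshold
  obtain ⟨t1, ht1⟩ : ∃ t1 : ℕ, ∀ t : ℕ, t1 ≤ t → (B : ℝ) * Real.exp (-(gam d m / 2 * t)) ≤ 1 := by
    obtain ⟨t1, ht1⟩ := exists_nat_ge (2 * B / gam d m)
    refine ⟨t1, fun t ht => ?_⟩
    have h1 : 2 * (B : ℝ) / gam d m ≤ t := ht1.trans (by exact_mod_cast ht)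
    rw [div_le_iff₀ hg] at h1
    have h2 : (B : ℝ) ≤ Real.exp (gam d m / 2 * t) := by
      have h3 := Real.add_one_le_exp (gam d m / 2 * t)
      have h4 : gam d m / 2 * t = t * gam d m / 2 := by ring
      rw [h4] at h3 ⊢
      linarith
    rw [Real.exp_neg]
    rw [mul_inv_le_iff₀ (Real.exp_pos _), one_mul]
    exact h2
  refine ⟨C + 1, by positivity, t1, fun t ht n hn u hu hty l hl => ?_⟩
  unfold Ty at hty
  rw [Finset.mem_filter] at hty
  obtain ⟨hgd, hpre⟩ := hty
  rcases le_or_gt l t with hlt | hlt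
  · -- a prefix of the typical word
    have htk : u.take l = (u.take t).take l := by rw [List.take_take, min_eq_left hlt]
    have hW : u.take l ∈ W d l := take_mem_W_cb hu hl
    constructor
    · have h1 := hOff l (u.take l) hW (fun i hi => by
        have h2 := hpre i (hi.trans hlt)
        have h3 : (u.take l).take i = (u.take t).take i := by
          rw [List.take_take, List.take_take, min_eq_left hi, min_eq_left (hi.trans hlt)]
        rw [h3]
        exact h2)
      refine h1.trans ?_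
      have : (0 : ℝ) ≤ (d : ℝ) ^ l := by positivity
      nlinarith
    · have h2 := hpre l hlt
      rw [← htk] at h2
      refine le_trans ?_ h2
      rw [Real.one_le_exp_iff]
      positivity
  · obtain ⟨l', rfl⟩ : ∃ l', l = t + l' := ⟨l - t, by omega⟩
    have hl'n : l' ≤ n := by omega
    set a := u.take t with ha
    set v := (u.drop t).take l' with hv
    have hsplit : u.take (t + l') = a ++ v := by
      rw [ha, hv, List.take_add]
    have haW : a ∈ W d t := take_mem_W_cb hu (by omega)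
    have hdW : u.drop t ∈ W d n := by
      have := drop_mem_W_cb (l := t) hu
      rwa [Nat.add_sub_cancel_left] at this
    have hvW : v ∈ W d l' := take_mem_W_cb hdW hl'n
    have hsa := (Gd_sz hO hgd).1
    have hoa : |(Off d m r a : ℝ)| ≤ C * (d : ℝ) ^ t := hOff t a haW hpre
    have hov : |(Off d m r v : ℝ)| ≤ B * (m : ℝ) ^ l' := by
      have := abs_Off_le hO.hd hO.hdm hB hvW
      exact_mod_cast this
    have hml : (m : ℝ) ^ l' ≤ Real.exp (gam d m / 16 * t) := by
      have h1 : (m : ℝ) ^ l' = Real.exp (l' * Real.log m) := by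
        rw [mul_comm, Real.exp_mul, Real.exp_log hm0, Real.rpow_natCast]
      rw [h1]
      apply Real.exp_le_exp.2
      have h2 : (Q : ℝ) * l' ≤ t := by
        have : Q * l' ≤ t := (Nat.mul_le_mul_left Q hl'n).trans hn
        exact_mod_cast this
      have h3 : (l' : ℝ) * Real.log m ≤ l' * (gam d m / 16 * Q) :=
        mul_le_mul_of_nonneg_left hlQ (by positivity)
      have h4 : (l' : ℝ) * (gam d m / 16 * Q) = gam d m / 16 * (Q * l') := by ring
      rw [h4] at h3
      exact h3.trans (mul_le_mul_of_nonneg_left h2 (by positivity))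
    have hsa' : Real.exp (255 / 256 * gam d m * t) ≤ sz d m a := by
      refine le_trans (Real.exp_le_exp.2 ?_) hsa
      have : (0 : ℝ) ≤ t := by positivity
      have h5 : 255 / 256 * gam d m ≤ gam d m - Real.log m / (Q : ℝ) ^ 2 := by linarith
      exact mul_le_mul_of_nonneg_right h5 this
    have hsapos : 0 < sz d m a := sz_pos hd1 hm1 a
    have hmsa : (m : ℝ) ^ sg a = (d : ℝ) ^ t / sz d m a := by
      unfold sz
      rw [length_of_mem_W haW]
      field_simp
    rw [hsplit]
    constructor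
    · have h1 : (Off d m r (a ++ v) : ℝ) = (m : ℝ) ^ sg a * Off d m r v + (d : ℝ) ^ l' * Off d m r a := by
        rw [Off_append, length_of_mem_W hvW]
        push_cast
        ring
      rw [h1]
      have h2 : |(m : ℝ) ^ sg a * (Off d m r v : ℝ)| ≤ (d : ℝ) ^ t := by
        rw [abs_mul, abs_of_pos (by positivity : (0 : ℝ) < (m : ℝ) ^ sg a), hmsa]
        have h3 : (d : ℝ) ^ t / sz d m a ≤ (d : ℝ) ^ t * Real.exp (-(255 / 256 * gam d m * t)) := by
          rw [Real.exp_neg, ← div_eq_mul_inv]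
          exact div_le_div_of_nonneg_left (by positivity) (Real.exp_pos _) hsa'
        have h4 : |(Off d m r v : ℝ)| ≤ B * Real.exp (gam d m / 16 * t) :=
          hov.trans (mul_le_mul_of_nonneg_left hml (by positivity))
        calc (d : ℝ) ^ t / sz d m a * |(Off d m r v : ℝ)|
            ≤ ((d : ℝ) ^ t * Real.exp (-(255 / 256 * gam d m * t))) *
                (B * Real.exp (gam d m / 16 * t)) :=
              mul_le_mul h3 h4 (abs_nonneg _) (by positivity)
          _ = (d : ℝ) ^ t * (B * (Real.exp (-(255 / 256 * gam d m * t)) *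
                Real.exp (gam d m / 16 * t))) := by ring
          _ ≤ (d : ℝ) ^ t * (B * Real.exp (-(gam d m / 2 * t))) := by
              rw [← Real.exp_add]
              have h5 : -(255 / 256 * gam d m * (t : ℝ)) + gam d m / 16 * t ≤ -(gam d m / 2 * t) := by
                have : 0 ≤ gam d m * (t : ℝ) := by positivity
                nlinarith
              have h6 := Real.exp_le_exp.2 h5
              gcongr
          _ ≤ (d : ℝ) ^ t * 1 := mul_le_mul_of_nonneg_left (ht1 t ht) (by positivity)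
          _ = (d : ℝ) ^ t := mul_one _
      have h3 : |(d : ℝ) ^ l' * (Off d m r a : ℝ)| ≤ C * (d : ℝ) ^ (t + l') := by
        rw [abs_mul, abs_of_pos (by positivity : (0 : ℝ) < (d : ℝ) ^ l'), pow_add]
        calc (d : ℝ) ^ l' * |(Off d m r a : ℝ)| ≤ (d : ℝ) ^ l' * (C * (d : ℝ) ^ t) :=
              mul_le_mul_of_nonneg_left hoa (by positivity)
          _ = _ := by ring
      have h4 : (d : ℝ) ^ t ≤ (d : ℝ) ^ (t + l') := pow_le_pow_right₀ hd0 (by omega)
      calc _ ≤ |(m : ℝ) ^ sg a * (Off d m r v : ℝ)| + |(d : ℝ) ^ l' * (Off d m r a : ℝ)| :=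
            abs_add_le _ _
        _ ≤ (C + 1) * (d : ℝ) ^ (t + l') := by linarith
    · rw [sz_append hm1]
      have h1 := sz_ge_cb hd1 hm1 (length_of_mem_W hvW)
      have h2 : 1 ≤ sz d m a * sz d m v := by
        calc (1 : ℝ) ≤ Real.exp (255 / 256 * gam d m * t) * (1 / Real.exp (gam d m / 16 * t)) := by
              rw [one_div, ← Real.exp_neg, ← Real.exp_add, Real.one_le_exp_iff]
              have : 0 ≤ gam d m * (t : ℝ) := by positivity
              nlinarith
          _ ≤ sz d m a * (1 / (m : ℝ) ^ l') := by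
              gcongr
          _ ≤ _ := mul_le_mul_of_nonneg_left h1 hsapos.le
      calc (1 : ℝ) ≤ 1 * (sz d m a * sz d m v) := by linarith
        _ ≤ M * (sz d m a * sz d m v) := mul_le_mul_of_nonneg_right hM (by linarith)

/-- the point `pt w x` is about `sz w * x` -/
private theorem pt_eq_cb (hd : 1 ≤ d) (hm : 1 ≤ m) {w : List ℕ} {x : ℤ} (h : Hit d m r (sg w) x w) :
    (pt d m r w x : ℝ) = sz d m w * (x + (Off d m r w : ℝ) / (d : ℝ) ^ w.length) := by
  have h1 := pt_spec (d := d) (m := m) (r := r) hm h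
  have h2 : (m : ℝ) ^ sg w * (pt d m r w x : ℝ) = (d : ℝ) ^ w.length * x + (Off d m r w : ℝ) := by
    exact_mod_cast h1
  have hm0 : (0 : ℝ) < m := by exact_mod_cast hm
  have hd0 : (0 : ℝ) < d := by exact_mod_cast hd
  unfold sz
  have h3 : (pt d m r w x : ℝ) = ((d : ℝ) ^ w.length * x + (Off d m r w : ℝ)) / (m : ℝ) ^ sg w := by
    rw [← h2]
    field_simp
  rw [h3]
  field_simp

theorem count_big (hO : Ok d m r Q) (hM : 1 ≤ M) : ∃ X0 : ℤ, 1 ≤ X0 ∧ ∃ t1 : ℕ,
    ∀ t : ℕ, t1 ≤ t → ∀ x : ℤ, X0 ≤ x → ¬ Per d m r x → ∀ R : ℝ, 1 ≤ R →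
      R * Lo d m r (Big d m Q M t R) (fun _ => 1) x ≤
        ((Pth d m r (x / (2 * M)) x (2 * d * R * x)).ncard : ℝ) := by
  classical
  have hd1 : 1 ≤ d := le_trans (by norm_num) hO.hd
  have hm1 : 1 ≤ m := le_trans hd1 hO.hdm.le
  have hd0 : (1 : ℝ) ≤ d := by exact_mod_cast hd1
  have hm0 : (0 : ℝ) < m := by exact_mod_cast hm1
  obtain ⟨C, hC, t1, hfacts⟩ := pre_facts_cb hO hM
  refine ⟨⌈2 * C⌉ + 1, by have : 0 ≤ ⌈2 * C⌉ := Int.ceil_nonneg (by positivity)
                          omega, t1, fun t ht x hx hper R hR => ?_⟩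
  have hxC : 2 * C ≤ x := by
    have h1 := Int.le_ceil (2 * C)
    have h2 : ((⌈2 * C⌉ : ℤ) : ℝ) + 1 ≤ x := by exact_mod_cast hx
    linarith
  have hx0 : (0 : ℝ) < x := by linarith
  set V := (Big d m Q M t R).filter (fun w => Hit d m r (sg w) x w) with hV
  -- the words
  have hmem : ∀ w ∈ V, ∃ n : ℕ, Q * n ≤ t ∧ w ∈ W d (t + n) ∧ w.take t ∈ Ty d m Q M t ∧
      R < sz d m w ∧ sz d m w ≤ d * R ∧ Hit d m r (sg w) x w := by
    intro w hw
    rw [hV, Finset.mem_filter] at hw
    obtain ⟨hw1, hw2⟩ := hw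
    unfold Big at hw1
    rw [Finset.mem_biUnion] at hw1
    obtain ⟨n, hn, hw3⟩ := hw1
    rw [Finset.mem_filter] at hw3
    obtain ⟨h1, h2, h3, h4⟩ := hw3
    refine ⟨n, ?_, h1, h2, h3, h4, hw2⟩
    have h5 : n ≤ t / Q := Nat.lt_succ_iff.1 (Finset.mem_range.1 hn)
    exact (Nat.mul_le_mul_left Q h5).trans (Nat.mul_div_le t Q)
  have hcard : R * Lo d m r (Big d m Q M t R) (fun _ => 1) x ≤ V.card := by
    unfold Lo
    rw [Finset.mul_sum]
    have h1 : ∀ w ∈ V, R * (1 / sz d m w) ≤ 1 := by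
      intro w hw
      obtain ⟨_, _, _, _, h1, _, _⟩ := hmem w hw
      have h2 : 0 < sz d m w := sz_pos hd1 hm1 w
      rw [mul_one_div, div_le_one h2]
      exact h1.le
    refine le_trans (le_of_eq ?_) ((Finset.sum_le_card_nsmul V _ 1 h1).trans (by simp))
    exact Finset.sum_congr (by rw [hV]) fun _ _ => rfl
  refine hcard.trans ?_
  -- the points
  have hpts : ∀ w ∈ V, ∀ N : ℕ, w ∈ W d N → wd d m r N (pt d m r w x) = w ∧
      (T d m r)^[N] (pt d m r w x) = x := by
    intro w hw N hN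
    obtain ⟨_, _, _, _, _, _, h1⟩ := hmem w hw
    exact pt_iter hO.hd hO.hdm hO.hco hO.hr hN h1
  have hPth : ∀ w ∈ V, pt d m r w x ∈ Pth d m r (x / (2 * M)) x (2 * d * R * x) := by
    intro w hw
    obtain ⟨n, hn, hwW, hty, hR1, hR2, hhit⟩ := hmem w hw
    have hf := hfacts t ht n hn w hwW hty
    have hlow : ∀ i ≤ t + n, (x : ℝ) / (2 * M) ≤ ((T d m r)^[i] (pt d m r w x) : ℝ) := by
      intro i hi
      set l := t + n - i with hl
      have hln : l ≤ t + n := by omega
      have hsplit : w = w.take l ++ w.drop l := (List.take_append_drop l w).symm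
      have hhit' : Hit d m r (sg (w.take l ++ w.drop l)) x (w.take l ++ w.drop l) := by
        rw [← hsplit]; exact hhit
      obtain ⟨hh1, hh2⟩ := (hit_append hm1 hO.hco x (w.take l) (w.drop l)).1 hhit'
      have hpa : pt d m r w x = pt d m r (w.drop l) (pt d m r (w.take l) x) := by
        conv_lhs => rw [hsplit]
        exact pt_append hm1 hh1 hh2
      have hdW : w.drop l ∈ W d i := by
        have h1 := drop_mem_W_cb (l := l) hwW
        have h2 : t + n - l = i := by omega
        rwa [h2] at h1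
      have hit2 := (pt_iter hO.hd hO.hdm hO.hco hO.hr hdW hh2).2
      rw [hpa, hit2, pt_eq_cb hd1 hm1 hh1, length_of_mem_W (take_mem_W_cb hwW hln)]
      obtain ⟨h1, h2⟩ := hf l hln
      have hdl : (0 : ℝ) < (d : ℝ) ^ l := by positivity
      have h3 : -C ≤ (Off d m r (w.take l) : ℝ) / (d : ℝ) ^ l := by
        rw [le_div_iff₀ hdl]
        have := neg_abs_le (Off d m r (w.take l) : ℝ)
        linarith
      have h4 : (x : ℝ) / 2 ≤ x + (Off d m r (w.take l) : ℝ) / (d : ℝ) ^ l := by linarith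
      have hM0 : 0 < M := by linarith
      calc (x : ℝ) / (2 * M) = 1 / M * (x / 2) := by field_simp
        _ ≤ sz d m (w.take l) * (x + (Off d m r (w.take l) : ℝ) / (d : ℝ) ^ l) := by
            refine mul_le_mul ?_ h4 (by positivity) (sz_pos hd1 hm1 _).le
            rw [div_le_iff₀ hM0, mul_comm]
            exact h2
    refine ⟨⟨t + n, (hpts w hw _ hwW).2, hlow⟩, ?_, ?_⟩
    · have h1 := hlow 0 (Nat.zero_le _)
      rw [Function.iterate_zero, id_eq] at h1
      have h2 : (0 : ℝ) < (x : ℝ) / (2 * M) := by positivity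
      have h3 : (0 : ℝ) < (pt d m r w x : ℝ) := lt_of_lt_of_le h2 h1
      exact_mod_cast h3
    · rw [pt_eq_cb hd1 hm1 hhit, length_of_mem_W hwW]
      have h1 := (hf (t + n) le_rfl).1
      rw [List.take_of_length_le (le_of_eq (length_of_mem_W hwW))] at h1
      have hdl : (0 : ℝ) < (d : ℝ) ^ (t + n) := by positivity
      have h3 : (Off d m r w : ℝ) / (d : ℝ) ^ (t + n) ≤ C := by
        rw [div_le_iff₀ hdl]
        exact (le_abs_self _).trans h1
      have h3' : -C ≤ (Off d m r w : ℝ) / (d : ℝ) ^ (t + n) := by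
        rw [le_div_iff₀ hdl]
        have := neg_abs_le (Off d m r w : ℝ)
        linarith
      calc sz d m w * (x + (Off d m r w : ℝ) / (d : ℝ) ^ (t + n)) ≤ (d * R) * (2 * x) :=
            mul_le_mul hR2 (by linarith) (by linarith) (by positivity)
        _ = 2 * d * R * x := by ring
  have hinj : Set.InjOn (fun w => pt d m r w x) (V : Set (List ℕ)) := by
    intro u hu w hw huw
    have huw' : pt d m r u x = pt d m r w x := huw
    obtain ⟨n, _, huW, _, _, _, _⟩ := hmem u hu
    obtain ⟨n', _, hwW, _, _, _, _⟩ := hmem w hw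
    obtain ⟨h1, h2⟩ := hpts u hu _ huW
    obtain ⟨h3, h4⟩ := hpts w hw _ hwW
    have key : ∀ a b : ℕ, a < b → (T d m r)^[a] (pt d m r u x) = x →
        (T d m r)^[b] (pt d m r u x) = x → False := by
      intro a b hab ha hb
      apply hper
      refine ⟨b - a, by omega, ?_⟩
      have h5 : (T d m r)^[b] (pt d m r u x) = (T d m r)^[b - a] ((T d m r)^[a] (pt d m r u x)) := by
        rw [← Function.iterate_add_apply]
        congr 2
        omega
      rw [ha, hb] at h5
      exact h5.symm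
    rw [← huw'] at h3 h4
    rcases lt_trichotomy (t + n) (t + n') with hlt | heq | hgt
    · exact (key _ _ hlt h2 h4).elim
    · rw [← h1, ← h3, heq]
    · exact (key _ _ hgt h4 h2).elim
  have hfin : (Pth d m r (x / (2 * M)) x (2 * d * R * x)).Finite := by
    refine Set.Finite.subset (Set.finite_Icc (0 : ℤ) ⌈2 * d * R * (x : ℝ)⌉) ?_
    rintro n ⟨_, hn1, hn2⟩
    refine ⟨hn1.le, ?_⟩
    have h1 := hn2.trans (Int.le_ceil _)
    exact_mod_cast h1
  have himg : ((V.image (fun w => pt d m r w x) : Finset ℤ) : Set ℤ) ⊆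
      Pth d m r (x / (2 * M)) x (2 * d * R * x) := by
    intro n hn
    rw [Finset.coe_image] at hn
    obtain ⟨w, hw, rfl⟩ := hn
    exact hPth w hw
  have h1 := Set.ncard_le_ncard himg hfin
  rw [Set.ncard_coe_finset, Finset.card_image_of_injOn hinj] at h1
  exact_mod_cast h1

end Pool.Agent.Helper8.POS
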