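import Pool.Agent.Helper8.POS.Defs

/-!
# Block POS-DEV: large deviations of the number of non-zero digits

`∑_{w ∈ W d t} exp (s sg w) = (1 + (d - 1) exp s) ^ t` (`sum_pow_sg`, Helper52/Tao/A1.lean), `p = 1 - 1 / d`:
`(1 + (d - 1) exp s) / d = 1 + p (exp s - 1) ≤ exp (p s + s ^ 2)` for `|s| ≤ 1` (`exp s - 1 ≤ s + s ^ 2`). So by Markov
(`cW_le_sum`), with `s = ± δ / 2` (if `δ ≤ 2`; otherwise the set is empty as `0 ≤ sg w ≤ t`, or use `min δ 1`),
the proportion of the words with `|sg w - p t| > δ t` is `≤ 2 exp (-δ ^ 2 t / 4)`. The upper tail is also `chernoff` there.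
For `pow_le`: `exp (-c t) ≤ C / t ^ n`.
-/

set_option autoImplicit false

namespace Pool.Agent.Helper8.POS

open Finset Pool.Agent.Helper68.Moeller Pool.Agent.Helper52.Tao Pool.Agent.Helper91.PL

variable {d : ℕ}

/-- The exponential moments. -/
private theorem mgf_h12 (hd : 2 ≤ d) (t : ℕ) {s : ℝ} (hs : |s| ≤ 1) :
    ∑ w ∈ W d t, Real.exp (s * ((sg w : ℝ) - (1 - 1 / (d : ℝ)) * t)) ≤
      Real.exp (s ^ 2 * t) * (d : ℝ) ^ t := by
  have hd' : (2 : ℝ) ≤ d := by exact_mod_cast hd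
  have hd0 : (0 : ℝ) < d := by linarith
  set p : ℝ := 1 - 1 / (d : ℝ) with hp
  have hp0 : 0 ≤ p := by
    have : 1 / (d : ℝ) ≤ 1 / 2 := one_div_le_one_div_of_le (by norm_num) hd'
    linarith
  have hp1 : p ≤ 1 := by
    have : 0 ≤ 1 / (d : ℝ) := by positivity
    linarith
  have hpd : (d : ℝ) * p = d - 1 := by rw [hp]; field_simp
  have h1 : ∀ w ∈ W d t, Real.exp (s * ((sg w : ℝ) - p * t)) =
      Real.exp (-(s * p * t)) * (Real.exp s) ^ sg w := by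
    intro w _
    rw [← Real.exp_nat_mul, ← Real.exp_add]
    congr 1
    ring
  rw [Finset.sum_congr rfl h1, ← Finset.mul_sum, sum_pow_sg d t _ (by omega)]
  have h2 : 1 + ((d : ℝ) - 1) * Real.exp s = d * (1 + p * (Real.exp s - 1)) := by
    rw [← hpd, mul_add, mul_one, ← mul_assoc, hpd]
    ring
  have hexp : Real.exp s - 1 ≤ s + s ^ 2 := by
    have h := Real.abs_exp_sub_one_sub_id_le (x := s) hs
    have := (abs_le.1 h).2
    linarith
  have h3 : 1 + p * (Real.exp s - 1) ≤ Real.exp (p * s + s ^ 2) := by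
    have h4 := Real.add_one_le_exp (p * s + s ^ 2)
    have h5 : p * (Real.exp s - 1) ≤ p * (s + s ^ 2) := mul_le_mul_of_nonneg_left hexp hp0
    have h6 : p * s ^ 2 ≤ 1 * s ^ 2 := mul_le_mul_of_nonneg_right hp1 (sq_nonneg s)
    nlinarith
  have h3' : 0 ≤ 1 + p * (Real.exp s - 1) := by
    have h4 := Real.exp_pos s
    nlinarith
  have h4 : (1 + p * (Real.exp s - 1)) ^ t ≤ Real.exp ((p * s + s ^ 2) * t) := by
    refine (pow_le_pow_left₀ h3' h3 t).trans (le_of_eq ?_)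
    rw [← Real.exp_nat_mul]
    congr 1
    ring
  rw [h2, mul_pow]
  calc Real.exp (-(s * p * t)) * ((d : ℝ) ^ t * (1 + p * (Real.exp s - 1)) ^ t)
      ≤ Real.exp (-(s * p * t)) * ((d : ℝ) ^ t * Real.exp ((p * s + s ^ 2) * t)) := by
        gcongr
    _ = (Real.exp (-(s * p * t)) * Real.exp ((p * s + s ^ 2) * t)) * (d : ℝ) ^ t := by ring
    _ = Real.exp (s ^ 2 * t) * (d : ℝ) ^ t := by
        rw [← Real.exp_add]
        congr 2
        ring

theorem dev_exp (hd : 2 ≤ d) {δ : ℝ} (hδ : 0 < δ) : ∃ c : ℝ, 0 < c ∧ ∀ t : ℕ,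
    cW d t (fun w => δ * t < |(sg w : ℝ) - (1 - 1 / (d : ℝ)) * t|) ≤
      2 * Real.exp (-(c * t)) * (d : ℝ) ^ t := by
  obtain ⟨s, hs0, hs1, hs2⟩ : ∃ s : ℝ, 0 < s ∧ s ≤ 1 ∧ s ≤ δ / 2 :=
    ⟨min 1 (δ / 2), lt_min one_pos (by linarith), min_le_left _ _, min_le_right _ _⟩
  refine ⟨s * δ - s ^ 2, by nlinarith, fun t => ?_⟩
  have h1 : cW d t (fun w => δ * t < |(sg w : ℝ) - (1 - 1 / (d : ℝ)) * t|) ≤
      ∑ w ∈ W d t, (Real.exp (-(s * δ * t)) * Real.exp (s * ((sg w : ℝ) - (1 - 1 / (d : ℝ)) * t)) +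
        Real.exp (-(s * δ * t)) * Real.exp (-s * ((sg w : ℝ) - (1 - 1 / (d : ℝ)) * t))) := by
    refine cW_le_sum (fun w _ => by positivity) fun w _ hw => ?_
    set y : ℝ := (sg w : ℝ) - (1 - 1 / (d : ℝ)) * t with hy
    have hw' : δ * t < |y| := hw
    have hsy := mul_lt_mul_of_pos_left hw' hs0
    rw [← Real.exp_add, ← Real.exp_add]
    rcases abs_cases y with ⟨h2, _⟩ | ⟨h2, _⟩
    · have h3 : 1 ≤ Real.exp (-(s * δ * t) + s * y) := by
        rw [Real.one_le_exp_iff]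
        rw [h2] at hsy
        linarith
      have h4 := Real.exp_pos (-(s * δ * t) + -s * y)
      linarith
    · have h3 : 1 ≤ Real.exp (-(s * δ * t) + -s * y) := by
        rw [Real.one_le_exp_iff]
        rw [h2] at hsy
        linarith
      have h4 := Real.exp_pos (-(s * δ * t) + s * y)
      linarith
  refine h1.trans ?_
  rw [Finset.sum_add_distrib, ← Finset.mul_sum, ← Finset.mul_sum]
  have h2 := mgf_h12 hd t (s := s) (by rw [abs_of_pos hs0]; exact hs1)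
  have h3 := mgf_h12 hd t (s := -s) (by rw [abs_neg, abs_of_pos hs0]; exact hs1)
  rw [neg_sq] at h3
  have h4 : Real.exp (-((s * δ - s ^ 2) * t)) = Real.exp (-(s * δ * t)) * Real.exp (s ^ 2 * t) := by
    rw [← Real.exp_add]
    congr 1
    ring
  rw [h4]
  have h5 := mul_le_mul_of_nonneg_left h2 (Real.exp_pos (-(s * δ * t))).le
  have h6 := mul_le_mul_of_nonneg_left h3 (Real.exp_pos (-(s * δ * t))).le
  linarith

theorem dev_pow (hd : 2 ≤ d) {δ : ℝ} (hδ : 0 < δ) (n : ℕ) : ∃ C : ℝ, 0 < C ∧ ∀ t : ℕ, 1 ≤ t →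
    cW d t (fun w => δ * t < |(sg w : ℝ) - (1 - 1 / (d : ℝ)) * t|) ≤
      C / (t : ℝ) ^ n * (d : ℝ) ^ t := by
  obtain ⟨c, hc, h⟩ := dev_exp hd hδ
  refine ⟨2 * (n.factorial / c ^ n), by positivity, fun t ht => ?_⟩
  refine (h t).trans ?_
  have ht0 : (0 : ℝ) < t := by exact_mod_cast ht
  refine mul_le_mul_of_nonneg_right ?_ (by positivity)
  have h1 := Real.pow_div_factorial_le_exp (c * t) (by positivity) n
  have h2 : Real.exp (-(c * t)) ≤ (n.factorial / c ^ n) / (t : ℝ) ^ n := by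
    rw [Real.exp_neg, div_div, ← mul_pow]
    have h3 : (n.factorial : ℝ) / (c * t) ^ n = ((c * t) ^ n / n.factorial)⁻¹ := by
      rw [inv_div]
    rw [h3]
    exact inv_anti₀ (by positivity) h1
  calc 2 * Real.exp (-(c * t)) ≤ 2 * ((n.factorial / c ^ n) / (t : ℝ) ^ n) := by linarith
    _ = 2 * (n.factorial / c ^ n) / (t : ℝ) ^ n := by ring

/-- The words which are not in `Gd`. -/
theorem bad_pow (hd : 2 ≤ d) {Q : ℕ} (hQ : 1 ≤ Q) (n : ℕ) : ∃ C : ℝ, 0 < C ∧ ∀ t : ℕ, 1 ≤ t →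
    ((W d t \ Gd d Q t).card : ℝ) ≤ C / (t : ℝ) ^ n * (d : ℝ) ^ t := by
  have hQ0 : (0 : ℝ) < Q := by exact_mod_cast hQ
  obtain ⟨C, hC, h⟩ := dev_pow (d := d) hd (δ := 1 / (Q : ℝ) ^ 2) (by positivity) n
  refine ⟨C, hC, fun t ht => ?_⟩
  refine le_trans (le_of_eq ?_) (h t ht)
  classical
  unfold cW Gd
  congr 2
  ext w
  simp only [Finset.mem_sdiff, Finset.mem_filter, not_and, not_le]
  constructor
  · rintro ⟨h1, h2⟩
    refine ⟨h1, ?_⟩
    have h3 := h2 h1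
    rw [one_div, inv_mul_eq_div]
    exact h3
  · rintro ⟨h1, h2⟩
    refine ⟨h1, fun _ => ?_⟩
    rw [one_div ((Q : ℝ) ^ 2), inv_mul_eq_div] at h2
    exact h2

end Pool.Agent.Helper8.POS
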