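import Pool.Agent.Helper8.POS.TypA
import Pool.Agent.Helper8.POS.Dev

/-!
# Block POS-CROSS: most paths have a point in the window

Let `N = t / Q`, `i = t / Q ^ 2`, `q = log m / Q ^ 2 ≤ gam / 256`. `u ∈ W d i` has `m ^ (-i) ≤ sz u ≤ d ^ i ≤ m ^ i ≤ exp (q t) ≤ Y`.
For `v' ∈ W d (N - i)` in `Gd (N - i)` one has `sz (u ++ v') ≥ m ^ (-i) exp ((255/256) gam (N - i)) > Y` for large `t` (as `i log m ≤ q t`, `log Y ≤ 3 q t + const`,
`4 q t ≤ (gam / 4) t / Q`, `N - i ≥ (15/16) t / Q - 1`), so there is a first `n ∈ [i, N]` with `sz (u ++ v'.take (n - i)) > Y`; `n > i`, and the size is `≤ d Y`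
(one letter multiplies the size by at most `d`, `sz_append`). So the `v'` in `Gd` are covered by the sets
`{v' ∈ W d (N - i) : Y < sz (u ++ v'.take (n - i)) ≤ d Y}`, `n ∈ [i, N]`, which have `#{v ∈ W d (n - i) : …} d ^ (N - n)` elements (`cW_take`, `cW_exists_le`), and
`|Gd (N - i)| ≥ d ^ (N - i) / 2` for large `t` (`bad_pow`).
-/

set_option autoImplicit false

namespace Pool.Agent.Helper8.POS

open Finset Pool.Agent.Helper68.Moeller Pool.Agent.Helper52.Tao Pool.Agent.Helper91.PL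

variable {d m Q : ℕ} {r : ℤ → ℤ} {M : ℝ}

/-! ### Helpers -/

theorem cr_letter (hm : 1 ≤ m) (l : List ℕ) (a : ℕ) :
    sz d m (l ++ [a]) ≤ d * sz d m l := by
  have hm0 : (0 : ℝ) < m := by exact_mod_cast hm
  have hm1 : (1 : ℝ) ≤ m := by exact_mod_cast hm
  unfold sz
  rw [sg_append, List.length_append, List.length_singleton, pow_succ, ← mul_div_assoc]
  rw [mul_comm ((d : ℝ)) ((d : ℝ) ^ l.length)]
  apply div_le_div_of_nonneg_left (by positivity) (by positivity)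
  exact pow_le_pow_right₀ hm1 (Nat.le_add_right _ _)

theorem cr_first (hm : 1 ≤ m) {Y : ℝ} (u v : List ℕ) (h0 : sz d m u ≤ Y)
    (h1 : Y < sz d m (u ++ v)) :
    ∃ k ∈ Finset.range (v.length + 1), Y < sz d m (u ++ v.take k) ∧
      sz d m (u ++ v.take k) ≤ d * Y := by
  classical
  have hex : ∃ k : ℕ, Y < sz d m (u ++ v.take k) := ⟨v.length, by simpa using h1⟩
  have hk1 : Y < sz d m (u ++ v.take (Nat.find hex)) := Nat.find_spec hex
  have hkl : Nat.find hex ≤ v.length := Nat.find_min' hex (by simpa using h1)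
  have hk0 : Nat.find hex ≠ 0 := by
    intro h
    rw [h] at hk1
    simp only [List.take_zero, List.append_nil] at hk1
    exact absurd h0 (not_le.2 hk1)
  obtain ⟨j, hj⟩ := Nat.exists_eq_succ_of_ne_zero hk0
  have hjlt : j < v.length := by omega
  have hjm : ¬ Y < sz d m (u ++ v.take j) := Nat.find_min hex (by omega)
  refine ⟨Nat.find hex, Finset.mem_range.2 (by omega), hk1, ?_⟩
  rw [hj, Nat.succ_eq_add_one, List.take_add_one, List.getElem?_eq_getElem hjlt, Option.toList_some,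
    ← List.append_assoc]
  refine (cr_letter hm _ _).trans ?_
  exact mul_le_mul_of_nonneg_left (not_lt.1 hjm) (Nat.cast_nonneg d)

theorem cr_sz_ge (hd : 1 ≤ d) (hm : 1 ≤ m) {i : ℕ} {u : List ℕ} (hu : u ∈ W d i) :
    Real.exp (-(i * Real.log m)) ≤ sz d m u := by
  have hm0 : (0 : ℝ) < m := by exact_mod_cast hm
  have hm1 : (1 : ℝ) ≤ m := by exact_mod_cast hm
  have hd1 : (1 : ℝ) ≤ d := by exact_mod_cast hd
  have hl := length_of_mem_W hu
  have hs : sg u ≤ i := by rw [← hl]; exact sg_le_length u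
  have e1 : Real.exp (-(i * Real.log m)) = 1 / (m : ℝ) ^ i := by
    rw [Real.exp_neg, mul_comm, Real.exp_mul, Real.exp_log hm0, Real.rpow_natCast, one_div]
  rw [e1]
  unfold sz
  exact div_le_div₀ (by positivity) (one_le_pow₀ hd1) (by positivity)
    (pow_le_pow_right₀ hm1 hs)

theorem cr_sz_le (hd : 1 ≤ d) (hdm : d < m) {i : ℕ} {u : List ℕ} (hu : u ∈ W d i) :
    sz d m u ≤ Real.exp (i * Real.log m) := by
  have hm0 : (0 : ℝ) < m := by exact_mod_cast (by omega : 0 < m)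
  have hm1 : (1 : ℝ) ≤ m := by exact_mod_cast (by omega : 1 ≤ m)
  have hd0 : (0 : ℝ) ≤ d := Nat.cast_nonneg d
  have hl := length_of_mem_W hu
  have e1 : Real.exp (i * Real.log m) = (m : ℝ) ^ i := by
    rw [mul_comm, Real.exp_mul, Real.exp_log hm0, Real.rpow_natCast]
  rw [e1]
  unfold sz
  rw [hl]
  calc (d : ℝ) ^ i / (m : ℝ) ^ sg u ≤ (d : ℝ) ^ i / 1 :=
        div_le_div_of_nonneg_left (by positivity) one_pos (one_le_pow₀ hm1)
    _ = (d : ℝ) ^ i := div_one _
    _ ≤ (m : ℝ) ^ i := pow_le_pow_left₀ hd0 (by exact_mod_cast hdm.le) i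

open Classical in
/-- The covering step. -/
theorem cr_cover (hd : 1 ≤ d) (hm : 1 ≤ m) {Y : ℝ} (s : ℕ) (u : List ℕ) (h0 : sz d m u ≤ Y)
    (h1 : ∀ v ∈ Gd d Q s, Y < sz d m (u ++ v)) (h2 : (d : ℝ) ^ s / 2 ≤ ((Gd d Q s).card : ℝ)) :
    (1 / 2 : ℝ) ≤ ∑ k ∈ Finset.range (s + 1),
      cW d k (fun v => Y < sz d m (u ++ v) ∧ sz d m (u ++ v) ≤ d * Y) / (d : ℝ) ^ k := by
  have hd0 : (0 : ℝ) < d := by exact_mod_cast hd
  have hds : (0 : ℝ) < (d : ℝ) ^ s := by positivity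
  have h3 : ((Gd d Q s).card : ℝ) ≤ cW d s (fun w => ∃ k ∈ Finset.range (s + 1),
      (fun k w => Y < sz d m (u ++ List.take k w) ∧ sz d m (u ++ List.take k w) ≤ d * Y) k w) := by
    unfold cW
    norm_cast
    apply Finset.card_le_card
    intro v hv
    have hvW : v ∈ W d s := Gd_subset s hv
    have h4 := cr_first (d := d) hm u v h0 (h1 v hv)
    rw [length_of_mem_W hvW] at h4
    exact (@Finset.mem_filter _ _ (fun _ => Classical.propDecidable _) _ _).2 ⟨hvW, h4⟩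
  have h5 := h2.trans (h3.trans (cW_exists_le d s (Finset.range (s + 1))
    (fun k w => Y < sz d m (u ++ List.take k w) ∧ sz d m (u ++ List.take k w) ≤ d * Y)))
  have h6 : ∑ k ∈ Finset.range (s + 1), cW d s (fun w => Y < sz d m (u ++ List.take k w) ∧
      sz d m (u ++ List.take k w) ≤ d * Y) = (d : ℝ) ^ s * ∑ k ∈ Finset.range (s + 1),
      cW d k (fun v => Y < sz d m (u ++ v) ∧ sz d m (u ++ v) ≤ d * Y) / (d : ℝ) ^ k := by
    rw [Finset.mul_sum]
    refine Finset.sum_congr rfl fun k hk => ?_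
    have hk' : k ≤ s := by
      have := Finset.mem_range.1 hk
      omega
    have h7 := cW_take d k (s - k) (fun v => Y < sz d m (u ++ v) ∧ sz d m (u ++ v) ≤ d * Y)
    rw [show k + (s - k) = s by omega] at h7
    rw [h7]
    have h8 : (d : ℝ) ^ s = (d : ℝ) ^ (s - k) * (d : ℝ) ^ k := by
      rw [← pow_add]
      congr 1
      omega
    rw [h8]
    have h9 : (d : ℝ) ^ k ≠ 0 := by positivity
    field_simp
  rw [h6] at h5
  by_contra hcon
  have h10 := mul_lt_mul_of_pos_left (not_le.1 hcon) hds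
  linarith

open Classical in
/-- Most paths from `u` have a point in the window. -/
theorem crossing (hO : Ok d m r Q) : ∃ t1 : ℕ, ∀ t : ℕ, t1 ≤ t → ∀ Y : ℝ,
    Real.exp (Real.log m / (Q : ℝ) ^ 2 * t) ≤ Y →
    Y ≤ Real.exp (3 * (Real.log m / (Q : ℝ) ^ 2 * t) + (gam d m + 2 * (Real.log m / (Q : ℝ) ^ 2))) →
    ∀ u ∈ W d (t / Q ^ 2), (1 / 2 : ℝ) ≤ ∑ n ∈ Finset.Icc (t / Q ^ 2) (t / Q),
      (((W d (n - t / Q ^ 2)).filter (fun v => Y < sz d m (u ++ v) ∧
        sz d m (u ++ v) ≤ d * Y)).card : ℝ) / (d : ℝ) ^ (n - t / Q ^ 2) := by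
  have hd := hO.hd
  have hdm := hO.hdm
  have hg := hO.hg
  have hQ := hO.hQ
  have hd1 : 1 ≤ d := by omega
  have hm1 : 1 ≤ m := by omega
  have hmR : (1 : ℝ) < m := by exact_mod_cast (by omega : 1 < m)
  have hL : 0 < Real.log m := Real.log_pos hmR
  have hQ16 : (16 : ℝ) ≤ Q := by
    have : 0 ≤ 16 * Real.log m / gam d m := by positivity
    linarith
  have hQ0 : (0 : ℝ) < Q := by linarith
  have hQn : 1 ≤ Q := by
    have : (0 : ℝ) < Q := hQ0
    exact_mod_cast this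
  -- `q ≤ gam / (16 Q)`
  have hLQ : 16 * Real.log m ≤ gam d m * Q := by
    have h1 : 16 * Real.log m / gam d m ≤ Q := by linarith
    rw [div_le_iff₀ hg] at h1
    linarith
  obtain ⟨q, hq⟩ : ∃ q : ℝ, q = Real.log m / (Q : ℝ) ^ 2 := ⟨_, rfl⟩
  have hq0 : 0 < q := by rw [hq]; positivity
  have hqQ2 : q * (Q : ℝ) ^ 2 = Real.log m := by
    rw [hq]
    field_simp
  have hqg : 16 * (q * Q) ≤ gam d m := by
    have h1 : 16 * (q * Q) * Q ≤ gam d m * Q := by
      have : 16 * (q * Q) * Q = 16 * (q * (Q : ℝ) ^ 2) := by ring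
      rw [this, hqQ2]
      exact hLQ
    exact le_of_mul_le_mul_right h1 hQ0
  have hqg2 : 256 * q ≤ gam d m := by nlinarith
  obtain ⟨C, hC0, hC⟩ := bad_pow hd hQn 1
  refine ⟨Q * (⌈4 * C⌉₊ + 8), fun t ht Y hY1 hY2 u hu => ?_⟩
  rw [← hq] at hY1 hY2
  -- the real number `x = t / Q`
  obtain ⟨x, hx⟩ : ∃ x : ℝ, x = (t : ℝ) / Q := ⟨_, rfl⟩
  have htx : (t : ℝ) = x * Q := by
    rw [hx]
    field_simp
  have hxC : 4 * C + 8 ≤ x := by
    have h1 : ((Q * (⌈4 * C⌉₊ + 8) : ℕ) : ℝ) ≤ t := by exact_mod_cast ht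
    push_cast at h1
    have h2 := Nat.le_ceil (4 * C)
    rw [hx, le_div_iff₀ hQ0]
    nlinarith
  have hx0 : 0 < x := by linarith
  obtain ⟨i, hi⟩ : ∃ i : ℕ, i = t / Q ^ 2 := ⟨_, rfl⟩
  obtain ⟨N, hN⟩ : ∃ N : ℕ, N = t / Q := ⟨_, rfl⟩
  rw [← hi] at hu ⊢
  rw [← hN]
  have hiN : i ≤ N := by
    rw [hi, hN]
    exact Nat.div_le_div_left (by nlinarith) (by omega)
  have hiR : (i : ℝ) * Q ≤ x := by
    have h1 : i * Q ^ 2 ≤ t := by rw [hi]; exact Nat.div_mul_le_self _ _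
    have h2 : (i : ℝ) * (Q : ℝ) ^ 2 ≤ t := by exact_mod_cast h1
    rw [htx] at h2
    have h3 : (i : ℝ) * Q * Q ≤ x * Q := by
      have : (i : ℝ) * Q * Q = (i : ℝ) * (Q : ℝ) ^ 2 := by ring
      rw [this]
      exact h2
    exact le_of_mul_le_mul_right h3 hQ0
  have hi16 : 16 * (i : ℝ) ≤ x := by
    have : (0 : ℝ) ≤ i := Nat.cast_nonneg i
    nlinarith
  have hNR : x - 1 ≤ (N : ℝ) := by
    have h1 : t < (N + 1) * Q := by
      rw [hN]
      have := Nat.lt_div_mul_add (a := t) (b := Q) (by omega)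
      nlinarith
    have h2 : (t : ℝ) < ((N : ℝ) + 1) * Q := by exact_mod_cast h1
    rw [htx] at h2
    have := lt_of_mul_lt_mul_right h2 hQ0.le
    linarith
  obtain ⟨s, hs⟩ : ∃ s : ℕ, s = N - i := ⟨_, rfl⟩
  have hsR : (s : ℝ) = N - i := by
    rw [hs, Nat.cast_sub hiN]
  have hs0 : (15 / 16) * x - 1 ≤ s := by
    rw [hsR]
    linarith
  have hs1 : 1 ≤ s := by
    have : (1 : ℝ) ≤ s := by linarith
    exact_mod_cast this
  have hs2 : 2 * C ≤ s := by linarith
  have hsp : (0 : ℝ) < s := by exact_mod_cast hs1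
  -- sizes
  have hiL : (i : ℝ) * Real.log m ≤ q * t := by
    rw [← hqQ2, htx]
    have h3 : (i : ℝ) * Q * (q * Q) ≤ x * (q * Q) := mul_le_mul_of_nonneg_right hiR (by positivity)
    nlinarith
  have hu0 : sz d m u ≤ Y :=
    (cr_sz_le hd1 hdm hu).trans ((Real.exp_le_exp.2 hiL).trans hY1)
  have hu1 := cr_sz_ge hd1 hm1 hu
  have hcov := cr_cover (Q := Q) hd1 hm1 (Y := Y) s u hu0 ?_ ?_
  · refine hcov.trans (le_of_eq ?_)
    have e1 : Finset.Icc i N = (Finset.range (s + 1)).image (fun k => i + k) := by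
      ext n
      simp only [Finset.mem_Icc, Finset.mem_image, Finset.mem_range]
      constructor
      · rintro ⟨h1, h2⟩
        exact ⟨n - i, by omega, by omega⟩
      · rintro ⟨k, h1, rfl⟩
        omega
    rw [e1, Finset.sum_image (fun a _ b _ h => by simpa using h)]
    refine Finset.sum_congr rfl fun k _ => ?_
    rw [Nat.add_sub_cancel_left]
    unfold cW
    congr!
  · intro v hv
    rw [sz_append hm1]
    have h1 := (Gd_sz hO hv).1
    rw [← hq] at h1
    have h2 : Real.exp (-(i * Real.log m)) * Real.exp ((gam d m - q) * s) ≤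
        sz d m u * sz d m v :=
      mul_le_mul hu1 h1 (Real.exp_pos _).le (sz_pos hd1 hm1 u).le
    rw [← Real.exp_add] at h2
    refine lt_of_lt_of_le (lt_of_le_of_lt hY2 (Real.exp_lt_exp.2 ?_)) h2
    have h3 : q * t ≤ gam d m * x / 16 := by
      rw [htx]
      have : q * (x * Q) = (q * Q) * x := by ring
      rw [this]
      nlinarith
    have h4 : (gam d m - q) * ((15 / 16) * x - 1) ≤ (gam d m - q) * s :=
      mul_le_mul_of_nonneg_left hs0 (by linarith)
    have h5 : (255 / 256) * gam d m * ((15 / 16) * x - 1) ≤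
        (gam d m - q) * ((15 / 16) * x - 1) :=
      mul_le_mul_of_nonneg_right (by linarith) (by linarith)
    have h6 : gam d m * 8 ≤ gam d m * x := mul_le_mul_of_nonneg_left (by linarith) hg.le
    nlinarith
  · have h1 := hC s hs1
    rw [pow_one] at h1
    have h2 : ((W d s \ Gd d Q s).card : ℝ) = (d : ℝ) ^ s - (Gd d Q s).card := by
      rw [Finset.card_sdiff_of_subset (Gd_subset s), Nat.cast_sub (Finset.card_le_card (Gd_subset s)),
        card_W]
      push_cast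
      rfl
    rw [h2] at h1
    have h3 : C / s ≤ 1 / 2 := by
      rw [div_le_iff₀ hsp]
      linarith
    have h4 : C / s * (d : ℝ) ^ s ≤ 1 / 2 * (d : ℝ) ^ s :=
      mul_le_mul_of_nonneg_right h3 (by positivity)
    linarith

end Pool.Agent.Helper8.POS
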