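import Pool.Agent.Helper91.PL.DT
import Pool.Agent.Helper91.PL.EX

/-!
# Positive density of the sets of predecessors: definitions

Words as in `Helper52.Tao`: `W d t` the words of length `t` (the head is the digit nearest to the end point of
the orbit segment), `sg w` the number of non-zero digits, `Hit (sg w) x w`: `m ^ sg w ∣ d ^ |w| x + Off w`; then
`pt w x = (d ^ |w| x + Off w) / m ^ sg w` is the point with the word `w` and `T^[|w|] (pt w x) = x`.

The statement to be proved: there is `c > 0` such that for every `a ≥ 1` which is not dead and every `X ≥ a` at least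
`c X / a` of the positive integers `n ≤ X` have `a` on their `T`-orbit. Paper proof: /team-store/h8_POS_proof.md.
-/

set_option autoImplicit false

namespace Pool.Agent.Helper8.POS

open Finset Pool.Agent.Helper68.Moeller Pool.Agent.Helper52.Tao Pool.Agent.Helper91.PL

/-- The size of a word: `pt w x` is about `sz w * x`. -/
noncomputable def sz (d m : ℕ) (w : List ℕ) : ℝ := (d : ℝ) ^ w.length / (m : ℝ) ^ sg w

open Classical in
/-- The transfer operator of a finite set of words. -/
noncomputable def Lo (d m : ℕ) (r : ℤ → ℤ) (A : Finset (List ℕ)) (h : ℤ → ℝ) (x : ℤ) : ℝ :=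
  ∑ w ∈ A.filter (fun w => Hit d m r (sg w) x w), h (pt d m r w x) / sz d m w

/-- `h` is periodic modulo `m ^ i`. -/
def Pe (m i : ℕ) (h : ℤ → ℝ) : Prop := ∀ x y : ℤ, (m : ℤ) ^ i ∣ x - y → h x = h y

/-- The mean value over a period. -/
noncomputable def mn (m i : ℕ) (h : ℤ → ℝ) : ℝ := (∑ c ∈ range (m ^ i), h (c : ℤ)) / (m : ℝ) ^ i

/-- The mass of the words of length `j` which are valid at `x`. -/
noncomputable def gg (d m : ℕ) (r : ℤ → ℤ) (j : ℕ) (x : ℤ) : ℝ := Lo d m r (W d j) (fun _ => 1) x

/-- Concatenation of words (`A`: the words nearer to the end point). -/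
def cat (A B : Finset (List ℕ)) : Finset (List ℕ) := (A ×ˢ B).image (fun p => p.1 ++ p.2)

open Classical in
/-- The words of length `j` whose number of non-zero digits is near its mean value. -/
noncomputable def Gd (d Q j : ℕ) : Finset (List ℕ) :=
  (W d j).filter (fun w => |(sg w : ℝ) - (1 - 1 / (d : ℝ)) * j| ≤ (j : ℝ) / (Q : ℝ) ^ 2)

open Classical in
/-- The typical words of length `t`: the sizes of all prefixes grow exponentially. -/
noncomputable def Ty (d m Q : ℕ) (M : ℝ) (t : ℕ) : Finset (List ℕ) :=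
  (Gd d Q t).filter (fun w => ∀ i ≤ t, Real.exp (gam d m * i / 2) ≤ M * sz d m (w.take i))

open Classical in
/-- The words of length at most `N` with size in `(Y, d Y]`. -/
noncomputable def Win (d m N : ℕ) (Y : ℝ) : Finset (List ℕ) :=
  (range (N + 1)).biUnion (fun n => (W d n).filter (fun v => Y < sz d m v ∧ sz d m v ≤ d * Y))

open Classical in
/-- The words `w ++ v`, `w` typical of length `t`, `v` of length at most `t / Q`, with size in `(R, d R]`. -/
noncomputable def Big (d m Q : ℕ) (M : ℝ) (t : ℕ) (R : ℝ) : Finset (List ℕ) :=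
  (range (t / Q + 1)).biUnion (fun n => (W d (t + n)).filter (fun u =>
    u.take t ∈ Ty d m Q M t ∧ R < sz d m u ∧ sz d m u ≤ d * R))

/-- The integers in `(0, X]` with a path to `a` on which all integers are at least `L`. -/
def Pth (d m : ℕ) (r : ℤ → ℤ) (L : ℝ) (a : ℤ) (X : ℝ) : Set ℤ :=
  {n : ℤ | (∃ t : ℕ, (T d m r)^[t] n = a ∧ ∀ i : ℕ, i ≤ t → L ≤ ((T d m r)^[i] n : ℝ)) ∧
    0 < n ∧ (n : ℝ) ≤ X}

/-- The standing hypotheses. -/
structure Ok (d m : ℕ) (r : ℤ → ℤ) (Q : ℕ) : Prop where
  hd : 2 ≤ d
  hdm : d < m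
  hco : Nat.Coprime m d
  hr : Admissible d m r
  hg : 0 < gam d m
  hQ : 16 * Real.log m / gam d m + 16 ≤ Q

end Pool.Agent.Helper8.POS
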