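import Pool.Agent.Helper8.POS.Mix
import Pool.Agent.Helper8.POS.Cross

/-!
# Block POS-WIN: the mass of the words whose size lies in a window `(Y, d Y]`

Let `N = t / Q`, `i = t / Q ^ 2` (`5 ≤ i ≤ N`, `k = i / 5 ≥ 1`). Put
`e z = |gg i z - m ^ k nut i k z| + 2 ∑_{n ≤ N} ∑_{k ≤ S ≤ n} osc n S z`,
`osc n S z = |m ^ S cW d n (sg w = S ∧ Hit S z w) / d ^ n - m ^ k cW d n (sg w = S ∧ Hit k z w) / d ^ n|`.
`e` is periodic modulo `m ^ N` (`Pe_gg`, `nut_congr`, `dt_hit_congr`), its mean is (`gg_nut`, `osc_mean`, exponent `6`; `mn_shift`) at most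
`C i / k ^ 6 + 2 (N + 1) ^ 2 C / k ^ 6 ≤ C' / t ^ 3`. It remains: `m ^ k nut i k z ≤ 2 (Lo (Win N Y) 1 z + ∑ osc)`.
`m ^ k nut i k z = ∑_{u ∈ W d i, k ≤ sg u, Hit k z u} m ^ k / d ^ i ≤ 2 ∑_u ∑_n ∑_v m ^ k / d ^ n` (`crossing`) over the `v ∈ W d (n - i)` with `u ++ v` in the
window, `n ∈ [i, N]`; `k ≤ sg (u ++ v)` and `Hit k z (u ++ v)` (`nua_hit_append`), and `W d n` is the set of the `u ++ v` (`sum_W_add`, `cW_add`), so this is
`≤ 2 ∑_{n ≤ N} ∑_{k ≤ S ≤ n, Y < d ^ n / m ^ S ≤ d Y} m ^ k cW d n (sg w = S ∧ Hit k z w) / d ^ n ≤ 2 ∑_{n, S} (m ^ S cW d n (sg w = S ∧ Hit S z w) / d ^ n + osc n S z)`,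
and the first sum is at most `Lo (Win N Y) 1 z` (group the words of `Win N Y` by the length and by `sg`; words of different length are different).
-/

set_option autoImplicit false

namespace Pool.Agent.Helper8.POS

open Finset Pool.Agent.Helper68.Moeller Pool.Agent.Helper52.Tao Pool.Agent.Helper91.PL

variable {d m Q : ℕ} {r : ℤ → ℤ} {M : ℝ}

/-- the term of `gg` of the words with `S` non-zero digits -/
private noncomputable def G6 (d m : ℕ) (r : ℤ → ℤ) (n S j : ℕ) (z : ℤ) : ℝ :=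
  (m : ℝ) ^ j * cW d n (fun w => sg w = S ∧ Hit d m r j z w) / (d : ℝ) ^ n

private lemma G6_nonneg (n S j : ℕ) (z : ℤ) : 0 ≤ G6 d m r n S j z := by
  unfold G6
  have := cW_nonneg d n (fun w => sg w = S ∧ Hit d m r j z w)
  positivity

private lemma G6_congr {n S j : ℕ} {x y : ℤ} (h : (m : ℤ) ^ j ∣ x - y) :
    G6 d m r n S j x = G6 d m r n S j y := by
  unfold G6
  rw [cW_congr fun w _ => and_congr_right fun _ => dt_hit_congr h w]

private lemma sz6 {n : ℕ} {w : List ℕ} (hw : w ∈ W d n) : sz d m w = (d : ℝ) ^ n / (m : ℝ) ^ sg w := by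
  unfold sz
  rw [length_of_mem_W hw]

/-- The mass of the words in the window. -/
private lemma Lo_Win6 (N : ℕ) (Y : ℝ) (P : ℕ → ℕ → Prop)
    (hP : ∀ n S, P n S ↔ (Y < (d : ℝ) ^ n / (m : ℝ) ^ S ∧ (d : ℝ) ^ n / (m : ℝ) ^ S ≤ d * Y))
    [∀ n, DecidablePred (P n)] (z : ℤ) :
    ∑ n ∈ range (N + 1), ∑ S ∈ (range (n + 1)).filter (P n), G6 d m r n S S z =
      Lo d m r (Win d m N Y) (fun _ => 1) z := by
  classical
  unfold Lo Win
  rw [Finset.sum_filter, Finset.sum_biUnion]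
  · refine Finset.sum_congr rfl fun n _ => ?_
    rw [Finset.sum_filter (s := W d n)]
    have h1 : ∀ S : ℕ, G6 d m r n S S z = ∑ w ∈ W d n, if sg w = S then
        (if Hit d m r (sg w) z w then (m : ℝ) ^ sg w / (d : ℝ) ^ n else 0) else 0 := by
      intro S
      unfold G6
      rw [cW_eq_sum, Finset.mul_sum, Finset.sum_div]
      refine Finset.sum_congr rfl fun w _ => ?_
      by_cases h : sg w = S
      · subst h
        by_cases h2 : Hit d m r (sg w) z w
        · simp [h2]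
        · simp [h2]
      · simp [h]
    simp only [h1]
    rw [Finset.sum_comm]
    refine Finset.sum_congr rfl fun w hw => ?_
    rw [Finset.sum_ite_eq]
    have h2 : sg w ≤ n := by
      have := sg_le_length w
      rwa [length_of_mem_W hw] at this
    have h3 : sz d m w = (d : ℝ) ^ n / (m : ℝ) ^ sg w := sz6 hw
    have h4 : (sg w ∈ (range (n + 1)).filter (P n)) ↔ (Y < sz d m w ∧ sz d m w ≤ d * Y) := by
      rw [Finset.mem_filter, Finset.mem_range, hP, h3]
      exact ⟨fun h => h.2, fun h => ⟨by omega, h⟩⟩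
    by_cases h5 : Y < sz d m w ∧ sz d m w ≤ d * Y
    · rw [if_pos (h4.2 h5), if_pos h5]
      by_cases h6 : Hit d m r (sg w) z w
      · rw [if_pos h6, if_pos h6, h3, one_div_div]
      · rw [if_neg h6, if_neg h6]
    · rw [if_neg (fun h => h5 (h4.1 h)), if_neg h5]
  · intro a _ b _ hab
    refine Finset.disjoint_left.2 fun w hw hw' => hab ?_
    rw [← length_of_mem_W (Finset.mem_filter.1 hw).1, length_of_mem_W (Finset.mem_filter.1 hw').1]

private lemma mn_sum6 (i : ℕ) {ι : Type*} (s : Finset ι) (f : ι → ℤ → ℝ) :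
    mn m i (fun z => ∑ j ∈ s, f j z) = ∑ j ∈ s, mn m i (f j) := by
  unfold mn
  rw [Finset.sum_comm, Finset.sum_div]

private lemma Pe_sum6 {i : ℕ} {ι : Type*} (s : Finset ι) (f : ι → ℤ → ℝ) (h : ∀ j ∈ s, Pe m i (f j)) :
    Pe m i (fun z => ∑ j ∈ s, f j z) := by
  intro x y hxy
  exact Finset.sum_congr rfl fun j hj => h j hj x y hxy

/-- The words with a prefix `u` of length `i`, `k ≤ sg u`, `Hit k u`. -/
private lemma nut_le6 (hd : 1 ≤ d) {i k N : ℕ} (z : ℤ) (P : ℕ → ℕ → Prop)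
    [∀ n, DecidablePred (P n)]
    (hc : ∀ u ∈ W d i, (1 / 2 : ℝ) ≤ ∑ n ∈ Finset.Icc i N,
      cW d (n - i) (fun v => P n (sg (u ++ v))) / (d : ℝ) ^ (n - i)) :
    (m : ℝ) ^ k * nut d m r i k z ≤ 2 * ∑ n ∈ Finset.Icc i N,
      ∑ S ∈ (range (n + 1)).filter (fun S => k ≤ S ∧ P n S), G6 d m r n S k z := by
  classical
  have hd0 : (0 : ℝ) < d := by exact_mod_cast hd
  have h1 : ∀ n ∈ Finset.Icc i N, ∑ u ∈ W d i, (if k ≤ sg u ∧ Hit d m r k z u then
        (m : ℝ) ^ k * (cW d (n - i) (fun v => P n (sg (u ++ v))) / (d : ℝ) ^ n) else 0) ≤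
      ∑ S ∈ (range (n + 1)).filter (fun S => k ≤ S ∧ P n S), G6 d m r n S k z := by
    intro n hn
    rw [Finset.mem_Icc] at hn
    unfold G6
    rw [← Finset.sum_div, ← Finset.mul_sum, ← dt_fiber n (fun S => k ≤ S ∧ P n S)
      (fun w => Hit d m r k z w)]
    have h2 : n = i + (n - i) := by omega
    have h3 : cW d n (fun w => (k ≤ sg w ∧ P n (sg w)) ∧ Hit d m r k z w) =
        ∑ u ∈ W d i, cW d (n - i) (fun v => (k ≤ sg (u ++ v) ∧ P n (sg (u ++ v))) ∧
          Hit d m r k z (u ++ v)) := by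
      have h5 := cW_add d i (n - i) (fun w => (k ≤ sg w ∧ P n (sg w)) ∧ Hit d m r k z w)
      rwa [show i + (n - i) = n by omega] at h5
    rw [h3, Finset.mul_sum, Finset.sum_div]
    refine Finset.sum_le_sum fun u hu => ?_
    by_cases h4 : k ≤ sg u ∧ Hit d m r k z u
    · rw [if_pos h4, ← mul_div_assoc]
      refine div_le_div_of_nonneg_right ?_ (by positivity)
      refine mul_le_mul_of_nonneg_left ?_ (by positivity)
      refine cW_mono fun v _ hv => ⟨⟨?_, hv⟩, nua_hit_append h4.1 h4.2⟩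
      rw [sg_append]
      omega
    · rw [if_neg h4]
      have := cW_nonneg d (n - i) (fun v => (k ≤ sg (u ++ v) ∧ P n (sg (u ++ v))) ∧
          Hit d m r k z (u ++ v))
      positivity
  refine le_trans ?_ (mul_le_mul_of_nonneg_left (Finset.sum_le_sum h1) (by norm_num : (0 : ℝ) ≤ 2))
  rw [Finset.sum_comm, Finset.mul_sum]
  unfold nut
  rw [cW_eq_sum, Finset.sum_div, Finset.mul_sum]
  refine Finset.sum_le_sum fun u hu => ?_
  by_cases h4 : k ≤ sg u ∧ Hit d m r k z u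
  · simp only [if_pos h4]
    rw [← Finset.mul_sum]
    have h5 : ∑ n ∈ Finset.Icc i N, cW d (n - i) (fun v => P n (sg (u ++ v))) / (d : ℝ) ^ n =
        (∑ n ∈ Finset.Icc i N, cW d (n - i) (fun v => P n (sg (u ++ v))) / (d : ℝ) ^ (n - i)) /
          (d : ℝ) ^ i := by
      rw [Finset.sum_div]
      refine Finset.sum_congr rfl fun n hn => ?_
      rw [Finset.mem_Icc] at hn
      rw [div_div, ← pow_add]
      congr 2
      omega
    rw [h5]
    have h6 := hc u hu
    have h7 : 0 ≤ (m : ℝ) ^ k / (d : ℝ) ^ i := by positivity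
    have h8 := mul_le_mul_of_nonneg_left h6 h7
    have e1 : (m : ℝ) ^ k * (1 / (d : ℝ) ^ i) = 2 * ((m : ℝ) ^ k / (d : ℝ) ^ i * (1 / 2)) := by ring
    have e2 : 2 * ((m : ℝ) ^ k * ((∑ n ∈ Finset.Icc i N,
        cW d (n - i) (fun v => P n (sg (u ++ v))) / (d : ℝ) ^ (n - i)) / (d : ℝ) ^ i)) =
        2 * ((m : ℝ) ^ k / (d : ℝ) ^ i * ∑ n ∈ Finset.Icc i N,
        cW d (n - i) (fun v => P n (sg (u ++ v))) / (d : ℝ) ^ (n - i)) := by ring
    rw [e1, e2]
    linarith
  · simp only [if_neg h4]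
    simp

theorem window (hO : Ok d m r Q) (hmix : Mixing d m r) : ∃ C : ℝ, 0 < C ∧ ∃ t1 : ℕ,
    ∀ t : ℕ, t1 ≤ t → ∀ Y : ℝ, Real.exp (Real.log m / (Q : ℝ) ^ 2 * t) ≤ Y →
    Y ≤ Real.exp (3 * (Real.log m / (Q : ℝ) ^ 2 * t) + (gam d m + 2 * (Real.log m / (Q : ℝ) ^ 2))) →
    ∃ e : ℤ → ℝ, (∀ z, 0 ≤ e z) ∧ Pe m (t / Q) e ∧ mn m (t / Q) e ≤ C / (t : ℝ) ^ 3 ∧
      ∀ z, gg d m r (t / Q ^ 2) z ≤ 2 * Lo d m r (Win d m (t / Q) Y) (fun _ => 1) z + e z := by
  classical
  have hd := hO.hd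
  have hdm := hO.hdm
  have hm : 1 ≤ m := by omega
  have hQ1 : 1 ≤ Q := by
    have h1 := hO.hQ
    have h2 : 0 ≤ Real.log m := Real.log_nonneg (by exact_mod_cast hm)
    have h3 := hO.hg
    have h4 : (16 : ℝ) ≤ Q := by
      have : 0 ≤ 16 * Real.log m / gam d m := by positivity
      linarith
    have h5 : (1 : ℝ) ≤ Q := by linarith
    exact_mod_cast h5
  have hd0 : (0 : ℝ) < d := by
    have : 0 < d := by omega
    exact_mod_cast this
  obtain ⟨C1, hC1, h1⟩ := gg_nut hO hmix 6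
  obtain ⟨C2, hC2, h2⟩ := osc_mean hO hmix 6
  obtain ⟨t1, ht1⟩ := crossing hO
  refine ⟨(C1 + 8 * C2) * (10 * (Q : ℝ) ^ 2) ^ 6, by positivity, max t1 (12 * Q ^ 2), ?_⟩
  intro t ht Y hY1 hY2
  have htt1 : t1 ≤ t := (le_max_left _ _).trans ht
  have ht2 : 12 * Q ^ 2 ≤ t := (le_max_right _ _).trans ht
  have hQQ : 1 ≤ Q ^ 2 := Nat.one_le_pow _ _ hQ1
  have hcr := ht1 t htt1 Y hY1 hY2
  set i := t / Q ^ 2 with hi
  set N := t / Q with hN
  set k := i / 5 with hk
  have hi12 : 12 ≤ i := by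
    rw [hi, Nat.le_div_iff_mul_le (by omega)]
    exact ht2
  have hk1 : 1 ≤ k := by omega
  have h5k : 5 * k ≤ i := by omega
  have hki : k ≤ i := by omega
  have hiN : i ≤ N := by
    rw [hi, hN]
    refine Nat.div_le_div_left ?_ (by omega)
    nlinarith
  have hNt : N ≤ t := Nat.div_le_self _ _
  have hit : i ≤ t := Nat.div_le_self _ _
  let osc : ℕ → ℕ → ℤ → ℝ := fun n S z => |G6 d m r n S S z - G6 d m r n S k z|
  have hosc0 : ∀ n S z, 0 ≤ osc n S z := fun n S z => abs_nonneg _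
  let e : ℤ → ℝ := fun z => |gg d m r i z - (m : ℝ) ^ k * nut d m r i k z| +
    2 * ∑ n ∈ range (N + 1), ∑ S ∈ Finset.Icc k n, osc n S z
  have hPe1 : Pe m i (fun z => |gg d m r i z - (m : ℝ) ^ k * nut d m r i k z|) := by
    intro x y hxy
    have e1 := Pe_gg (d := d) (r := r) hm i x y hxy
    have e2 : nut d m r i k x = nut d m r i k y := nut_congr ((pow_dvd_pow _ hki).trans hxy)
    show |gg d m r i x - (m : ℝ) ^ k * nut d m r i k x| = |gg d m r i y - (m : ℝ) ^ k * nut d m r i k y|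
    rw [e2]
    have e3 : gg d m r i x = gg d m r i y := e1
    rw [e3]
  have hPe2 : ∀ n S, k ≤ S → S ≤ n → Pe m n (osc n S) := by
    intro n S hkS hSn x y hxy
    show |G6 d m r n S S x - G6 d m r n S k x| = |G6 d m r n S S y - G6 d m r n S k y|
    rw [G6_congr ((pow_dvd_pow _ hSn).trans hxy), G6_congr ((pow_dvd_pow _ (hkS.trans hSn)).trans hxy)]
  refine ⟨e, ?_, ?_, ?_, ?_⟩
  · intro z
    have := Finset.sum_nonneg (s := range (N + 1)) (f := fun n => ∑ S ∈ Finset.Icc k n, osc n S z)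
      fun n _ => Finset.sum_nonneg fun S _ => hosc0 n S z
    have h3 := abs_nonneg (gg d m r i z - (m : ℝ) ^ k * nut d m r i k z)
    show 0 ≤ |gg d m r i z - (m : ℝ) ^ k * nut d m r i k z| +
      2 * ∑ n ∈ range (N + 1), ∑ S ∈ Finset.Icc k n, osc n S z
    linarith
  · intro x y hxy
    have e1 := Pe_mono hiN hPe1 x y hxy
    have e2 : ∑ n ∈ range (N + 1), ∑ S ∈ Finset.Icc k n, osc n S x =
        ∑ n ∈ range (N + 1), ∑ S ∈ Finset.Icc k n, osc n S y := by
      refine Finset.sum_congr rfl fun n hn => Finset.sum_congr rfl fun S hS => ?_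
      rw [Finset.mem_Icc] at hS
      rw [Finset.mem_range] at hn
      exact Pe_mono (by omega : n ≤ N) (hPe2 n S hS.1 hS.2) x y hxy
    show |gg d m r i x - (m : ℝ) ^ k * nut d m r i k x| +
      2 * ∑ n ∈ range (N + 1), ∑ S ∈ Finset.Icc k n, osc n S x = |gg d m r i y - (m : ℝ) ^ k * nut d m r i k y| +
      2 * ∑ n ∈ range (N + 1), ∑ S ∈ Finset.Icc k n, osc n S y
    rw [e2]
    have e3 : |gg d m r i x - (m : ℝ) ^ k * nut d m r i k x| =
      |gg d m r i y - (m : ℝ) ^ k * nut d m r i k y| := e1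
    rw [e3]
  · have e0 : mn m N e = mn m N (fun z => |gg d m r i z - (m : ℝ) ^ k * nut d m r i k z|) +
        2 * ∑ n ∈ range (N + 1), ∑ S ∈ Finset.Icc k n, mn m N (osc n S) := by
      show mn m N (fun z => |gg d m r i z - (m : ℝ) ^ k * nut d m r i k z| +
        2 * ∑ n ∈ range (N + 1), ∑ S ∈ Finset.Icc k n, osc n S z) = _
      rw [mn_add, mn_mul, mn_sum6 N (range (N + 1)) (fun n z => ∑ S ∈ Finset.Icc k n, osc n S z)]
      congr 2
      refine Finset.sum_congr rfl fun n _ => ?_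
      exact mn_sum6 N (Finset.Icc k n) (fun S z => osc n S z)
    have e1 : mn m N (fun z => |gg d m r i z - (m : ℝ) ^ k * nut d m r i k z|) ≤
        C1 * i / (k : ℝ) ^ 6 := by
      rw [mn_shift hm hiN hPe1]
      exact h1 i k hk1 h5k
    have e2 : ∀ n ∈ range (N + 1), ∑ S ∈ Finset.Icc k n, mn m N (osc n S) ≤
        (N + 1 : ℝ) * (C2 / (k : ℝ) ^ 6) := by
      intro n hn
      rw [Finset.mem_range] at hn
      have h3 : ∀ S ∈ Finset.Icc k n, mn m N (osc n S) ≤ C2 / (k : ℝ) ^ 6 := by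
        intro S hS
        rw [Finset.mem_Icc] at hS
        rw [mn_shift hm (by omega : n ≤ N) (hPe2 n S hS.1 hS.2)]
        exact h2 n S k hk1 hS.1 hS.2
      refine (Finset.sum_le_card_nsmul _ _ _ h3).trans ?_
      rw [nsmul_eq_mul, Nat.card_Icc]
      refine mul_le_mul_of_nonneg_right ?_ (by positivity)
      have : n + 1 - k ≤ N + 1 := by omega
      exact_mod_cast this
    have e3 : ∑ n ∈ range (N + 1), ∑ S ∈ Finset.Icc k n, mn m N (osc n S) ≤
        (N + 1 : ℝ) * ((N + 1 : ℝ) * (C2 / (k : ℝ) ^ 6)) := by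
      refine (Finset.sum_le_card_nsmul _ _ _ e2).trans ?_
      rw [nsmul_eq_mul, Finset.card_range]
      push_cast
      exact le_rfl
    have ht0 : (1 : ℝ) ≤ t := by
      have : 1 ≤ t := by omega
      exact_mod_cast this
    have hNt' : (N : ℝ) ≤ t := by exact_mod_cast hNt
    have hit' : (i : ℝ) ≤ t := by exact_mod_cast hit
    have hQ0 : (0 : ℝ) < (Q : ℝ) ^ 2 := by
      have : (0 : ℝ) < Q := by exact_mod_cast hQ1
      positivity
    -- `k` is large
    have hk5 : (t : ℝ) / (10 * (Q : ℝ) ^ 2) ≤ k := by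
      have h3 : (t : ℝ) < (Q : ℝ) ^ 2 * (i + 1) := by
        have := Nat.lt_mul_div_succ t (show 0 < Q ^ 2 by omega)
        rw [← hi] at this
        exact_mod_cast this
      have h4 : (i : ℝ) ≤ 5 * k + 4 := by
        have : i ≤ 5 * k + 4 := by omega
        exact_mod_cast this
      have h5 : (12 : ℝ) * (Q : ℝ) ^ 2 ≤ t := by exact_mod_cast ht2
      rw [div_le_iff₀ (by positivity)]
      nlinarith
    have hk0 : (0 : ℝ) < k := by exact_mod_cast hk1
    have hk6 : ((t : ℝ) / (10 * (Q : ℝ) ^ 2)) ^ 6 ≤ (k : ℝ) ^ 6 :=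
      pow_le_pow_left₀ (by positivity) hk5 6
    have hinv : 1 / (k : ℝ) ^ 6 ≤ (10 * (Q : ℝ) ^ 2) ^ 6 / (t : ℝ) ^ 6 := by
      rw [div_le_div_iff₀ (by positivity) (by positivity)]
      rw [div_pow, div_le_iff₀ (by positivity)] at hk6
      linarith
    have e4 : mn m N e ≤ (C1 * i + 2 * ((N + 1) * ((N + 1) * C2))) * (1 / (k : ℝ) ^ 6) := by
      rw [e0]
      refine (add_le_add e1 (mul_le_mul_of_nonneg_left e3 (by norm_num))).trans (le_of_eq ?_)
      ring
    have e5 : C1 * i + 2 * ((N + 1) * ((N + 1) * C2)) ≤ (C1 + 8 * C2) * (t : ℝ) ^ 2 := by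
      have h3 : (N + 1 : ℝ) ≤ 2 * t := by linarith
      have h4 : (N + 1 : ℝ) * (N + 1) ≤ 4 * (t : ℝ) ^ 2 := by nlinarith [Nat.cast_nonneg (α := ℝ) N]
      have h5 : C1 * (i : ℝ) ≤ C1 * (t : ℝ) ^ 2 := by
        refine mul_le_mul_of_nonneg_left ?_ hC1.le
        nlinarith
      nlinarith [mul_le_mul_of_nonneg_left h4 hC2.le]
    have e6 : 0 ≤ 1 / (k : ℝ) ^ 6 := by positivity
    calc mn m N e ≤ (C1 * i + 2 * ((N + 1) * ((N + 1) * C2))) * (1 / (k : ℝ) ^ 6) := e4
      _ ≤ ((C1 + 8 * C2) * (t : ℝ) ^ 2) * ((10 * (Q : ℝ) ^ 2) ^ 6 / (t : ℝ) ^ 6) :=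
        mul_le_mul e5 hinv e6 (by positivity)
      _ = (C1 + 8 * C2) * (10 * (Q : ℝ) ^ 2) ^ 6 / (t : ℝ) ^ 4 := by
        field_simp
      _ ≤ (C1 + 8 * C2) * (10 * (Q : ℝ) ^ 2) ^ 6 / (t : ℝ) ^ 3 := by
        refine div_le_div_of_nonneg_left (by positivity) (by positivity) ?_
        exact pow_le_pow_right₀ ht0 (by norm_num)
  · intro z
    let P : ℕ → ℕ → Prop := fun n S => Y < (d : ℝ) ^ n / (m : ℝ) ^ S ∧ (d : ℝ) ^ n / (m : ℝ) ^ S ≤ d * Y
    have hc : ∀ u ∈ W d i, (1 / 2 : ℝ) ≤ ∑ n ∈ Finset.Icc i N,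
        cW d (n - i) (fun v => P n (sg (u ++ v))) / (d : ℝ) ^ (n - i) := by
      intro u hu
      refine (hcr u hu).trans (le_of_eq ?_)
      refine Finset.sum_congr rfl fun n hn => ?_
      rw [Finset.mem_Icc] at hn
      congr 1
      have h3 : cW d (n - i) (fun v => P n (sg (u ++ v))) =
          cW d (n - i) (fun v => Y < sz d m (u ++ v) ∧ sz d m (u ++ v) ≤ d * Y) := by
        refine cW_congr fun v hv => ?_
        have h4 : u ++ v ∈ W d n := by
          rw [mem_W] at hu hv ⊢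
          refine ⟨by rw [List.length_append, hu.1, hv.1]; omega, fun a ha => ?_⟩
          rcases List.mem_append.1 ha with ha | ha
          · exact hu.2 a ha
          · exact hv.2 a ha
        rw [sz6 h4]
      rw [h3]
      unfold cW
      congr 2
      exact Finset.ext fun v => by simp only [Finset.mem_filter]
    have h3 := nut_le6 (m := m) (r := r) (k := k) (by omega : 1 ≤ d) z P hc
    have h4 : ∑ n ∈ Finset.Icc i N, ∑ S ∈ (range (n + 1)).filter (fun S => k ≤ S ∧ P n S),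
        G6 d m r n S k z ≤ Lo d m r (Win d m N Y) (fun _ => 1) z +
          ∑ n ∈ range (N + 1), ∑ S ∈ Finset.Icc k n, osc n S z := by
      rw [← Lo_Win6 N Y P (fun n S => Iff.rfl) z, ← Finset.sum_add_distrib]
      have h5 : Finset.Icc i N ⊆ range (N + 1) := by
        intro n hn
        rw [Finset.mem_Icc] at hn
        rw [Finset.mem_range]
        omega
      refine le_trans ?_ (Finset.sum_le_sum_of_subset_of_nonneg h5 fun n _ _ => ?_)
      · refine Finset.sum_le_sum fun n _ => ?_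
        have h6 : ∑ S ∈ (range (n + 1)).filter (fun S => k ≤ S ∧ P n S), G6 d m r n S k z ≤
            ∑ S ∈ (range (n + 1)).filter (fun S => k ≤ S ∧ P n S),
              (G6 d m r n S S z + osc n S z) := by
          refine Finset.sum_le_sum fun S _ => ?_
          have := neg_abs_le (G6 d m r n S S z - G6 d m r n S k z)
          have h7 : osc n S z = |G6 d m r n S S z - G6 d m r n S k z| := rfl
          rw [h7]
          linarith
        refine h6.trans ?_
        rw [Finset.sum_add_distrib]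
        refine add_le_add ?_ ?_
        · refine Finset.sum_le_sum_of_subset_of_nonneg ?_ fun S _ _ => G6_nonneg n S S z
          intro S hS
          rw [Finset.mem_filter] at hS ⊢
          exact ⟨hS.1, hS.2.2⟩
        · refine Finset.sum_le_sum_of_subset_of_nonneg ?_ fun S _ _ => hosc0 n S z
          intro S hS
          rw [Finset.mem_filter, Finset.mem_range] at hS
          rw [Finset.mem_Icc]
          exact ⟨hS.2.1, by omega⟩
      · exact add_nonneg (Finset.sum_nonneg fun S _ => G6_nonneg n S S z)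
          (Finset.sum_nonneg fun S _ => hosc0 n S z)
    have h5 := le_abs_self (gg d m r i z - (m : ℝ) ^ k * nut d m r i k z)
    show gg d m r i z ≤ 2 * Lo d m r (Win d m N Y) (fun _ => 1) z +
      (|gg d m r i z - (m : ℝ) ^ k * nut d m r i k z| +
        2 * ∑ n ∈ range (N + 1), ∑ S ∈ Finset.Icc k n, osc n S z)
    linarith

end Pool.Agent.Helper8.POS
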