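import Pool.Agent.Helper8.POS.Step
import Pool.Agent.Helper8.POS.Window

/-!
# Block POS-END: the mass of the words with size in `(R, d R]`

For `w ∈ Ty t` let `Y = R / sz w`; `Gd_sz` gives the hypotheses of `window`, and `Y` depends only on `s = sg w`. Let `e s` be
the function of `window` (for `s` such that there is a `w ∈ Ty t` with `sg w = s`; `0` otherwise). Then
`Lo (Ty t) (gg (t / Q ^ 2)) x = ∑_{w ∈ Ty t, Hit} gg (t / Q ^ 2) (pt w x) / sz w ≤
  2 ∑_w Lo (Win (t / Q) (R / sz w)) 1 (pt w x) / sz w + ∑_{s ≤ t} Lo (Ty t ∩ {sg = s}) (e s) x`.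
By `Lo_Ty_le` the second sum is at most `(t + 1) C t C' / t ^ 3`. The first sum is `Lo (Big t R) 1 x`: the words of `Big t R` are the `w ++ v`
with `w ∈ Ty t`, `v ∈ Win (t / Q) (R / sz w)` (`sz_append`), uniquely, and `hit_append`; only `≤` is needed.
-/

set_option autoImplicit false

namespace Pool.Agent.Helper8.POS

open Finset Pool.Agent.Helper68.Moeller Pool.Agent.Helper52.Tao Pool.Agent.Helper91.PL

variable {d m Q : ℕ} {r : ℤ → ℤ} {M : ℝ}

open Classical in
private theorem em_first (hd : 1 ≤ d) (hm : 1 ≤ m) (hco : Nat.Coprime m d) {t : ℕ} {R : ℝ} (x : ℤ) :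
    ∑ w ∈ (Ty d m Q M t).filter (fun w => Hit d m r (sg w) x w),
      Lo d m r (Win d m (t / Q) (R / sz d m w)) (fun _ => 1) (pt d m r w x) / sz d m w ≤
      Lo d m r (Big d m Q M t R) (fun _ => 1) x := by
  classical
  have hlen : ∀ w ∈ Ty d m Q M t, w ∈ W d t := fun w hw => Gd_subset t (Ty_subset t hw)
  have e1 : ∑ w ∈ (Ty d m Q M t).filter (fun w => Hit d m r (sg w) x w),
      Lo d m r (Win d m (t / Q) (R / sz d m w)) (fun _ => 1) (pt d m r w x) / sz d m w =
      ∑ p ∈ ((Ty d m Q M t).filter (fun w => Hit d m r (sg w) x w)).sigma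
        (fun w => (Win d m (t / Q) (R / sz d m w)).filter (fun v => Hit d m r (sg v) (pt d m r w x) v)),
        1 / sz d m (p.1 ++ p.2) := by
    rw [Finset.sum_sigma]
    refine Finset.sum_congr rfl fun w _ => ?_
    unfold Lo
    rw [Finset.sum_div]
    refine Finset.sum_congr rfl fun v _ => ?_
    rw [sz_append hm, div_div, mul_comm (sz d m v)]
  rw [e1]
  have hinj : Set.InjOn (fun p : (_ : List ℕ) × List ℕ => p.1 ++ p.2)
      (((Ty d m Q M t).filter (fun w => Hit d m r (sg w) x w)).sigma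
        (fun w => (Win d m (t / Q) (R / sz d m w)).filter (fun v => Hit d m r (sg v) (pt d m r w x) v)) :
          Set ((_ : List ℕ) × List ℕ)) := by
    rintro ⟨w, v⟩ hp ⟨w', v'⟩ hp' h
    rw [Finset.mem_coe, Finset.mem_sigma, Finset.mem_filter] at hp hp'
    have h1 := length_of_mem_W (hlen w hp.1.1)
    have h2 := length_of_mem_W (hlen w' hp'.1.1)
    have h3 : w = w' ∧ v = v' := List.append_inj h (by rw [h1, h2])
    rw [h3.1, h3.2]
  rw [← Finset.sum_image (f := fun u => 1 / sz d m u) hinj]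
  unfold Lo
  refine Finset.sum_le_sum_of_subset_of_nonneg ?_ fun u _ _ => by
    have := sz_pos hd hm u
    positivity
  intro u hu
  rw [Finset.mem_image] at hu
  obtain ⟨⟨w, v⟩, hp, rfl⟩ := hu
  rw [Finset.mem_sigma, Finset.mem_filter, Finset.mem_filter] at hp
  obtain ⟨⟨hw, hhw⟩, hv, hhv⟩ := hp
  have hwW := hlen w hw
  have hlw := length_of_mem_W hwW
  unfold Win at hv
  rw [Finset.mem_biUnion] at hv
  obtain ⟨n, hn, hv⟩ := hv
  rw [Finset.mem_filter] at hv
  obtain ⟨hvW, hv1, hv2⟩ := hv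
  have hsw := sz_pos hd hm w
  rw [Finset.mem_filter]
  refine ⟨?_, (hit_append hm hco x w v).2 ⟨hhw, hhv⟩⟩
  unfold Big
  rw [Finset.mem_biUnion]
  refine ⟨n, hn, ?_⟩
  rw [Finset.mem_filter]
  refine ⟨?_, ?_, ?_, ?_⟩
  · rw [mem_W]
    refine ⟨?_, fun a ha => ?_⟩
    · show (w ++ v).length = t + n
      rw [List.length_append, hlw, length_of_mem_W hvW]
    · rcases List.mem_append.1 ha with h | h
      · exact (mem_W.1 hwW).2 a h
      · exact (mem_W.1 hvW).2 a h
  · show (w ++ v).take t ∈ Ty d m Q M t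
    rw [← hlw, List.take_left, hlw]
    exact hw
  · show R < sz d m (w ++ v)
    rw [sz_append hm]
    rw [div_lt_iff₀ hsw] at hv1
    linarith
  · show sz d m (w ++ v) ≤ d * R
    rw [sz_append hm]
    have h1 : sz d m v * sz d m w ≤ d * (R / sz d m w) * sz d m w := mul_le_mul_of_nonneg_right hv2 hsw.le
    have h2 : (d : ℝ) * (R / sz d m w) * sz d m w = d * R := by
      field_simp
    linarith

open Classical in
private theorem em_second (e : ℕ → ℤ → ℝ) (t : ℕ) (x : ℤ) :
    ∑ w ∈ (Ty d m Q M t).filter (fun w => Hit d m r (sg w) x w), e (sg w) (pt d m r w x) / sz d m w =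
      ∑ s ∈ range (t + 1), Lo d m r ((Ty d m Q M t).filter (fun w => sg w = s)) (e s) x := by
  classical
  have hlen : ∀ w ∈ Ty d m Q M t, w ∈ W d t := fun w hw => Gd_subset t (Ty_subset t hw)
  have hmaps : ∀ w ∈ (Ty d m Q M t).filter (fun w => Hit d m r (sg w) x w), sg w ∈ range (t + 1) := by
    intro w hw
    rw [Finset.mem_filter] at hw
    have h1 := sg_le_length w
    rw [length_of_mem_W (hlen w hw.1)] at h1
    exact Finset.mem_range.2 (by omega)
  rw [← Finset.sum_fiberwise_of_maps_to hmaps]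
  refine Finset.sum_congr rfl fun s _ => ?_
  unfold Lo
  rw [Finset.filter_filter, Finset.filter_filter]
  refine Finset.sum_congr ?_ fun w hw => ?_
  · ext w
    rw [Finset.mem_filter, Finset.mem_filter]
    tauto
  · rw [Finset.mem_filter] at hw
    rw [hw.2.1]

theorem end_mass (hO : Ok d m r Q) (hmix : Mixing d m r) (hM : 1 ≤ M) : ∃ C : ℝ, 0 < C ∧
    ∃ t1 : ℕ, ∀ t : ℕ, t1 ≤ t → ∀ R : ℝ,
      Real.exp ((gam d m + 2 * (Real.log m / (Q : ℝ) ^ 2)) * t) ≤ R →
      R ≤ Real.exp ((gam d m + 2 * (Real.log m / (Q : ℝ) ^ 2)) * (t + 1)) → ∀ x : ℤ,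
      Lo d m r (Ty d m Q M t) (fun z => gg d m r (t / Q ^ 2) z) x ≤
        2 * Lo d m r (Big d m Q M t R) (fun _ => 1) x + C / (t : ℝ) := by
  classical
  obtain ⟨C1, hC1, t2, hwin⟩ := window hO hmix
  obtain ⟨C2, hC2, hLT⟩ := Lo_Ty_le (r := r) hO hM
  have hd1 : 1 ≤ d := by have := hO.hd; omega
  have hm1 : 1 ≤ m := by have := hO.hdm; omega
  refine ⟨2 * (C2 * C1), by positivity, max t2 1, fun t ht R hR1 hR2 x => ?_⟩
  have ht2 : t2 ≤ t := (le_max_left _ _).trans ht
  have ht1 : 1 ≤ t := (le_max_right _ _).trans ht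
  have ht0 : (0 : ℝ) < t := by exact_mod_cast ht1
  have hlen : ∀ w ∈ Ty d m Q M t, w ∈ W d t := fun w hw => Gd_subset t (Ty_subset t hw)
  have hR0 : 0 < R := (Real.exp_pos _).trans_le hR1
  -- the error functions
  have hex : ∀ s : ℕ, ∃ e : ℤ → ℝ, (∀ z, 0 ≤ e z) ∧ Pe m (t / Q) e ∧ mn m (t / Q) e ≤ C1 / (t : ℝ) ^ 3 ∧
      ∀ w ∈ Ty d m Q M t, sg w = s → ∀ z, gg d m r (t / Q ^ 2) z ≤
        2 * Lo d m r (Win d m (t / Q) (R / sz d m w)) (fun _ => 1) z + e z := by
    intro s
    by_cases hs : ∃ w ∈ Ty d m Q M t, sg w = s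
    · obtain ⟨w, hw, hws⟩ := hs
      have hsw := sz_pos hd1 hm1 w
      obtain ⟨hlo, hhi⟩ := Gd_sz hO (Ty_subset t hw)
      have hY1 : Real.exp (Real.log m / (Q : ℝ) ^ 2 * t) ≤ R / sz d m w := by
        rw [le_div_iff₀ hsw]
        calc Real.exp (Real.log m / (Q : ℝ) ^ 2 * t) * sz d m w
            ≤ Real.exp (Real.log m / (Q : ℝ) ^ 2 * t) *
              Real.exp ((gam d m + Real.log m / (Q : ℝ) ^ 2) * t) :=
              mul_le_mul_of_nonneg_left hhi (Real.exp_pos _).le
          _ = Real.exp ((gam d m + 2 * (Real.log m / (Q : ℝ) ^ 2)) * t) := by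
              rw [← Real.exp_add]
              congr 1
              ring
          _ ≤ R := hR1
      have hY2 : R / sz d m w ≤ Real.exp (3 * (Real.log m / (Q : ℝ) ^ 2 * t) +
          (gam d m + 2 * (Real.log m / (Q : ℝ) ^ 2))) := by
        rw [div_le_iff₀ hsw]
        calc R ≤ Real.exp ((gam d m + 2 * (Real.log m / (Q : ℝ) ^ 2)) * (t + 1)) := hR2
          _ = Real.exp (3 * (Real.log m / (Q : ℝ) ^ 2 * t) +
              (gam d m + 2 * (Real.log m / (Q : ℝ) ^ 2))) *
              Real.exp ((gam d m - Real.log m / (Q : ℝ) ^ 2) * t) := by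
              rw [← Real.exp_add]
              congr 1
              ring
          _ ≤ _ := mul_le_mul_of_nonneg_left hlo (Real.exp_pos _).le
      obtain ⟨e, h1, h2, h3, h4⟩ := hwin t ht2 _ hY1 hY2
      refine ⟨e, h1, h2, h3, fun w' hw' hws' z => ?_⟩
      have e1 : sz d m w' = sz d m w := by
        unfold sz
        rw [length_of_mem_W (hlen w' hw'), length_of_mem_W (hlen w hw), hws', hws]
      rw [e1]
      exact h4 z
    · refine ⟨fun _ => 0, fun _ => le_rfl, fun _ _ _ => rfl, ?_, fun w hw hws => absurd ⟨w, hw, hws⟩ hs⟩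
      unfold mn
      rw [Finset.sum_const_zero, zero_div]
      positivity
  choose e he0 hePe hemn hegg using hex
  -- the pointwise inequality
  have hmain : Lo d m r (Ty d m Q M t) (fun z => gg d m r (t / Q ^ 2) z) x ≤
      2 * (∑ w ∈ (Ty d m Q M t).filter (fun w => Hit d m r (sg w) x w),
        Lo d m r (Win d m (t / Q) (R / sz d m w)) (fun _ => 1) (pt d m r w x) / sz d m w) +
      ∑ w ∈ (Ty d m Q M t).filter (fun w => Hit d m r (sg w) x w), e (sg w) (pt d m r w x) / sz d m w := by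
    unfold Lo
    rw [Finset.mul_sum, ← Finset.sum_add_distrib]
    refine Finset.sum_le_sum fun w hw => ?_
    rw [Finset.mem_filter] at hw
    have hsw := sz_pos hd1 hm1 w
    have h1 := hegg (sg w) w hw.1 rfl (pt d m r w x)
    unfold Lo at h1
    rw [← mul_div_assoc, ← add_div]
    exact div_le_div_of_nonneg_right h1 hsw.le
  refine hmain.trans ?_
  have h1 := em_first (Q := Q) (M := M) (t := t) (R := R) (r := r) hd1 hm1 hO.hco x
  have h2 : ∑ w ∈ (Ty d m Q M t).filter (fun w => Hit d m r (sg w) x w), e (sg w) (pt d m r w x) / sz d m w ≤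
      2 * (C2 * C1) / t := by
    rw [em_second]
    have h3 : ∀ s ∈ range (t + 1), Lo d m r ((Ty d m Q M t).filter (fun w => sg w = s)) (e s) x ≤
        C2 * t * (C1 / (t : ℝ) ^ 3) := by
      intro s _
      have h4 := hLT t (t / Q) (e s) ht1 (by
        have := Nat.mul_div_le t Q
        omega) (he0 s) (hePe s) _ (Finset.filter_subset (fun w => sg w = s) (Ty d m Q M t)) x
      exact h4.trans (mul_le_mul_of_nonneg_left (hemn s) (by positivity))
    refine (Finset.sum_le_sum h3).trans ?_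
    rw [Finset.sum_const, Finset.card_range, nsmul_eq_mul]
    push_cast
    have h5 : ((t : ℝ) + 1) * (C2 * t * (C1 / (t : ℝ) ^ 3)) = ((t : ℝ) + 1) / t * (C2 * C1) / t := by
      field_simp
    rw [h5]
    have h6 : ((t : ℝ) + 1) / t ≤ 2 := by
      rw [div_le_iff₀ ht0]
      have : (1 : ℝ) ≤ t := by exact_mod_cast ht1
      linarith
    refine div_le_div_of_nonneg_right ?_ ht0.le
    exact mul_le_mul_of_nonneg_right h6 (by positivity)
  linarith

end Pool.Agent.Helper8.POS
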