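import Pool.Agent.Helper8.POS.ReachA
import Pool.Agent.Helper8.PRE.P8c

/-!
# Block POS-REACH: predecessors in every class near an integer which is not dead

Let `κ₀` be as in `fills m` (Helper8/PRE/P8c.lean) for `D = d`, and `V`, `K`, `b` as in `exists_base_pt`, `κ = κ₀ + V`. If `c = b + m ^ κ z`, choose `z'` with
`m ^ N ∣ b z' - m ^ V z` and `n` with `m ^ N ∣ d ^ n - (1 + m ^ κ₀ z')`; then `m ^ N ∣ d ^ n b - c`. As `d ^ n` modulo `m ^ N` has the period `φ(m ^ N)`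
(`pow_sub_pow_modEq`), we may take `n ∈ [n₀, n₀ + φ(m ^ N)]` where `d ^ n₀ ≥ X0` (e.g. `n₀ = X0.toNat`). Then `x = d ^ n b` satisfies `X0 ≤ x ≤ K' a`; it is not
periodic (`T^[n] x = b`, `st_iter_dvd`, `tr_per_iter`), and its path to `b` consists of the `d ^ i b ≥ b ≥ a / K`.
-/

set_option autoImplicit false

namespace Pool.Agent.Helper8.POS

open Finset Pool.Agent.Helper68.Moeller Pool.Agent.Helper52.Tao Pool.Agent.Helper91.PL

variable {d m : ℕ} {r : ℤ → ℤ}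

private theorem T_pow_h75 (hd : 2 ≤ d) (n : ℕ) (b : ℤ) :
    T d m r ((d : ℤ) ^ (n + 1) * b) = (d : ℤ) ^ n * b := by
  have hd0 : (d : ℤ) ≠ 0 := by
    have : d ≠ 0 := by omega
    exact_mod_cast this
  have h1 : (d : ℤ) ^ (n + 1) * b = (d : ℤ) * ((d : ℤ) ^ n * b) := by ring
  unfold T
  rw [h1, if_pos (dvd_mul_right _ _), Int.mul_ediv_cancel_left _ hd0]

private theorem T_iter_h75 (hd : 2 ≤ d) (b : ℤ) (i k : ℕ) :
    (T d m r)^[i] ((d : ℤ) ^ (i + k) * b) = (d : ℤ) ^ k * b := by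
  induction i with
  | zero => rw [zero_add]; rfl
  | succ i ih =>
    rw [Function.iterate_succ_apply]
    have h1 : i + 1 + k = (i + k) + 1 := by ring
    rw [h1, T_pow_h75 hd, ih]

theorem reach (hd : 2 ≤ d) (hdm : d < m) (hco : Nat.Coprime m d) (hr : Admissible d m r) :
    ∃ κ : ℕ, ∀ (N : ℕ) (X0 : ℤ), ∃ K : ℤ, 1 ≤ K ∧ ∀ a : ℤ, 1 ≤ a → ¬ Dead d m r a →
      ∃ b : ℤ, ¬ Dead d m r b ∧ ∀ c : ℤ, (m : ℤ) ^ κ ∣ c - b → ∃ x : ℤ, (m : ℤ) ^ N ∣ x - c ∧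
        X0 ≤ x ∧ x ≤ K * a ∧ ¬ Per d m r x ∧
        ∃ s : ℕ, (T d m r)^[s] x = a ∧ ∀ i ≤ s, (a : ℝ) / K ≤ ((T d m r)^[i] x : ℝ) := by
  obtain ⟨κ₀, hκ₀⟩ := Pool.Agent.Helper8.PRE.fills m d hd hco
  obtain ⟨V, K, hK1, hbase⟩ := exists_base_pt hd hdm hco hr
  refine ⟨κ₀ + V, fun N X0 => ?_⟩
  obtain ⟨P, hP⟩ : ∃ P : ℕ, P = Nat.totient (m ^ N) := ⟨_, rfl⟩
  have hm0 : 0 < m := by omega
  have hP0 : 0 < P := by
    rw [hP]
    exact Nat.totient_pos.2 (pow_pos hm0 N)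
  have hdZ : (1 : ℤ) ≤ (d : ℤ) := by exact_mod_cast (by omega : 1 ≤ d)
  have hper : ((m : ℤ) ^ N) ∣ (d : ℤ) ^ P - 1 := by
    have h1 : Nat.Coprime d (m ^ N) := Nat.Coprime.pow_right N hco.symm
    have h2 := Nat.modEq_iff_dvd.1 (Nat.ModEq.pow_totient h1).symm
    rw [hP]
    push_cast at h2
    exact h2
  obtain ⟨n₀, hn₀⟩ : ∃ n₀ : ℕ, n₀ = X0.toNat := ⟨_, rfl⟩
  obtain ⟨K', hK'⟩ : ∃ K' : ℤ, K' = K * (d : ℤ) ^ (n₀ + P) := ⟨_, rfl⟩
  have hdp : (1 : ℤ) ≤ (d : ℤ) ^ (n₀ + P) := one_le_pow₀ hdZ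
  have hKK : K ≤ K' := by
    rw [hK']
    nlinarith
  refine ⟨K', hK1.trans hKK, fun a ha hdead => ?_⟩
  obtain ⟨b, hb1, hb2, hb3, hb4, hb5, s, hs1, hs2⟩ := hbase a ha hdead
  refine ⟨b, hb1, fun c hc => ?_⟩
  obtain ⟨z, hz⟩ := hc
  obtain ⟨z', hz'⟩ := hb5 N z
  obtain ⟨i, hi⟩ := hκ₀ N (1 + (m : ℤ) ^ κ₀ * z') ⟨z', by ring⟩
  obtain ⟨n, hn⟩ : ∃ n : ℕ, n = n₀ + (i + (P - 1) * n₀) % P := ⟨_, rfl⟩
  have hn1 : n₀ ≤ n := by omega
  have hn2 : n ≤ n₀ + P := by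
    have := Nat.mod_lt (i + (P - 1) * n₀) hP0
    omega
  have hn3 : n ≡ i [MOD P] := by
    have h1 : n₀ + (i + (P - 1) * n₀) % P ≡ n₀ + (i + (P - 1) * n₀) [MOD P] :=
      Nat.ModEq.add_left _ (Nat.mod_modEq _ _)
    have h2 : n₀ + (i + (P - 1) * n₀) = i + P * n₀ := by
      obtain ⟨P', rfl⟩ : ∃ P', P = P' + 1 := ⟨P - 1, by omega⟩
      rw [Nat.add_sub_cancel]
      ring
    have h3 : i + P * n₀ ≡ i [MOD P] := by
      have : i + P * n₀ ≡ i + 0 [MOD P] :=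
        Nat.ModEq.add_left _ ((Nat.modEq_zero_iff_dvd).2 (dvd_mul_right _ _))
      rwa [add_zero] at this
    rw [hn]
    rw [h2] at h1
    exact h1.trans h3
  have hdn : (m : ℤ) ^ N ∣ (d : ℤ) ^ n - (1 + (m : ℤ) ^ κ₀ * z') := by
    have h1 := dvd_add (Pool.Agent.Helper8.PRE.pow_sub_pow_modEq hper hn3) hi
    rwa [sub_add_sub_cancel] at h1
  have hdnb : (1 : ℤ) ≤ (d : ℤ) ^ n := one_le_pow₀ hdZ
  have haR : (1 : ℝ) ≤ a := by exact_mod_cast ha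
  have hKR : (0 : ℝ) < K := by
    have : (0 : ℤ) < K := by omega
    exact_mod_cast this
  have hKKR : (K : ℝ) ≤ K' := by exact_mod_cast hKK
  have hdiv : (a : ℝ) / K' ≤ (a : ℝ) / K :=
    div_le_div_of_nonneg_left (by linarith) hKR hKKR
  have hbK : (a : ℝ) / K ≤ (b : ℝ) := hs2 0 (Nat.zero_le _)
  refine ⟨(d : ℤ) ^ n * b, ?_, ?_, ?_, ?_, s + n, ?_, ?_⟩
  · have h1 : (d : ℤ) ^ n * b - c = ((d : ℤ) ^ n - (1 + (m : ℤ) ^ κ₀ * z')) * b +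
        (m : ℤ) ^ κ₀ * (b * z' - (m : ℤ) ^ V * z) := by
      have h2 : c = b + (m : ℤ) ^ (κ₀ + V) * z := by linarith
      rw [h2, pow_add]
      ring
    rw [h1]
    exact dvd_add (Dvd.dvd.mul_right hdn _) (Dvd.dvd.mul_left hz' _)
  · have h1 : X0 ≤ (n₀ : ℤ) := by
      rw [hn₀]
      exact Int.self_le_toNat X0
    have h2 : n₀ < d ^ n := (Nat.lt_pow_self (by omega)).trans_le (Nat.pow_le_pow_right (by omega) hn1)
    have h3 : (n₀ : ℤ) ≤ (d : ℤ) ^ n := by exact_mod_cast h2.le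
    nlinarith
  · have h1 : (d : ℤ) ^ n ≤ (d : ℤ) ^ (n₀ + P) := pow_le_pow_right₀ hdZ hn2
    rw [hK']
    calc (d : ℤ) ^ n * b ≤ (d : ℤ) ^ (n₀ + P) * (K * a) :=
          mul_le_mul h1 hb3 (by omega) (by positivity)
      _ = K * (d : ℤ) ^ (n₀ + P) * a := by ring
  · intro hp
    apply hb4
    have h1 := tr_per_iter hp n
    have h2 := T_iter_h75 (m := m) (r := r) hd b n 0
    rw [add_zero, pow_zero, one_mul] at h2
    rwa [h2] at h1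
  · rw [Function.iterate_add_apply]
    have h2 := T_iter_h75 (m := m) (r := r) hd b n 0
    rw [add_zero, pow_zero, one_mul] at h2
    rw [h2, hs1]
  · intro j hj
    rcases le_total j n with hjn | hjn
    · have h2 := T_iter_h75 (m := m) (r := r) hd b j (n - j)
      rw [Nat.add_sub_cancel' hjn] at h2
      rw [h2]
      have h3 : (1 : ℤ) ≤ (d : ℤ) ^ (n - j) := one_le_pow₀ hdZ
      have h4 : b ≤ (d : ℤ) ^ (n - j) * b := by nlinarith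
      have h5 : (b : ℝ) ≤ (((d : ℤ) ^ (n - j) * b : ℤ) : ℝ) := by exact_mod_cast h4
      linarith
    · have h1 : j = (j - n) + n := by omega
      rw [h1, Function.iterate_add_apply]
      have h2 := T_iter_h75 (m := m) (r := r) hd b n 0
      rw [add_zero, pow_zero, one_mul] at h2
      rw [h2]
      exact hdiv.trans (hs2 (j - n) (by omega))

end Pool.Agent.Helper8.POS
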