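import Pool.Agent.Helper8.POS.Alg

/-!
# Block POS-TYPB: the offsets of typical words

Induction on `t`, removing the LAST letter of the word (`Off_append` with `v = [a]`; `w = w.dropLast ++ [a]`): if `w = u ++ [a]`, `|u| = t`, then
`Off w = m ^ sg u * rr r a + d * Off u`, and `m ^ sg u = d ^ t / sz u ≤ M d ^ t exp (-gam t / 2)` (the hypothesis for `i = t`). So
`|Off w| / d ^ |w| ≤ (B M / d) ∑_{i < |w|} exp (-gam i / 2) ≤ B M / (1 - exp (-gam / 2))`, where `|rr r a| ≤ B` (`abs_rr_le`; such a `B` exists, e.g.
`exists_resid_bound` in Helper8/PRE/Stay.lean or `exists_B0` in Helper91/PL/P3.lean, four lines). In the induction use the statement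
`|Off w| ≤ B M (∑_{i < t} exp (-gam / 2) ^ i) d ^ t`; the hypothesis passes to `u` (`List.take_append_of_le_length`).
-/

set_option autoImplicit false

namespace Pool.Agent.Helper8.POS

open Finset Pool.Agent.Helper68.Moeller Pool.Agent.Helper52.Tao Pool.Agent.Helper91.PL

variable {d m Q : ℕ} {r : ℤ → ℤ} {M : ℝ}

theorem Off_le (hO : Ok d m r Q) (hM : 1 ≤ M) : ∃ C : ℝ, 0 < C ∧ ∀ (t : ℕ) (w : List ℕ),
    w ∈ W d t → (∀ i ≤ t, Real.exp (gam d m * i / 2) ≤ M * sz d m (w.take i)) →
      |(Off d m r w : ℝ)| ≤ C * (d : ℝ) ^ t := by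
  obtain ⟨B, hB⟩ : ∃ B : ℕ, ∀ j : ℤ, 0 < j → j < (d : ℤ) → |r j| ≤ B := by
    refine ⟨∑ j ∈ Finset.range d, (r j).natAbs, fun j h0 h1 => ?_⟩
    lift j to ℕ using h0.le
    have h1' : j ∈ Finset.range d := by
      rw [Finset.mem_range]
      exact_mod_cast h1
    have := Finset.single_le_sum (f := fun j : ℕ => (r j).natAbs) (fun _ _ => Nat.zero_le _) h1'
    rw [Int.abs_eq_natAbs]
    exact_mod_cast this
  have hd : 2 ≤ d := hO.hd
  have hd1 : (1 : ℝ) ≤ d := by exact_mod_cast (by omega : 1 ≤ d)
  have hd0 : (0 : ℝ) < d := by linarith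
  have hm0 : (0 : ℝ) < m := by exact_mod_cast (by have := hO.hdm; omega : 0 < m)
  have hg := hO.hg
  have hM0 : 0 < M := by linarith
  have hB0 : (0 : ℝ) ≤ B := Nat.cast_nonneg B
  set q : ℝ := Real.exp (-(gam d m / 2)) with hq
  have hq0 : 0 < q := Real.exp_pos _
  have hq1 : q < 1 := by
    rw [hq, Real.exp_lt_one_iff]
    linarith
  have key : ∀ (t : ℕ) (w : List ℕ), w ∈ W d t →
      (∀ i ≤ t, Real.exp (gam d m * i / 2) ≤ M * sz d m (w.take i)) →
      |(Off d m r w : ℝ)| ≤ B * M * (∑ i ∈ Finset.range t, q ^ i) * (d : ℝ) ^ t := by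
    intro t
    induction t with
    | zero =>
      intro w hw _
      have h1 : w = [] := List.length_eq_zero_iff.1 (length_of_mem_W hw)
      rw [h1]
      simp [Off]
    | succ t ih =>
      intro w hw h
      rcases List.eq_nil_or_concat w with h0 | ⟨u, a, hua⟩
      · have h1 := length_of_mem_W hw
        rw [h0] at h1
        simp at h1
      · have hua' : w = u ++ [a] := by rw [hua, List.concat_eq_append]
        rw [hua'] at hw h ⊢
        have h1 := mem_W.1 hw
        have hul : u.length = t := by
          have h2 := h1.1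
          rw [List.length_append, List.length_singleton] at h2
          omega
        have hu : u ∈ W d t := mem_W.2 ⟨hul, fun b hb => h1.2 b (by simp [hb])⟩
        have ha : a < d := h1.2 a (by simp)
        have ih' := ih u hu (fun i hi => by
          have h3 := h i (by omega)
          rwa [List.take_append_of_le_length (by omega)] at h3)
        have h4 : (m : ℝ) ^ sg u ≤ M * (q ^ t * (d : ℝ) ^ t) := by
          have h5 := h t (by omega)
          rw [List.take_append_of_le_length (by omega), List.take_of_length_le (by omega)] at h5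
          unfold sz at h5
          rw [hul] at h5
          have h6 : 0 < (m : ℝ) ^ sg u := by positivity
          rw [← mul_div_assoc, le_div_iff₀ h6] at h5
          have h7 : q ^ t * Real.exp (gam d m * t / 2) = 1 := by
            rw [hq, ← Real.exp_nat_mul, ← Real.exp_add]
            rw [← Real.exp_zero]
            congr 1
            ring
          calc (m : ℝ) ^ sg u = q ^ t * (Real.exp (gam d m * t / 2) * (m : ℝ) ^ sg u) := by
                rw [← mul_assoc, h7, one_mul]
            _ ≤ q ^ t * (M * (d : ℝ) ^ t) := mul_le_mul_of_nonneg_left h5 (by positivity)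
            _ = M * (q ^ t * (d : ℝ) ^ t) := by ring
        have h8 : Off d m r (u ++ [a]) = (m : ℤ) ^ sg u * rr r a + (d : ℤ) * Off d m r u := by
          rw [Off_append]
          simp [Off]
        have h9 : |((rr r a : ℤ) : ℝ)| ≤ B := by
          have h10 := abs_rr_le hB ha
          exact_mod_cast h10
        rw [h8]
        push_cast
        have h11 : |(m : ℝ) ^ sg u * (rr r a : ℝ) + (d : ℝ) * (Off d m r u : ℝ)| ≤
            M * (q ^ t * (d : ℝ) ^ t) * B +
              d * (B * M * (∑ i ∈ Finset.range t, q ^ i) * (d : ℝ) ^ t) := by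
          refine (abs_add_le _ _).trans (add_le_add ?_ ?_)
          · rw [abs_mul, abs_of_nonneg (by positivity : (0 : ℝ) ≤ (m : ℝ) ^ sg u)]
            exact mul_le_mul h4 h9 (abs_nonneg _) (by positivity)
          · rw [abs_mul, abs_of_pos hd0]
            exact mul_le_mul_of_nonneg_left ih' hd0.le
        refine h11.trans ?_
        rw [Finset.sum_range_succ, pow_succ (d : ℝ) t]
        have h12 : M * (q ^ t * (d : ℝ) ^ t) * B ≤ d * (M * (q ^ t * (d : ℝ) ^ t) * B) :=
          le_mul_of_one_le_left (by positivity) hd1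
        calc M * (q ^ t * (d : ℝ) ^ t) * B +
              d * (B * M * (∑ i ∈ Finset.range t, q ^ i) * (d : ℝ) ^ t)
            ≤ d * (M * (q ^ t * (d : ℝ) ^ t) * B) +
              d * (B * M * (∑ i ∈ Finset.range t, q ^ i) * (d : ℝ) ^ t) :=
                add_le_add_left h12 _
          _ = B * M * (∑ i ∈ Finset.range t, q ^ i + q ^ t) * ((d : ℝ) ^ t * d) := by ring
  refine ⟨B * M * (1 / (1 - q)) + 1, ?_, ?_⟩
  · have : 0 < 1 - q := by linarith
    positivity
  · intro t w hw h
    refine (key t w hw h).trans ?_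
    have h1 : ∑ i ∈ Finset.range t, q ^ i ≤ 1 / (1 - q) := by
      rw [geom_sum_eq hq1.ne, ← neg_div_neg_eq]
      have h2 : 0 < 1 - q := by linarith
      have h3 : 0 ≤ q ^ t := by positivity
      have h4 : -(q - 1) = 1 - q := by ring
      rw [h4]
      exact div_le_div_of_nonneg_right (by linarith) h2.le
    have h5 : B * M * (∑ i ∈ Finset.range t, q ^ i) ≤ B * M * (1 / (1 - q)) + 1 := by
      have := mul_le_mul_of_nonneg_left h1 (by positivity : 0 ≤ (B : ℝ) * M)
      linarith
    exact mul_le_mul_of_nonneg_right h5 (by positivity)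

end Pool.Agent.Helper8.POS
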