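import Pool.Agent.Helper8.POS.TypA
import Pool.Agent.Helper8.POS.TypB
import Pool.Agent.Helper8.POS.Dev

/-!
# Block POS-TYPC: most words are typical

The words of `W d t` which are not in `Ty t` are not in `Gd t` (`bad_pow`: `≤ C / t d ^ t`), or `M sz (w.take i) < exp (gam i / 2)` for some `i ≤ t`.
For `i < i₀` this is excluded by `M = m ^ i₀ exp (gam i₀)` (`sz (w.take i) ≥ m ^ (-i)`). For `i ≥ i₀` it implies (`M ≥ 1`) that
`w.take i ∉ Gd i` (`Gd_sz`: otherwise `sz ≥ exp ((255/256) gam i)`); the number of such words `w ∈ W d t` is `|W d i \ Gd i| d ^ (t - i) ≤ C d ^ t / i ^ 2`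
(`bad_pow`, `cW_take` with `t = i + (t - i)`), and `∑_{i ≥ i₀} C / i ^ 2 ≤ 2 C / i₀ ≤ ε / 2` (or `C / (i (i - 1))` telescoping).
-/

set_option autoImplicit false

namespace Pool.Agent.Helper8.POS

open Finset Pool.Agent.Helper68.Moeller Pool.Agent.Helper52.Tao Pool.Agent.Helper91.PL

variable {d m Q : ℕ} {r : ℤ → ℤ} {M : ℝ}

private theorem m_gt (hO : Ok d m r Q) : (1 : ℝ) < m := by
  have h1 := hO.hd
  have h2 := hO.hdm
  exact_mod_cast (by omega : 1 < m)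

private theorem logm_pos (hO : Ok d m r Q) : 0 < Real.log m := Real.log_pos (m_gt hO)

private theorem Q_ge (hO : Ok d m r Q) : (16 : ℝ) ≤ Q := by
  have hg := hO.hg
  have hl := logm_pos hO
  have hQ := hO.hQ
  have h1 : 0 ≤ 16 * Real.log m / gam d m := by positivity
  linarith

private theorem log_div_le (hO : Ok d m r Q) : Real.log m / (Q : ℝ) ^ 2 ≤ gam d m / 256 := by
  have hg := hO.hg
  have hl := logm_pos hO
  have hQ := hO.hQ
  have h16 := Q_ge hO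
  have h2 : 16 * Real.log m / gam d m ≤ Q := by linarith
  rw [div_le_iff₀ hg] at h2
  rw [div_le_iff₀ (by positivity)]
  have h3 : (Q : ℝ) * gam d m * 16 ≤ (Q : ℝ) * gam d m * Q :=
    mul_le_mul_of_nonneg_left h16 (by positivity)
  nlinarith

private theorem take_mem {t i : ℕ} {w : List ℕ} (hw : w ∈ W d t) (hi : i ≤ t) :
    w.take i ∈ W d i := by
  rw [mem_W] at hw ⊢
  refine ⟨?_, fun a ha => hw.2 a (List.mem_of_mem_take ha)⟩
  rw [List.length_take, hw.1]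
  exact min_eq_left hi

private theorem sz_ge (hO : Ok d m r Q) {i : ℕ} {w : List ℕ} (hw : w ∈ W d i) :
    ((m : ℝ) ^ i)⁻¹ ≤ sz d m w := by
  have hm := m_gt hO
  have hd : (1 : ℝ) ≤ d := by
    have := hO.hd
    exact_mod_cast (by omega : 1 ≤ d)
  have h1 : sg w ≤ i := by
    have := sg_le_length w
    rwa [length_of_mem_W hw] at this
  unfold sz
  rw [inv_eq_one_div, div_le_div_iff₀ (by positivity) (by positivity), one_mul]
  have h2 : (m : ℝ) ^ sg w ≤ (m : ℝ) ^ i := pow_le_pow_right₀ hm.le h1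
  have h3 : (1 : ℝ) ≤ (d : ℝ) ^ w.length := one_le_pow₀ hd
  have h4 : (0 : ℝ) ≤ (m : ℝ) ^ i := by positivity
  nlinarith

private theorem Gd_ok (hO : Ok d m r Q) (hM : 1 ≤ M) {i : ℕ} {w : List ℕ} (hw : w ∈ Gd d Q i) :
    Real.exp (gam d m * i / 2) ≤ M * sz d m w := by
  have hg := hO.hg
  have h1 := (Gd_sz hO hw).1
  have h2 := log_div_le hO
  have h3 : Real.exp (gam d m * i / 2) ≤ Real.exp ((gam d m - Real.log m / (Q : ℝ) ^ 2) * i) := by
    apply Real.exp_le_exp.2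
    have h4 : gam d m / 2 ≤ gam d m - Real.log m / (Q : ℝ) ^ 2 := by linarith
    have h5 := mul_le_mul_of_nonneg_right h4 (Nat.cast_nonneg (α := ℝ) i)
    linarith
  have h6 : 0 ≤ sz d m w := (Real.exp_pos _).le.trans h1
  nlinarith [Real.exp_pos (gam d m * i / 2)]

private theorem card_le_cW {A : Finset (List ℕ)} {t : ℕ} {P : List ℕ → Prop}
    (hA : ∀ w ∈ A, w ∈ W d t ∧ P w) : (A.card : ℝ) ≤ cW d t P := by
  classical
  unfold cW
  norm_cast
  refine Finset.card_le_card fun w hw => ?_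
  simp only [Finset.mem_filter]
  exact hA w hw

theorem Ty_card (hO : Ok d m r Q) {ε : ℝ} (hε : 0 < ε) : ∃ M : ℝ, 1 ≤ M ∧ ∃ t0 : ℕ,
    ∀ t : ℕ, t0 ≤ t → ((W d t \ Ty d m Q M t).card : ℝ) ≤ ε * (d : ℝ) ^ t := by
  classical
  have hg := hO.hg
  have hm := m_gt hO
  have hQ1 : 1 ≤ Q := by
    have := Q_ge hO
    have h : (1 : ℝ) ≤ Q := by linarith
    exact_mod_cast h
  have hdpos : (0 : ℝ) < d := by
    have := hO.hd
    exact_mod_cast (by omega : 0 < d)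
  obtain ⟨C, hC0, hC⟩ := bad_pow hO.hd hQ1 2
  set k : ℕ := ⌈4 * C / ε⌉₊ with hk
  have hk1 : 4 * C / ε ≤ k := Nat.le_ceil _
  refine ⟨(m : ℝ) ^ k * Real.exp (gam d m * k), ?_, ⌈2 * C / ε⌉₊ + 1, fun t ht => ?_⟩
  · have h1 : (1 : ℝ) ≤ (m : ℝ) ^ k := one_le_pow₀ hm.le
    have h2 : (1 : ℝ) ≤ Real.exp (gam d m * k) := Real.one_le_exp (by positivity)
    nlinarith
  set M : ℝ := (m : ℝ) ^ k * Real.exp (gam d m * k) with hMdef
  have hM1 : 1 ≤ M := by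
    have h1 : (1 : ℝ) ≤ (m : ℝ) ^ k := one_le_pow₀ hm.le
    have h2 : (1 : ℝ) ≤ Real.exp (gam d m * k) := Real.one_le_exp (by positivity)
    nlinarith
  have ht1 : 1 ≤ t := le_trans (Nat.le_add_left 1 _) ht
  have htC : 2 * C / ε ≤ t := by
    have h1 : 2 * C / ε ≤ (⌈2 * C / ε⌉₊ : ℝ) := Nat.le_ceil _
    have h2 : ((⌈2 * C / ε⌉₊ : ℕ) : ℝ) ≤ t := by exact_mod_cast (by omega : ⌈2 * C / ε⌉₊ ≤ t)
    linarith
  have hbad : ∀ i : ℕ, 1 ≤ i → cW d i (fun w => w ∉ Gd d Q i) ≤ C / (i : ℝ) ^ 2 * (d : ℝ) ^ i := by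
    intro i hi
    refine le_trans (le_of_eq ?_) (hC i hi)
    unfold cW
    congr 2
    ext w
    simp only [Finset.mem_filter, Finset.mem_sdiff]
  have hcov : ((W d t \ Ty d m Q M t).card : ℝ) ≤
      cW d t (fun w => w ∉ Gd d Q t ∨ ∃ i ∈ Ioo k (t + 1), w.take i ∉ Gd d Q i) := by
    refine card_le_cW fun w hw => ?_
    rw [Finset.mem_sdiff] at hw
    refine ⟨hw.1, ?_⟩
    by_contra hcon
    push Not at hcon
    obtain ⟨hc1, hc2⟩ := hcon
    apply hw.2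
    unfold Ty
    rw [Finset.mem_filter]
    refine ⟨hc1, fun i hi => ?_⟩
    by_cases hik : i ≤ k
    · have h1 := sz_ge hO (take_mem hw.1 hi)
      have h2 : Real.exp (gam d m * i / 2) ≤ Real.exp (gam d m * k) := by
        apply Real.exp_le_exp.2
        have h3 : (i : ℝ) ≤ k := by exact_mod_cast hik
        have h4 : (0 : ℝ) ≤ i := Nat.cast_nonneg i
        nlinarith
      have h5 : (m : ℝ) ^ i ≤ (m : ℝ) ^ k := pow_le_pow_right₀ hm.le hik
      have h6 : (0 : ℝ) < (m : ℝ) ^ i := by positivity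
      have h7 : 1 ≤ (m : ℝ) ^ k * ((m : ℝ) ^ i)⁻¹ := by
        rw [← div_eq_mul_inv, one_le_div h6]
        exact h5
      calc Real.exp (gam d m * i / 2) ≤ Real.exp (gam d m * k) := h2
        _ ≤ (m : ℝ) ^ k * ((m : ℝ) ^ i)⁻¹ * Real.exp (gam d m * k) := by
            nlinarith [Real.exp_pos (gam d m * k)]
        _ = M * ((m : ℝ) ^ i)⁻¹ := by rw [hMdef]; ring
        _ ≤ M * sz d m (w.take i) := mul_le_mul_of_nonneg_left h1 (by linarith)
    · exact Gd_ok hO hM1 (hc2 i (by rw [Finset.mem_Ioo]; omega))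
  have hsum : ∀ i ∈ Ioo k (t + 1), cW d t (fun w => w.take i ∉ Gd d Q i) ≤
      C * (d : ℝ) ^ t * ((i : ℝ) ^ 2)⁻¹ := by
    intro i hi
    rw [Finset.mem_Ioo] at hi
    obtain ⟨j, rfl⟩ : ∃ j, t = i + j := ⟨t - i, by omega⟩
    rw [cW_take d i j (fun w => w ∉ Gd d Q i)]
    have h1 := mul_le_mul_of_nonneg_right (hbad i (by omega)) (by positivity : (0 : ℝ) ≤ (d : ℝ) ^ j)
    refine h1.trans (le_of_eq ?_)
    rw [pow_add, div_eq_mul_inv]
    ring
  have h1 : C / (t : ℝ) ^ 2 ≤ ε / 2 := by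
    have ht1' : (1 : ℝ) ≤ t := by exact_mod_cast ht1
    rw [div_le_iff₀ hε] at htC
    rw [div_le_iff₀ (by positivity)]
    nlinarith [mul_le_mul_of_nonneg_left ht1' (by positivity : (0 : ℝ) ≤ ε * t)]
  have h2 : C * ∑ i ∈ Ioo k (t + 1), ((i : ℝ) ^ 2)⁻¹ ≤ ε / 2 := by
    have h3 := sum_Ioo_inv_sq_le (α := ℝ) k (t + 1)
    have h4 : C * ∑ i ∈ Ioo k (t + 1), ((i : ℝ) ^ 2)⁻¹ ≤ C * (2 / ((k : ℝ) + 1)) :=
      mul_le_mul_of_nonneg_left h3 hC0.le
    refine h4.trans ?_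
    rw [div_le_iff₀ hε] at hk1
    rw [mul_div_assoc', div_le_iff₀ (by positivity)]
    nlinarith
  calc ((W d t \ Ty d m Q M t).card : ℝ)
      ≤ cW d t (fun w => w ∉ Gd d Q t ∨ ∃ i ∈ Ioo k (t + 1), w.take i ∉ Gd d Q i) := hcov
    _ ≤ cW d t (fun w => w ∉ Gd d Q t) +
          cW d t (fun w => ∃ i ∈ Ioo k (t + 1), w.take i ∉ Gd d Q i) := cW_or_le _ _ _ _
    _ ≤ C / (t : ℝ) ^ 2 * (d : ℝ) ^ t +
          ∑ i ∈ Ioo k (t + 1), cW d t (fun w => w.take i ∉ Gd d Q i) :=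
        add_le_add (hbad t ht1) (cW_exists_le d t _ _)
    _ ≤ ε / 2 * (d : ℝ) ^ t + ∑ i ∈ Ioo k (t + 1), C * (d : ℝ) ^ t * ((i : ℝ) ^ 2)⁻¹ :=
        add_le_add (mul_le_mul_of_nonneg_right h1 (by positivity)) (Finset.sum_le_sum hsum)
    _ = ε / 2 * (d : ℝ) ^ t + C * (∑ i ∈ Ioo k (t + 1), ((i : ℝ) ^ 2)⁻¹) * (d : ℝ) ^ t := by
        rw [← Finset.mul_sum]
        ring
    _ ≤ ε / 2 * (d : ℝ) ^ t + ε / 2 * (d : ℝ) ^ t :=
        add_le_add le_rfl (mul_le_mul_of_nonneg_right h2 (by positivity))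
    _ = ε * (d : ℝ) ^ t := by ring

end Pool.Agent.Helper8.POS
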