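import Pool.Agent.Helper8.POS.Mix
import Pool.Agent.Helper8.POS.Typ
import Pool.Agent.Helper8.PRE.P8e
import Pool.Agent.Helper91.PL.POS

/-!
# Block POS-START: every class which is not dead contains a class with a large typical mass

Let `s0` be as in `dead_mod_all`; we may assume `κ ≥ s0` (otherwise use `max κ s0`). `ε = m ^ (-κ)`.
* `PL.pos` with `ε / 4`: `δ₁ > 0`, `K0` with `#{c < m ^ K : 0 < nu K c, fk K c ≤ δ₁} ≤ (ε / 4) m ^ K` for `K ≥ K0`.
* `Ty_card` with `ε δ₁ / 16` gives `M`; `gg_fk` with `ε δ₁ / 16`. Let `t` be large, `N = t + t / Q`, `K = N / 5 ≥ max K0 κ`,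
  `U = Lo (Ty t) (gg (t / Q))` (periodic modulo `m ^ N`). `gg N - U = Lo (W t \ Ty t) (gg (t / Q)) ≥ 0` (`gg_add`, `Lo_sdiff`) has the mean
  `|W t \ Ty t| / d ^ t ≤ ε δ₁ / 16` (`mn_Lo`, `mn_gg`). So `mn N |U - fk K| ≤ ε δ₁ / 8`, and by Markov
  `#{c < m ^ N : |U c - fk K c| > δ₁ / 2} ≤ (ε / 4) m ^ N`.
* The class `b` modulo `m ^ κ` contains `ε m ^ N` residues `c` modulo `m ^ N`; they are not dead, so `0 < nu K c`
  (`PL.dead_iff`, `nu_nonneg`); those with `fk K c ≤ δ₁` are at most `(ε / 4) m ^ N` (each residue modulo `m ^ K` lifts to `m ^ (N - K)` residues). So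
  there is a `c` with `fk K c > δ₁` and `|U c - fk K c| ≤ δ₁ / 2`. Put `δ = δ₁ / 2`.
-/

set_option autoImplicit false

namespace Pool.Agent.Helper8.POS

open Finset Pool.Agent.Helper68.Moeller Pool.Agent.Helper52.Tao Pool.Agent.Helper91.PL

variable {d m Q : ℕ} {r : ℤ → ℤ}

theorem start (hO : Ok d m r Q) (hmix : Mixing d m r) (κ : ℕ) : ∃ δ : ℝ, 0 < δ ∧ ∃ M : ℝ, 1 ≤ M ∧
    ∃ t2 : ℕ, ∀ t : ℕ, t2 ≤ t → ∀ b : ℤ, ¬ Dead d m r b → ∃ c : ℤ, (m : ℤ) ^ κ ∣ c - b ∧
      δ ≤ Lo d m r (Ty d m Q M t) (fun z => gg d m r (t / Q) z) c := by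
  classical
  have hd1 : 1 ≤ d := le_trans (by norm_num) hO.hd
  have hm1 : 1 ≤ m := le_trans hd1 hO.hdm.le
  have hm0 : (0 : ℝ) < m := by exact_mod_cast hm1
  have hmz : (0 : ℤ) < m := by exact_mod_cast hm1
  obtain ⟨s0, hs0, _⟩ := Pool.Agent.Helper8.PRE.dead_mod_all hO.hd hO.hdm hO.hco hO.hr
  obtain ⟨κ', hκ', hκs⟩ : ∃ κ' : ℕ, κ ≤ κ' ∧ s0 ≤ κ' := ⟨max κ s0, le_max_left _ _, le_max_right _ _⟩
  set ε : ℝ := 1 / (m : ℝ) ^ κ' with hε
  have hεpos : 0 < ε := by positivity
  obtain ⟨δ₁, hδ₁, K0, hpos⟩ := Pool.Agent.Helper91.PL.pos hO.hd hO.hdm hO.hco hmix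
    (show 0 < ε / 4 by positivity)
  set η : ℝ := ε * δ₁ / 16 with hη
  have hηpos : 0 < η := by positivity
  obtain ⟨M, hM, tT, hT⟩ := Ty_card hO hηpos
  obtain ⟨tG, hG⟩ := gg_fk hO hmix hηpos
  refine ⟨δ₁ / 2, by positivity, M, hM, tT + tG + 5 * K0 + κ', fun t ht b hb => ?_⟩
  by_contra hcon
  push Not at hcon
  set N := t + t / Q with hN
  have hNt : t ≤ N := Nat.le_add_right _ _
  set K := N / 5 with hK
  have hK0 : K0 ≤ K := by omega
  have hKN : K ≤ N := by omega
  have hκN : κ' ≤ N := by omega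
  set U : ℤ → ℝ := fun z => Lo d m r (Ty d m Q M t) (fun z => gg d m r (t / Q) z) z with hU
  have hTW : Ty d m Q M t ⊆ W d t := (Ty_subset t).trans (Gd_subset t)
  have hggnn : ∀ j z, 0 ≤ gg d m r j z := fun j z => by
    unfold gg
    exact Lo_nonneg hd1 hm1 (fun _ => zero_le_one) z
  set V : ℤ → ℝ := fun z => Lo d m r (W d t \ Ty d m Q M t) (fun z => gg d m r (t / Q) z) z with hV
  have hVU : ∀ z, gg d m r N z = U z + V z := by
    intro z
    rw [hV, hU]
    simp only
    rw [Lo_sdiff hTW, gg_add hm1 hO.hco]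
    ring
  have hVnn : ∀ z, 0 ≤ V z := fun z => Lo_nonneg hd1 hm1 (fun w => hggnn _ w) z
  have hVm : mn m N V ≤ η := by
    have h1 := mn_Lo hd1 hm1 hO.hco (A := W d t \ Ty d m Q M t) (i := t / Q) (r := r)
      (f := fun z => gg d m r (t / Q) z) (Finset.sdiff_subset) (Pe_gg hm1 (t / Q))
    rw [mn_gg hd1 hm1 hO.hco, mul_one] at h1
    have h2 := hT t (by omega)
    rw [hN, hV]
    refine h1.le.trans ?_
    rw [div_le_iff₀ (by have : (0 : ℝ) < d := by exact_mod_cast hd1
                        positivity)]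
    exact h2
  have hGm := hG N (by omega)
  rw [← hK] at hGm
  have hUm : mn m N (fun z => |U z - fk d m r K z|) ≤ 2 * η := by
    have h1 : mn m N (fun z => |U z - fk d m r K z|) ≤
        mn m N (fun z => |gg d m r N z - fk d m r K z| + V z) := by
      refine mn_mono N fun z => ?_
      have h2 : U z - fk d m r K z = (gg d m r N z - fk d m r K z) - V z := by
        rw [hVU z]; ring
      rw [h2]
      have h3 := abs_sub (gg d m r N z - fk d m r K z) (V z)
      rw [abs_of_nonneg (hVnn z)] at h3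
      exact h3
    rw [mn_add] at h1
    linarith
  set f1 : ℤ → ℝ := fun z => if 0 < nu d m r K z ∧ fk d m r K z ≤ δ₁ then 1 else 0 with hf1
  have hf1P : Pe m K f1 := by
    intro x y hxy
    have h1 : nu d m r K x = nu d m r K y := nu_congr hxy
    have h2 : fk d m r K x = fk d m r K y := by unfold fk; rw [h1]
    rw [hf1]
    simp only [h1, h2]
  have hf1m : mn m N f1 ≤ ε / 4 := by
    rw [mn_shift hm1 hKN hf1P]
    unfold mn
    rw [div_le_iff₀ (by positivity)]
    refine le_trans (le_of_eq ?_) (hpos K hK0)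
    rw [hf1]
    simp only
    rw [Finset.sum_ite, Finset.sum_const_zero, add_zero, Finset.sum_const, nsmul_eq_mul, mul_one]
  set f0 : ℤ → ℝ := fun z => if (m : ℤ) ^ κ' ∣ z - b then 1 else 0 with hf0
  have hf0P : Pe m κ' f0 := by
    intro x y hxy
    have h1 : (m : ℤ) ^ κ' ∣ x - b ↔ (m : ℤ) ^ κ' ∣ y - b := by
      constructor
      · intro h
        have := dvd_sub h hxy
        rwa [show x - b - (x - y) = y - b by ring] at this
      · intro h
        have := dvd_add h hxy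
        rwa [show y - b + (x - y) = x - b by ring] at this
    rw [hf0]
    simp only [h1]
  have hf0m : ε ≤ mn m N f0 := by
    rw [mn_shift hm1 hκN hf0P]
    unfold mn
    rw [hε, le_div_iff₀ (by positivity), one_div, inv_mul_cancel₀ (by positivity)]
    have hpp : (0 : ℤ) < (m : ℤ) ^ κ' := pow_pos hmz _
    have hx1 : (((b % (m : ℤ) ^ κ').toNat : ℕ) : ℤ) = b % (m : ℤ) ^ κ' :=
      Int.toNat_of_nonneg (Int.emod_nonneg _ hpp.ne')
    have hx3 : (b % (m : ℤ) ^ κ').toNat < m ^ κ' := by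
      have h1 := Int.emod_lt_of_pos b hpp
      rw [← hx1] at h1
      exact_mod_cast h1
    have h2 : f0 (((b % (m : ℤ) ^ κ').toNat : ℕ) : ℤ) = 1 := by
      rw [hf0]
      simp only
      rw [if_pos]
      rw [hx1, ← neg_sub, dvd_neg]
      exact Int.dvd_self_sub_emod
    rw [← h2]
    exact Finset.single_le_sum (f := fun c : ℕ => f0 (c : ℤ)) (fun c _ => by
      rw [hf0]; simp only; split_ifs <;> norm_num) (Finset.mem_range.2 hx3)
  have hkey : ∀ z, f0 z ≤ f1 z + 2 / δ₁ * |U z - fk d m r K z| := by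
    intro z
    have hnn : 0 ≤ 2 / δ₁ * |U z - fk d m r K z| := by positivity
    have hf1nn : 0 ≤ f1 z := by rw [hf1]; simp only; split_ifs <;> norm_num
    by_cases hz : (m : ℤ) ^ κ' ∣ z - b
    · have h0 : f0 z = 1 := by rw [hf0]; simp only; rw [if_pos hz]
      rw [h0]
      have hnd : ¬ Dead d m r z := by
        rw [hs0 z b ((pow_dvd_pow _ hκs).trans hz)]
        exact hb
      have hnu : 0 < nu d m r K z := by
        rw [dead_iff hO.hd hO.hdm hO.hco hO.hr] at hnd
        push Not at hnd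
        exact lt_of_le_of_ne (nu_nonneg _ _) (Ne.symm (hnd K))
      by_cases hfk : fk d m r K z ≤ δ₁
      · have h1 : f1 z = 1 := by rw [hf1]; simp only; rw [if_pos ⟨hnu, hfk⟩]
        rw [h1]
        linarith
      · rw [not_le] at hfk
        have h1 : U z < δ₁ / 2 := hcon z ((pow_dvd_pow _ hκ').trans hz)
        have h2 : δ₁ / 2 ≤ |U z - fk d m r K z| := by
          rw [abs_sub_comm]
          exact le_trans (by linarith) (le_abs_self _)
        have h3 : 1 ≤ 2 / δ₁ * |U z - fk d m r K z| := by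
          calc (1 : ℝ) = 2 / δ₁ * (δ₁ / 2) := by field_simp
            _ ≤ _ := by gcongr
        linarith
    · have h0 : f0 z = 0 := by rw [hf0]; simp only; rw [if_neg hz]
      rw [h0]
      linarith
  have h1 := mn_mono (m := m) N hkey
  rw [mn_add, mn_mul] at h1
  have h2 : 2 / δ₁ * mn m N (fun z => |U z - fk d m r K z|) ≤ ε / 4 := by
    calc _ ≤ 2 / δ₁ * (2 * η) := by gcongr
      _ = ε / 4 := by rw [hη]; field_simp; ring
  linarith

end Pool.Agent.Helper8.POS
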