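import Pool.Agent.Helper8.POS.AllT
import Pool.Agent.Helper8.POS.EndMass
import Pool.Agent.Helper8.POS.Count
import Pool.Agent.Helper8.POS.Start
import Pool.Agent.Helper8.POS.Reach
import Pool.Agent.Helper52.Tao.U3
import Pool.Agent.Helper52.Tao.FD
import Pool.Agent.Helper52.Tao.MX1
import Pool.Agent.Helper52.Tao.MX2

/-!
# Every integer which is not dead has a positive proportion of predecessors
-/

set_option autoImplicit false

namespace Pool.Agent.Helper8.POS

open Finset Pool.Agent.Helper68.Moeller Pool.Agent.Helper52.Tao Pool.Agent.Helper91.PL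

variable {d m Q : ℕ} {r : ℤ → ℤ} {M : ℝ}

theorem exists_Ok (hd : 2 ≤ d) (hdm : d < m) (hco : Nat.Coprime m d)
    (hw : (m : ℝ) ≤ (d : ℝ) ^ ((d : ℝ) / ((d : ℝ) - 1))) (hr : Admissible d m r) :
    ∃ Q : ℕ, Ok d m r Q := by
  have hd2 : (2 : ℝ) ≤ d := by exact_mod_cast hd
  have hd0 : (0 : ℝ) < d := by linarith
  have hg : 0 < gam d m := by
    have h1 := log_m_lt hd hdm hco hw
    have e : (1 - 1 / (d : ℝ)) * Real.log m = (((d : ℝ) - 1) * Real.log m) / d := by
      field_simp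
    unfold gam
    rw [e, sub_pos, div_lt_iff₀ hd0]
    linarith
  obtain ⟨Q, hQ⟩ := exists_nat_ge (16 * Real.log m / gam d m + 16)
  exact ⟨Q, hd, hdm, hco, hr, hg, hQ⟩

theorem Pth_fin (L : ℝ) (a : ℤ) (X : ℝ) : (Pth d m r L a X).Finite := by
  refine (Set.finite_Icc (1 : ℤ) ⌊X⌋).subset ?_
  rintro n ⟨-, h1, h2⟩
  exact ⟨h1, Int.le_floor.2 h2⟩

/-- Paths which end in a path. -/
theorem Pth_trans {a x : ℤ} {L L' : ℝ} {X : ℝ} (hL : L' ≤ L) {s : ℕ} (hs : (T d m r)^[s] x = a)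
    (hp : ∀ i ≤ s, L' ≤ ((T d m r)^[i] x : ℝ)) : Pth d m r L x X ⊆ Pth d m r L' a X := by
  rintro n ⟨⟨t, ht, hpt⟩, hn⟩
  refine ⟨⟨s + t, ?_, fun i hi => ?_⟩, hn⟩
  · rw [Function.iterate_add_apply, ht, hs]
  · rcases le_total i t with h | h
    · exact hL.trans (hpt i h)
    · obtain ⟨j, rfl⟩ := Nat.exists_eq_add_of_le h
      rw [Nat.add_comm t j, Function.iterate_add_apply, ht]
      exact hp j (by omega)

/-- The number of predecessors in terms of the typical mass at one level. -/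
theorem count_of_mass (hO : Ok d m r Q) (hmix : Mixing d m r) (hM : 1 ≤ M) {δ : ℝ} (hδ : 0 < δ) :
    ∃ (t1 : ℕ) (X0 : ℤ), 1 ≤ X0 ∧ ∀ t0 : ℕ, t1 ≤ t0 → ∃ R0 : ℝ, 1 ≤ R0 ∧ ∀ x : ℤ, X0 ≤ x →
      ¬ Per d m r x → δ ≤ Lo d m r (Ty d m Q M t0) (fun z => gg d m r (t0 / Q) z) x →
      ∀ R : ℝ, R0 ≤ R →
        δ / 4 * R ≤ ((Pth d m r (x / (2 * M)) x (2 * d * R * x)).ncard : ℝ) := by
  obtain ⟨C1, hC1, t1, h1⟩ := all_t hO hmix hM
  obtain ⟨C2, hC2, t2, h2⟩ := end_mass hO hmix hM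
  obtain ⟨X0, hX0, t3, h3⟩ := count_big hO hM
  obtain ⟨n1, hn1⟩ := exists_nat_ge (4 * C1 / δ)
  obtain ⟨n2, hn2⟩ := exists_nat_ge (4 * C2 / δ)
  refine ⟨max t1 (n1 + 1), X0, hX0, fun t0 ht0 => ?_⟩
  set q : ℝ := gam d m + 2 * (Real.log m / (Q : ℝ) ^ 2) with hq
  have hlm : 0 ≤ Real.log m := Real.log_natCast_nonneg m
  have hq0 : 0 < q := by
    have := hO.hg
    have h4 : 0 ≤ Real.log m / (Q : ℝ) ^ 2 := by positivity
    rw [hq]
    linarith
  set τ : ℕ := max (max t2 t3) (max (2 * t0) (n2 + 1)) with hτ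
  refine ⟨Real.exp (q * τ), Real.one_le_exp (by positivity), ?_⟩
  intro x hx hper hδx R hR
  have hR0 : 0 < R := lt_of_lt_of_le (Real.exp_pos _) hR
  have hlog : q * τ ≤ Real.log R := (Real.le_log_iff_exp_le hR0).2 hR
  have hlog' : (τ : ℝ) ≤ Real.log R / q := by
    rw [le_div_iff₀ hq0]
    linarith
  set t : ℕ := ⌊Real.log R / q⌋₊ with ht
  have ht1 : τ ≤ t := Nat.le_floor hlog'
  have ht2 : (t : ℝ) ≤ Real.log R / q := Nat.floor_le (le_trans (Nat.cast_nonneg _) hlog')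
  have ht3 : Real.log R / q < t + 1 := Nat.lt_floor_add_one _
  have hR1 : Real.exp (q * t) ≤ R := by
    rw [← Real.le_log_iff_exp_le hR0]
    rw [le_div_iff₀ hq0] at ht2
    linarith
  have hR2 : R ≤ Real.exp (q * (t + 1)) := by
    rw [← Real.log_le_iff_le_exp hR0]
    rw [div_lt_iff₀ hq0] at ht3
    linarith
  have htn2 : n2 + 1 ≤ t := by
    have := le_max_right (2 * t0) (n2 + 1)
    have := le_max_right (max t2 t3) (max (2 * t0) (n2 + 1))
    omega
  have ht2t0 : 2 * t0 ≤ t := by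
    have := le_max_left (2 * t0) (n2 + 1)
    have := le_max_right (max t2 t3) (max (2 * t0) (n2 + 1))
    omega
  have htt2 : t2 ≤ t := by
    have := le_max_left t2 t3
    have := le_max_left (max t2 t3) (max (2 * t0) (n2 + 1))
    omega
  have htt3 : t3 ≤ t := by
    have := le_max_right t2 t3
    have := le_max_left (max t2 t3) (max (2 * t0) (n2 + 1))
    omega
  have ht0n : n1 + 1 ≤ t0 := (le_max_right _ _).trans ht0
  have hb1 : C1 / (t0 : ℝ) ≤ δ / 4 := by
    have h5 : (0 : ℝ) < t0 := by exact_mod_cast (by omega : 0 < t0)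
    rw [div_le_div_iff₀ h5 (by norm_num)]
    have h6 : (n1 : ℝ) ≤ t0 := by exact_mod_cast (by omega : n1 ≤ t0)
    have h7 : 4 * C1 / δ ≤ t0 := hn1.trans h6
    rw [div_le_iff₀ hδ] at h7
    linarith
  have hb2 : C2 / (t : ℝ) ≤ δ / 4 := by
    have h5 : (0 : ℝ) < t := by exact_mod_cast (by omega : 0 < t)
    rw [div_le_div_iff₀ h5 (by norm_num)]
    have h6 : (n2 : ℝ) ≤ t := by exact_mod_cast (by omega : n2 ≤ t)
    have h7 : 4 * C2 / δ ≤ t := hn2.trans h6
    rw [div_le_iff₀ hδ] at h7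
    linarith
  have e1 := h1 t0 t ((le_max_left _ _).trans ht0) ht2t0 x
  have e2 := h2 t htt2 R hR1 hR2 x
  have e3 := h3 t htt3 x hx hper R (le_trans (Real.one_le_exp (by positivity)) hR)
  have e4 : δ / 4 ≤ Lo d m r (Big d m Q M t R) (fun _ => 1) x := by linarith
  have e5 := mul_le_mul_of_nonneg_left e4 hR0.le
  linarith

theorem density_path (hd : 2 ≤ d) (hdm : d < m) (hco : Nat.Coprime m d)
    (hw : (m : ℝ) ≤ (d : ℝ) ^ ((d : ℝ) / ((d : ℝ) - 1))) (hr : Admissible d m r) :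
    ∃ (c : ℝ) (K : ℤ), 0 < c ∧ 1 ≤ K ∧ ∀ (a : ℤ) (X : ℝ), 1 ≤ a → ¬ Dead d m r a → (a : ℝ) ≤ X →
      c * (X / a) ≤ ((Pth d m r (a / K) a X).ncard : ℝ) := by
  obtain ⟨Q, hO⟩ := exists_Ok hd hdm hco hw hr
  have hmix : Mixing d m r := mixing hd hdm hco (mixing_step hd hdm hco hw hr
    (fourier_decay hd hdm hco hw hr (one_block hd hdm hco hw)))
  obtain ⟨κ, hκ⟩ := reach (r := r) hd hdm hco hr
  obtain ⟨δ, hδ, M, hM, t2, hst⟩ := start hO hmix κ
  obtain ⟨t1, X0, hX0, hcm⟩ := count_of_mass hO hmix hM hδ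
  set t0 : ℕ := max t1 t2 with ht0
  obtain ⟨R0, hR0, hcm0⟩ := hcm t0 (le_max_left _ _)
  obtain ⟨K, hK, hre⟩ := hκ (t0 + t0 / Q) X0
  have hd0 : (0 : ℝ) < d := by exact_mod_cast (by omega : 0 < d)
  have hM0 : 0 < M := by linarith
  have hK1 : (1 : ℝ) ≤ K := by exact_mod_cast hK
  have hK0 : (0 : ℝ) < K := by linarith
  -- the constants
  set D : ℝ := 2 * d * R0 * K with hD
  have hD0 : 0 < D := by rw [hD]; positivity
  obtain ⟨K', hK'⟩ := exists_nat_ge (2 * M * K)
  have hK'1 : (1 : ℝ) ≤ K' := by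
    refine le_trans ?_ hK'
    nlinarith
  have hK'0 : (0 : ℝ) < K' := by linarith
  refine ⟨min (1 / D) (δ / (8 * d * K)), K', lt_min (by positivity) (by positivity),
    by exact_mod_cast hK'1, ?_⟩
  intro a X ha hal haX
  have ha1 : (1 : ℝ) ≤ a := by exact_mod_cast ha
  have ha0 : (0 : ℝ) < a := by linarith
  have hX : 0 < X := by linarith
  have hXa : 0 ≤ X / a := by positivity
  rcases lt_or_ge X (D * a) with hlt | hge
  · -- small `X`: the integer `a` itself
    have h1 : (1 : ℝ) ≤ ((Pth d m r (a / (K' : ℤ)) a X).ncard : ℝ) := by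
      have hmem : a ∈ Pth d m r (a / (K' : ℤ)) a X := by
        refine ⟨⟨0, rfl, fun i hi => ?_⟩, by omega, haX⟩
        obtain rfl : i = 0 := by omega
        rw [Function.iterate_zero, id_eq]
        push_cast
        exact div_le_self ha0.le hK'1
      have h2 : 0 < (Pth d m r (a / (K' : ℤ)) a X).ncard :=
        (Set.ncard_pos (Pth_fin _ _ _)).2 ⟨a, hmem⟩
      exact_mod_cast h2
    refine le_trans ?_ h1
    calc min (1 / D) (δ / (8 * d * K)) * (X / a) ≤ 1 / D * (X / a) :=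
          mul_le_mul_of_nonneg_right (min_le_left _ _) hXa
      _ ≤ 1 / D * D := by
          refine mul_le_mul_of_nonneg_left ?_ (by positivity)
          rw [div_le_iff₀ ha0]
          exact hlt.le
      _ = 1 := by field_simp
  · obtain ⟨b, hb, hre'⟩ := hre a ha hal
    obtain ⟨c, hcb, hδc⟩ := hst t0 (le_max_right _ _) b hb
    obtain ⟨x, hxc, hX0x, hxK, hper, s, hs, hpath⟩ := hre' c hcb
    have hPe : Pe m (t0 + t0 / Q)
        (fun z => Lo d m r (Ty d m Q M t0) (fun z => gg d m r (t0 / Q) z) z) :=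
      Pe_Lo (by omega) ((Ty_subset t0).trans (Gd_subset t0)) (Pe_gg (by omega) _)
    have hδx : δ ≤ Lo d m r (Ty d m Q M t0) (fun z => gg d m r (t0 / Q) z) x := by
      have h1 := hPe x c hxc
      simp only at h1
      rw [h1]
      exact hδc
    have hx1 : (1 : ℝ) ≤ x := by exact_mod_cast hX0.trans hX0x
    have hx0 : (0 : ℝ) < x := by linarith
    have hxK' : (x : ℝ) ≤ K * a := by exact_mod_cast hxK
    set R : ℝ := X / (2 * d * x) with hR
    have hRR : R0 ≤ R := by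
      rw [hR, le_div_iff₀ (by positivity)]
      calc R0 * (2 * d * x) ≤ R0 * (2 * d * (K * a)) := by gcongr
        _ = D * a := by rw [hD]; ring
        _ ≤ X := hge
    have h1 := hcm0 x hX0x hper hδx R hRR
    have e1 : 2 * (d : ℝ) * R * x = X := by
      rw [hR]
      field_simp
    rw [e1] at h1
    have hsub : Pth d m r (x / (2 * M)) x X ⊆ Pth d m r (a / (K' : ℤ)) a X := by
      have h0 := hpath 0 (Nat.zero_le _)
      rw [Function.iterate_zero, id_eq] at h0
      have hKK' : (K : ℝ) ≤ K' := by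
        refine le_trans ?_ hK'
        nlinarith
      refine Pth_trans ?_ hs fun i hi => ?_
      · push_cast
        rw [div_le_iff₀ hK0] at h0
        rw [div_le_div_iff₀ hK'0 (by positivity)]
        nlinarith [mul_le_mul_of_nonneg_left hK' hx0.le, mul_pos hM0 hx0]
      · refine le_trans ?_ (hpath i hi)
        push_cast
        exact div_le_div_of_nonneg_left ha0.le hK0 hKK'
    have h2 : ((Pth d m r (x / (2 * M)) x X).ncard : ℝ) ≤
        ((Pth d m r (a / (K' : ℤ)) a X).ncard : ℝ) := by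
      exact_mod_cast Set.ncard_le_ncard hsub (Pth_fin _ _ _)
    refine le_trans ?_ (h1.trans h2)
    calc min (1 / D) (δ / (8 * d * K)) * (X / a) ≤ δ / (8 * d * K) * (X / a) :=
          mul_le_mul_of_nonneg_right (min_le_right _ _) hXa
      _ = δ / 4 * (X / (2 * d * (K * a))) := by field_simp; ring
      _ ≤ δ / 4 * R := by
          refine mul_le_mul_of_nonneg_left ?_ (by positivity)
          rw [hR]
          exact div_le_div_of_nonneg_left hX.le (by positivity) (by gcongr)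

end Pool.Agent.Helper8.POS
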