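import Pool.Agent.Helper8.POS.MixC

/-!
# Block POS-MIXD: the masses and the densities `fk` of the limit law

`gg_nut` with `n = 3`, `k = t / 5` (`t ≤ 10 k` for `t ≥ 5`), and `∑_{c < m ^ k} (nu k c - nut t k c) ≤ (9 / 10) ^ t` (`sum_nu_sub_nut_le`, Helper91/PL/NUa.lean),
`fk k = m ^ k nu k`; the functions `nut t k`, `nu k` are periodic modulo `m ^ k` (`nut_congr`, `nu_congr`), use `mn_shift`.
-/

set_option autoImplicit false

namespace Pool.Agent.Helper8.POS

open Finset Pool.Agent.Helper68.Moeller Pool.Agent.Helper52.Tao Pool.Agent.Helper91.PL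

variable {d m Q : ℕ} {r : ℤ → ℤ}

theorem gg_fk (hO : Ok d m r Q) (hmix : Mixing d m r) {ε : ℝ} (hε : 0 < ε) : ∃ t0 : ℕ,
    ∀ t : ℕ, t0 ≤ t → mn m t (fun z => |gg d m r t z - fk d m r (t / 5) z|) ≤ ε := by
  obtain ⟨C, hC, h⟩ := gg_nut hO hmix 3
  have hm : 1 ≤ m := by
    have h1 := hO.hd
    have h2 := hO.hdm
    omega
  have h9 : ∃ N : ℕ, ∀ t ≥ N, (9 / 10 : ℝ) ^ t ≤ ε / 2 := by
    have h1 := (tendsto_pow_atTop_nhds_zero_of_lt_one (by norm_num : (0 : ℝ) ≤ 9 / 10)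
      (by norm_num)).eventually (ge_mem_nhds (half_pos hε))
    exact Filter.eventually_atTop.1 h1
  obtain ⟨N, hN⟩ := h9
  refine ⟨max N (5 * (⌈20 * C / ε⌉₊ + 1)), fun t ht => ?_⟩
  have htN : N ≤ t := (le_max_left _ _).trans ht
  have ht5 : 5 * (⌈20 * C / ε⌉₊ + 1) ≤ t := (le_max_right _ _).trans ht
  obtain ⟨k, hk⟩ : ∃ k, k = t / 5 := ⟨_, rfl⟩
  rw [← hk]
  have hk1 : ⌈20 * C / ε⌉₊ + 1 ≤ k := by omega
  have hk5 : 5 * k ≤ t := by omega
  have ht10 : t ≤ 10 * k := by omega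
  have hkr : (1 : ℝ) ≤ k := by exact_mod_cast (by omega : 1 ≤ k)
  have hkC : 20 * C / ε ≤ k := by
    have h1 := Nat.le_ceil (20 * C / ε)
    have h2 : ((⌈20 * C / ε⌉₊ : ℕ) : ℝ) ≤ k := by exact_mod_cast (by omega : ⌈20 * C / ε⌉₊ ≤ k)
    exact h1.trans h2
  have hkC' : 20 * C ≤ k * ε := by
    rw [div_le_iff₀ hε] at hkC
    exact hkC
  have h1 := h t k (by omega) hk5
  -- the first term
  have hA : C * t / (k : ℝ) ^ 3 ≤ ε / 2 := by
    have ht' : (t : ℝ) ≤ 10 * k := by exact_mod_cast ht10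
    rw [div_le_iff₀ (by positivity)]
    have h2 : C * t ≤ C * (10 * k) := mul_le_mul_of_nonneg_left ht' hC.le
    have h3 : C * (10 * k) ≤ k * ε / 2 * k := by
      have h4 : 10 * C ≤ k * ε / 2 := by linarith
      have h5 := mul_le_mul_of_nonneg_right h4 (by linarith : (0 : ℝ) ≤ k)
      linarith
    have h6 : (k : ℝ) * ε / 2 * k ≤ ε / 2 * (k : ℝ) ^ 3 := by
      have h7 : (k : ℝ) ^ 2 ≤ (k : ℝ) ^ 3 := by
        have h8 : (k : ℝ) ^ 3 = (k : ℝ) ^ 2 * k := by ring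
        rw [h8]
        exact le_mul_of_one_le_right (by positivity) hkr
      have h8 := mul_le_mul_of_nonneg_left h7 (half_pos hε).le
      have h9 : (k : ℝ) * ε / 2 * k = ε / 2 * (k : ℝ) ^ 2 := by ring
      rw [h9]
      exact h8
    linarith
  -- the second term
  have hPe : Pe m k (fun z => (m : ℝ) ^ k * (nu d m r k z - nut d m r t k z)) := by
    intro x y hxy
    simp only
    rw [nu_congr hxy, nut_congr hxy]
  have hB : mn m t (fun z => (m : ℝ) ^ k * (nu d m r k z - nut d m r t k z)) ≤ ε / 2 := by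
    rw [mn_shift hm (by omega) hPe]
    refine le_trans ?_ (hN t htN)
    refine le_trans ?_ (sum_nu_sub_nut_le (r := r) hO.hd hm hO.hco hk5)
    unfold mn
    rw [← Finset.mul_sum]
    have hm0 : (m : ℝ) ^ k ≠ 0 := by
      have : (0 : ℝ) < m := by exact_mod_cast hm
      positivity
    rw [mul_div_cancel_left₀ _ hm0]
  have hC2 : mn m t (fun z => |gg d m r t z - fk d m r k z|) ≤
      mn m t (fun z => |gg d m r t z - (m : ℝ) ^ k * nut d m r t k z| +
        (m : ℝ) ^ k * (nu d m r k z - nut d m r t k z)) := by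
    apply mn_mono
    intro z
    have h2 : 0 ≤ (m : ℝ) ^ k * (nu d m r k z - nut d m r t k z) :=
      mul_nonneg (by positivity) (sub_nonneg.2 (nut_le_nu t k z))
    have h3 : gg d m r t z - fk d m r k z = (gg d m r t z - (m : ℝ) ^ k * nut d m r t k z) -
        (m : ℝ) ^ k * (nu d m r k z - nut d m r t k z) := by
      unfold fk
      ring
    rw [h3]
    refine (abs_sub _ _).trans ?_
    rw [abs_of_nonneg h2]
  rw [mn_add] at hC2
  linarith

end Pool.Agent.Helper8.POS
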