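import Pool.Agent.Helper8.POS.Mean

/-!
# Block POS-MIXA: one value of S

Compare `dt_step1`, `dt_hit_iff` (Helper91/PL/DT.lean). For `k ≤ S ≤ t` let `G S b = m ^ S cW d t (sg w = S ∧ Hit S b w) / d ^ t` and
`G k b = m ^ k cW d t (sg w = S ∧ Hit k b w) / d ^ t`: the mean (modulo `m ^ t`; shift to the modulus `m ^ S` by `mn_shift`) of `|G S - G k|` is
`Osc d m r e t S S k / d ^ t` (`dt_hit_iff` and the computation in `dt_step1`, `e` from `exists_e`), which is `≤ C / k ^ n` by `Mixing` (`A = n`;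
`Real.rpow_neg`, `Real.rpow_natCast`), for `k ≥ 1`.
-/

set_option autoImplicit false

namespace Pool.Agent.Helper8.POS

open Finset Pool.Agent.Helper68.Moeller Pool.Agent.Helper52.Tao Pool.Agent.Helper91.PL

variable {d m Q : ℕ} {r : ℤ → ℤ}

/-- The mean is the oscillation. -/
private theorem osc_mean1 (hO : Ok d m r Q) {e : ℤ} {t S k : ℕ}
    (he : (m : ℤ) ^ t ∣ (d : ℤ) * e - 1) (hkS : k ≤ S) (hS : S ≤ t) :
    mn m t (fun b => |(m : ℝ) ^ S * cW d t (fun w => sg w = S ∧ Hit d m r S b w) / (d : ℝ) ^ t -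
        (m : ℝ) ^ k * cW d t (fun w => sg w = S ∧ Hit d m r k b w) / (d : ℝ) ^ t|) =
      Osc d m r e t S S k / (d : ℝ) ^ t := by
  have hd : 2 ≤ d := hO.hd
  have hdm : d < m := hO.hdm
  have hm : 0 < m := by omega
  have hm0 : (0 : ℝ) < m := by exact_mod_cast hm
  have hd0 : (0 : ℝ) < d := by
    have : 0 < d := by omega
    exact_mod_cast this
  have hmS : (0 : ℝ) < (m : ℝ) ^ S := by positivity
  have h1 : ∀ b : ℤ, |(m : ℝ) ^ S * cW d t (fun w => sg w = S ∧ Hit d m r S b w) / (d : ℝ) ^ t -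
      (m : ℝ) ^ k * cW d t (fun w => sg w = S ∧ Hit d m r k b w) / (d : ℝ) ^ t| =
      (m : ℝ) ^ S / (d : ℝ) ^ t * |cW d t (fun w => sg w = S ∧ Hit d m r S b w) -
        cW d t (fun w => sg w = S ∧ Hit d m r k b w) / (m : ℝ) ^ (S - k)| := by
    intro b
    have h2 : (m : ℝ) ^ S = (m : ℝ) ^ k * (m : ℝ) ^ (S - k) := by
      rw [← pow_add]
      congr 1
      omega
    have h3 : (m : ℝ) ^ (S - k) ≠ 0 := by positivity
    have h4 : (m : ℝ) ^ S * cW d t (fun w => sg w = S ∧ Hit d m r S b w) / (d : ℝ) ^ t -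
        (m : ℝ) ^ k * cW d t (fun w => sg w = S ∧ Hit d m r k b w) / (d : ℝ) ^ t =
        (m : ℝ) ^ S / (d : ℝ) ^ t * (cW d t (fun w => sg w = S ∧ Hit d m r S b w) -
        cW d t (fun w => sg w = S ∧ Hit d m r k b w) / (m : ℝ) ^ (S - k)) := by
      rw [h2]
      field_simp
    rw [h4, abs_mul, abs_of_nonneg (by positivity : 0 ≤ (m : ℝ) ^ S / (d : ℝ) ^ t)]
  have hPe : Pe m S (fun b : ℤ => |(m : ℝ) ^ S * cW d t (fun w => sg w = S ∧ Hit d m r S b w) /
      (d : ℝ) ^ t -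
      (m : ℝ) ^ k * cW d t (fun w => sg w = S ∧ Hit d m r k b w) / (d : ℝ) ^ t|) := by
    intro x y hxy
    have h4 : (m : ℤ) ^ k ∣ x - y := (pow_dvd_pow _ hkS).trans hxy
    have e1 : cW d t (fun w => sg w = S ∧ Hit d m r S x w) =
        cW d t (fun w => sg w = S ∧ Hit d m r S y w) :=
      cW_congr fun w _ => and_congr_right fun _ => dt_hit_congr hxy w
    have e2 : cW d t (fun w => sg w = S ∧ Hit d m r k x w) =
        cW d t (fun w => sg w = S ∧ Hit d m r k y w) :=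
      cW_congr fun w _ => and_congr_right fun _ => dt_hit_congr h4 w
    show |(m : ℝ) ^ S * cW d t (fun w => sg w = S ∧ Hit d m r S x w) / (d : ℝ) ^ t -
        (m : ℝ) ^ k * cW d t (fun w => sg w = S ∧ Hit d m r k x w) / (d : ℝ) ^ t| =
      |(m : ℝ) ^ S * cW d t (fun w => sg w = S ∧ Hit d m r S y w) / (d : ℝ) ^ t -
        (m : ℝ) ^ k * cW d t (fun w => sg w = S ∧ Hit d m r k y w) / (d : ℝ) ^ t|
    rw [e1, e2]
  rw [mn_shift (by omega : 1 ≤ m) hS hPe]
  unfold mn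
  simp only [h1]
  rw [← Finset.mul_sum]
  have h3 : ∑ c ∈ Finset.range (m ^ S),
      |cW d t (fun w => sg w = S ∧ Hit d m r S (c : ℤ) w) -
        cW d t (fun w => sg w = S ∧ Hit d m r k (c : ℤ) w) / (m : ℝ) ^ (S - k)| =
      Osc d m r e t S S k := by
    unfold Osc
    refine Finset.sum_congr rfl fun c _ => ?_
    have e1 : cW d t (fun w => sg w = S ∧ Hit d m r S (c : ℤ) w) =
        cW d t (fun w => sg w = S ∧ (m : ℤ) ^ S ∣ (c : ℤ) - F m r e w) :=
      cW_congr fun w hw => and_congr_right fun _ => (dt_hit_iff he hS hw c).symm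
    have e2 : cW d t (fun w => sg w = S ∧ Hit d m r k (c : ℤ) w) =
        cW d t (fun w => sg w = S ∧ (m : ℤ) ^ k ∣ (c : ℤ) - F m r e w) :=
      cW_congr fun w hw => and_congr_right fun _ => (dt_hit_iff he (hkS.trans hS) hw c).symm
    rw [e1, e2]
  rw [h3]
  field_simp

/-- One value of `S`. -/
theorem osc_mean (hO : Ok d m r Q) (hmix : Mixing d m r) (n : ℕ) : ∃ C : ℝ, 0 < C ∧
    ∀ t S k : ℕ, 1 ≤ k → k ≤ S → S ≤ t →
      mn m t (fun b => |(m : ℝ) ^ S * cW d t (fun w => sg w = S ∧ Hit d m r S b w) / (d : ℝ) ^ t -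
        (m : ℝ) ^ k * cW d t (fun w => sg w = S ∧ Hit d m r k b w) / (d : ℝ) ^ t|) ≤
        C / (k : ℝ) ^ n := by
  obtain ⟨C, hC, h⟩ := hmix (n : ℝ)
  refine ⟨C, hC, fun t S k hk hkS hS => ?_⟩
  obtain ⟨e, he⟩ := Pool.Agent.Helper52.Tao.exists_e hO.hco t
  rw [osc_mean1 hO he hkS hS]
  have hd0 : (0 : ℝ) < (d : ℝ) ^ t := by
    have h1 := hO.hd
    have : (0 : ℝ) < d := by
      have : 0 < d := by omega
      exact_mod_cast this
    positivity
  have h2 := h S k hk hkS e ((pow_dvd_pow _ hS).trans he) t S le_rfl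
  rw [Real.rpow_neg (by positivity), Real.rpow_natCast] at h2
  rw [div_le_iff₀ hd0]
  refine h2.trans (le_of_eq ?_)
  rw [div_eq_mul_inv]
  ring

end Pool.Agent.Helper8.POS
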