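import Pool.Agent.Helper8.POS.MixA
import Pool.Agent.Helper8.POS.Dev

/-!
# Block POS-MIXB: the mass of all words and the words with at least `k` non-zero digits

`gg t b = ∑_{S ≤ t} m ^ S cW d t (sg w = S ∧ Hit S b w) / d ^ t` (compare `dt_DD`, `dt_fiber` in Helper91/PL/DT.lean), and `m ^ k nut t k b =
∑_{k ≤ S ≤ t} m ^ k cW d t (sg w = S ∧ Hit k b w) / d ^ t`. The difference for `k ≤ S` is bounded by `osc_mean` (exponent `n`, at most `t` values of `S`); the
terms with `S < k` of `gg` have the mean `≤ P (sg w < k)` (`dt_sum_hit_le` with the modulus `m ^ S`, or `mn_Lo` with `A = {w : sg w < k}`). If `5 k ≤ t` then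
`sg w < k` implies `|sg w - p t| > t / 5` (as `p ≥ 1 / 2`), so `P (sg w < k) ≤ C / t ^ n` (`dev_pow` with `δ = 1 / 5`).
-/

set_option autoImplicit false

namespace Pool.Agent.Helper8.POS

open Finset Pool.Agent.Helper68.Moeller Pool.Agent.Helper52.Tao Pool.Agent.Helper91.PL

variable {d m Q : ℕ} {r : ℤ → ℤ}

/-- The mass of the words as a sum over the number of non-zero digits. -/
private theorem gg_eq67 (t : ℕ) (b : ℤ) :
    gg d m r t b = ∑ S ∈ Finset.range (t + 1),
      (m : ℝ) ^ S * cW d t (fun w => sg w = S ∧ Hit d m r S b w) / (d : ℝ) ^ t := by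
  classical
  have h0 : gg d m r t b =
      (∑ w ∈ W d t, if Hit d m r (sg w) b w then (m : ℝ) ^ sg w else 0) / (d : ℝ) ^ t := by
    unfold gg Lo
    rw [Finset.sum_filter, Finset.sum_div]
    refine Finset.sum_congr rfl fun w hw => ?_
    have hlen := length_of_mem_W hw
    by_cases h : Hit d m r (sg w) b w
    · rw [if_pos h, if_pos h]
      unfold sz
      rw [hlen, one_div_div]
    · rw [if_neg h, if_neg h, zero_div]
  rw [h0, ← Finset.sum_div]
  congr 1
  have h1 : ∀ S : ℕ, (m : ℝ) ^ S * cW d t (fun w => sg w = S ∧ Hit d m r S b w) =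
      ∑ w ∈ W d t, if sg w = S ∧ Hit d m r S b w then (m : ℝ) ^ S else 0 := by
    intro S
    rw [cW_eq_sum, Finset.mul_sum]
    refine Finset.sum_congr rfl fun w _ => ?_
    split_ifs <;> simp
  simp only [h1]
  rw [Finset.sum_comm]
  refine Finset.sum_congr rfl fun w hw => ?_
  have h2 : sg w ≤ t := by
    have := sg_le_length w
    rwa [length_of_mem_W hw] at this
  have h3 : ∀ S : ℕ, (if sg w = S ∧ Hit d m r S b w then (m : ℝ) ^ S else 0) =
      if sg w = S then (if Hit d m r (sg w) b w then (m : ℝ) ^ sg w else 0) else 0 := by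
    intro S
    by_cases h : sg w = S
    · subst h
      simp
    · simp [h]
  simp only [h3]
  rw [Finset.sum_ite_eq, if_pos (Finset.mem_range.mpr (by omega))]

/-- `nut` as a sum over the number of non-zero digits. -/
private theorem nut_eq67 (t k : ℕ) (b : ℤ) :
    (m : ℝ) ^ k * nut d m r t k b = ∑ S ∈ (Finset.range (t + 1)).filter (fun S => k ≤ S),
      (m : ℝ) ^ k * cW d t (fun w => sg w = S ∧ Hit d m r k b w) / (d : ℝ) ^ t := by
  classical
  unfold nut
  rw [dt_fiber t (fun S => k ≤ S), mul_div_assoc', Finset.mul_sum, Finset.sum_div]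

/-- Mean values of finite sums. -/
private theorem mn_sum67 {ι : Type} (i : ℕ) (s : Finset ι) (f : ι → ℤ → ℝ) :
    mn m i (fun z => ∑ S ∈ s, f S z) = ∑ S ∈ s, mn m i (f S) := by
  unfold mn
  rw [Finset.sum_comm, Finset.sum_div]

/-- The mean value of one term. -/
private theorem mn_term67 (hd : 1 ≤ d) (hm : 1 ≤ m) (hco : Nat.Coprime m d) {t S : ℕ} (hS : S ≤ t) :
    mn m t (fun b => (m : ℝ) ^ S * cW d t (fun w => sg w = S ∧ Hit d m r S b w) / (d : ℝ) ^ t) ≤
      cW d t (fun w => sg w = S ∧ True) / (d : ℝ) ^ t := by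
  have hm0 : (0 : ℝ) < m := by exact_mod_cast hm
  have hd0 : (0 : ℝ) < d := by exact_mod_cast hd
  rw [mn_shift hm hS (f := fun b =>
    (m : ℝ) ^ S * cW d t (fun w => sg w = S ∧ Hit d m r S b w) / (d : ℝ) ^ t)]
  · unfold mn
    rw [← Finset.sum_div, ← Finset.mul_sum, div_div, div_le_div_iff₀ (by positivity) (by positivity)]
    have h1 := dt_sum_hit_le (r := r) hco t S (fun w => sg w = S)
    have h2 : cW d t (fun w => sg w = S) = cW d t (fun w => sg w = S ∧ True) :=
      cW_congr fun w _ => by simp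
    rw [h2] at h1
    have h3 : (0 : ℝ) < (m : ℝ) ^ S * (d : ℝ) ^ t := by positivity
    have h4 := mul_le_mul_of_nonneg_left h1 h3.le
    refine le_trans (le_of_eq ?_) (h4.trans (le_of_eq ?_))
    · ring
    · ring
  · intro x y hxy
    have h1 : cW d t (fun w => sg w = S ∧ Hit d m r S x w) =
        cW d t (fun w => sg w = S ∧ Hit d m r S y w) :=
      cW_congr fun w _ => and_congr_right fun _ => dt_hit_congr hxy w
    simp only [h1]

theorem gg_nut (hO : Ok d m r Q) (hmix : Mixing d m r) (n : ℕ) : ∃ C : ℝ, 0 < C ∧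
    ∀ t k : ℕ, 1 ≤ k → 5 * k ≤ t →
      mn m t (fun b => |gg d m r t b - (m : ℝ) ^ k * nut d m r t k b|) ≤ C * t / (k : ℝ) ^ n := by
  classical
  obtain ⟨C1, hC1, h1⟩ := osc_mean (Q := Q) hO hmix n
  obtain ⟨C2, hC2, h2⟩ := dev_pow hO.hd (δ := 1 / 5) (by norm_num) n
  refine ⟨C1 + C2, by positivity, fun t k hk hkt => ?_⟩
  have hd : 1 ≤ d := le_trans (by norm_num) hO.hd
  have hm : 1 ≤ m := hd.trans hO.hdm.le
  have hm0 : (0 : ℝ) < m := by exact_mod_cast hm
  have hd0 : (0 : ℝ) < d := by exact_mod_cast hd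
  have hk0 : (0 : ℝ) < k := by exact_mod_cast hk
  have ht1 : 1 ≤ t := by omega
  have ht0 : (1 : ℝ) ≤ t := by exact_mod_cast ht1
  set F1 := (Finset.range (t + 1)).filter (fun S => k ≤ S) with hF1
  set F2 := (Finset.range (t + 1)).filter (fun S => ¬ k ≤ S) with hF2
  have h3 : ∀ b : ℤ, |gg d m r t b - (m : ℝ) ^ k * nut d m r t k b| ≤
      (∑ S ∈ F1, |(m : ℝ) ^ S * cW d t (fun w => sg w = S ∧ Hit d m r S b w) / (d : ℝ) ^ t -
        (m : ℝ) ^ k * cW d t (fun w => sg w = S ∧ Hit d m r k b w) / (d : ℝ) ^ t|) +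
      ∑ S ∈ F2, (m : ℝ) ^ S * cW d t (fun w => sg w = S ∧ Hit d m r S b w) / (d : ℝ) ^ t := by
    intro b
    rw [gg_eq67, nut_eq67, ← Finset.sum_filter_add_sum_filter_not (Finset.range (t + 1))
      (fun S => k ≤ S) (fun S : ℕ =>
        (m : ℝ) ^ S * cW d t (fun w => sg w = S ∧ Hit d m r S b w) / (d : ℝ) ^ t), add_sub_right_comm,
      ← Finset.sum_sub_distrib]
    refine (abs_add_le _ _).trans (add_le_add (Finset.abs_sum_le_sum_abs _ _) (le_of_eq ?_))
    refine abs_of_nonneg (Finset.sum_nonneg fun S _ => ?_)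
    have := cW_nonneg d t (fun w => sg w = S ∧ Hit d m r S b w)
    positivity
  refine (mn_mono t h3).trans ?_
  rw [mn_add, mn_sum67, mn_sum67]
  have hcard : ((F1.card : ℕ) : ℝ) ≤ t := by
    have h4 : F1 ⊆ Finset.Icc 1 t := by
      intro S hS
      rw [hF1, Finset.mem_filter, Finset.mem_range] at hS
      rw [Finset.mem_Icc]
      omega
    have h5 := Finset.card_le_card h4
    rw [Nat.card_Icc] at h5
    exact_mod_cast (by omega : F1.card ≤ t)
  have hA : ∑ S ∈ F1, mn m t (fun b : ℤ =>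
      |(m : ℝ) ^ S * cW d t (fun w => sg w = S ∧ Hit d m r S b w) / (d : ℝ) ^ t -
        (m : ℝ) ^ k * cW d t (fun w => sg w = S ∧ Hit d m r k b w) / (d : ℝ) ^ t|) ≤
      C1 * t / (k : ℝ) ^ n := by
    refine (Finset.sum_le_sum (g := fun _ => C1 / (k : ℝ) ^ n) fun S hS => ?_).trans ?_
    · rw [hF1, Finset.mem_filter, Finset.mem_range] at hS
      exact h1 t S k hk hS.2 (by omega)
    · rw [Finset.sum_const, nsmul_eq_mul]
      have h4 : (F1.card : ℝ) * (C1 / (k : ℝ) ^ n) ≤ t * (C1 / (k : ℝ) ^ n) :=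
        mul_le_mul_of_nonneg_right hcard (by positivity)
      refine h4.trans (le_of_eq ?_)
      ring
  have hB : ∑ S ∈ F2, mn m t (fun b : ℤ =>
      (m : ℝ) ^ S * cW d t (fun w => sg w = S ∧ Hit d m r S b w) / (d : ℝ) ^ t) ≤
      C2 * t / (k : ℝ) ^ n := by
    refine (Finset.sum_le_sum fun S hS => mn_term67 hd hm hO.hco (r := r) (t := t) (S := S) (by
      rw [hF2, Finset.mem_filter, Finset.mem_range] at hS
      omega)).trans ?_
    rw [← Finset.sum_div]
    have h4 := dt_fiber (d := d) t (fun S => ¬ k ≤ S) (fun _ => True)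
    rw [← h4]
    have h5 : cW d t (fun w => ¬ k ≤ sg w ∧ True) ≤
        cW d t (fun w => 1 / 5 * t < |(sg w : ℝ) - (1 - 1 / (d : ℝ)) * t|) := by
      refine cW_mono fun w _ hw => ?_
      have h6 : (sg w : ℝ) < k := by
        have := hw.1
        push Not at this
        exact_mod_cast this
      have h7 : (5 : ℝ) * k ≤ t := by exact_mod_cast hkt
      have h8 : 1 / (d : ℝ) ≤ 1 / 2 := by
        have : (2 : ℝ) ≤ d := by exact_mod_cast hO.hd
        exact one_div_le_one_div_of_le (by norm_num) this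
      have h9 : (t : ℝ) / 2 ≤ (1 - 1 / (d : ℝ)) * t := by nlinarith
      rw [lt_abs]
      right
      linarith
    have h6 := h5.trans (h2 t ht1)
    rw [div_le_iff₀ (by positivity)]
    refine h6.trans ?_
    refine mul_le_mul_of_nonneg_right ?_ (by positivity)
    have h7 : (k : ℝ) ≤ t := by
      have : k ≤ t := by omega
      exact_mod_cast this
    have h8 : (k : ℝ) ^ n ≤ (t : ℝ) ^ n := pow_le_pow_left₀ hk0.le h7 n
    have h9 : C2 / (t : ℝ) ^ n ≤ C2 / (k : ℝ) ^ n :=
      div_le_div_of_nonneg_left hC2.le (by positivity) h8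
    refine h9.trans ?_
    rw [mul_div_right_comm]
    exact le_mul_of_one_le_right (by positivity) ht0
  refine (add_le_add hA hB).trans (le_of_eq ?_)
  ring

end Pool.Agent.Helper8.POS
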