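import Pool.Agent.Helper8.POS.MixB

/-!
# Block POS-MIXC: the masses are a Cauchy sequence in the mean

For `a < 5` use `mn |gg b - gg a| ≤ 2` (`mn_gg`, `mn_shift`, `gg ≥ 0`) and `b / a ^ n ≥ 1 / 5 ^ n`. For `a ≥ 5` take `k = a / 5` (`a ≤ 10 k`) and compare `gg a`, `gg b`
with `m ^ k nut a k`, `m ^ k nut b k` (`gg_nut`, with the exponent `n + 1` for the term of `a`, or simply `a ≤ b`); `nut` is monotone in `t` (`nut_mono`) and
`∑_{c < m ^ k} nut t k c` is the proportion of the words with `k ≤ sg w` (`sum_nut`, Helper91/PL/NUa.lean), so the mean of `m ^ k (nut b k - nut a k)` is at most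
`1 - ∑ nut a k = P (sg w < k) ≤ C / a ^ n` (words of length `a`; `dev_pow` with `δ = 1 / 5`).
-/

set_option autoImplicit false

namespace Pool.Agent.Helper8.POS

open Finset Pool.Agent.Helper68.Moeller Pool.Agent.Helper52.Tao Pool.Agent.Helper91.PL

variable {d m Q : ℕ} {r : ℤ → ℤ}

/-- The masses are nonnegative. -/
theorem mixC_gg_nonneg (j : ℕ) (x : ℤ) : 0 ≤ gg d m r j x := by
  unfold gg Lo sz
  exact Finset.sum_nonneg fun w _ => by positivity

theorem mixC_pow_bdd (n : ℕ) : ∃ C : ℝ, 0 < C ∧ ∀ a : ℕ, 1 ≤ a →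
    (9 / 10 : ℝ) ^ a ≤ C / (a : ℝ) ^ n := by
  have h := (tendsto_pow_const_mul_const_pow_of_lt_one n (by norm_num : (0 : ℝ) ≤ 9 / 10)
    (by norm_num)).bddAbove_range
  obtain ⟨C, hC⟩ := h
  refine ⟨max C 1, lt_max_of_lt_right one_pos, fun a ha => ?_⟩
  have ha0 : (0 : ℝ) < (a : ℝ) ^ n := by
    have : (0 : ℝ) < a := by exact_mod_cast ha
    positivity
  rw [le_div_iff₀ ha0]
  have h1 := hC (Set.mem_range_self a)
  calc (9 / 10 : ℝ) ^ a * (a : ℝ) ^ n = (a : ℝ) ^ n * (9 / 10) ^ a := mul_comm _ _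
    _ ≤ C := h1
    _ ≤ max C 1 := le_max_left _ _

theorem mixC_nut (hO : Ok d m r Q) {a b k : ℕ} (hk : 5 * k ≤ a) (hab : a ≤ b) :
    mn m b (fun z => (m : ℝ) ^ k * nut d m r b k z - (m : ℝ) ^ k * nut d m r a k z) ≤
      (9 / 10 : ℝ) ^ a := by
  have hd := hO.hd
  have hm : 1 ≤ m := by have := hO.hdm; omega
  have hm0 : (0 : ℝ) < m := by exact_mod_cast hm
  have hP : Pe m k (fun z => (m : ℝ) ^ k * nut d m r b k z - (m : ℝ) ^ k * nut d m r a k z) := by
    intro x y hxy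
    simp only
    rw [nut_congr hxy, nut_congr (t := a) hxy]
  rw [mn_shift hm (by omega : k ≤ b) hP]
  unfold mn
  have e : ∑ c ∈ range (m ^ k), ((m : ℝ) ^ k * nut d m r b k (c : ℤ) -
      (m : ℝ) ^ k * nut d m r a k (c : ℤ)) =
      (m : ℝ) ^ k * ∑ c ∈ range (m ^ k), (nut d m r b k (c : ℤ) - nut d m r a k (c : ℤ)) := by
    rw [Finset.mul_sum]
    exact Finset.sum_congr rfl fun c _ => by ring
  rw [e, mul_div_cancel_left₀ _ (by positivity)]
  refine le_trans (Finset.sum_le_sum fun c _ => ?_) (sum_nu_sub_nut_le (r := r) hd hm hO.hco hk)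
  exact sub_le_sub_right (nut_le_nu b k _) _

theorem gg_cauchy (hO : Ok d m r Q) (hmix : Mixing d m r) (n : ℕ) : ∃ C : ℝ, 0 < C ∧
    ∀ a b : ℕ, 1 ≤ a → a ≤ b →
      mn m b (fun z => |gg d m r b z - gg d m r a z|) ≤ C * b / (a : ℝ) ^ n := by
  obtain ⟨C, hC0, hC⟩ := gg_nut hO hmix n
  obtain ⟨C', hC'0, hC'⟩ := mixC_pow_bdd n
  have hd : 1 ≤ d := by have := hO.hd; omega
  have hm : 1 ≤ m := by have := hO.hdm; omega
  refine ⟨2 * 5 ^ n + 2 * C * 10 ^ n + C', by positivity, fun a b ha hab => ?_⟩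
  have ha0 : (0 : ℝ) < a := by exact_mod_cast ha
  have hab' : (a : ℝ) ≤ b := by exact_mod_cast hab
  have hb1 : (1 : ℝ) ≤ b := by
    have : (1 : ℝ) ≤ a := by exact_mod_cast ha
    linarith
  have han : (0 : ℝ) < (a : ℝ) ^ n := by positivity
  rw [le_div_iff₀ han]
  by_cases h5 : a < 5
  · have h1 : mn m b (fun z => |gg d m r b z - gg d m r a z|) ≤ 2 := by
      have h2 : mn m b (fun z => |gg d m r b z - gg d m r a z|) ≤
          mn m b (fun z => gg d m r b z + gg d m r a z) := by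
        refine mn_mono b fun z => ?_
        rw [abs_le]
        have h3 := mixC_gg_nonneg (d := d) (m := m) (r := r) a z
        have h4 := mixC_gg_nonneg (d := d) (m := m) (r := r) b z
        constructor <;> linarith
      rw [mn_add b, mn_gg hd hm hO.hco b, mn_shift hm hab (Pe_gg hm a),
        mn_gg hd hm hO.hco a] at h2
      linarith
    have h6 : (a : ℝ) ^ n ≤ 5 ^ n := by
      refine pow_le_pow_left₀ ha0.le ?_ n
      have : (a : ℝ) < 5 := by exact_mod_cast h5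
      linarith
    have h7 : mn m b (fun z => |gg d m r b z - gg d m r a z|) * (a : ℝ) ^ n ≤ 2 * 5 ^ n :=
      mul_le_mul h1 h6 han.le (by norm_num)
    have h8 : (2 * 5 ^ n + 2 * C * 10 ^ n + C') * 1 ≤ (2 * 5 ^ n + 2 * C * 10 ^ n + C') * (b : ℝ) :=
      mul_le_mul_of_nonneg_left hb1 (by positivity)
    have h9 : 0 ≤ 2 * C * 10 ^ n + C' := by positivity
    linarith
  · rw [not_lt] at h5
    set k : ℕ := a / 5 with hk
    have hk1 : 1 ≤ k := by omega
    have hk5 : 5 * k ≤ a := by omega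
    have hk10 : a ≤ 10 * k := by omega
    have hA := hC a k hk1 hk5
    have hB := hC b k hk1 (hk5.trans hab)
    have hN := mixC_nut (r := r) hO hk5 hab
    have hPa : Pe m a (fun z => |gg d m r a z - (m : ℝ) ^ k * nut d m r a k z|) := by
      intro x y hxy
      simp only
      have hg : gg d m r a x = gg d m r a y := Pe_gg hm a x y hxy
      rw [hg, nut_congr ((pow_dvd_pow (m : ℤ) (by omega : k ≤ a)).trans hxy)]
    rw [← mn_shift hm hab hPa] at hA
    have h2 : mn m b (fun z => |gg d m r b z - gg d m r a z|) ≤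
        mn m b (fun z => (|gg d m r b z - (m : ℝ) ^ k * nut d m r b k z| +
          |gg d m r a z - (m : ℝ) ^ k * nut d m r a k z|) +
          ((m : ℝ) ^ k * nut d m r b k z - (m : ℝ) ^ k * nut d m r a k z)) := by
      refine mn_mono b fun z => ?_
      have h3 : (m : ℝ) ^ k * nut d m r a k z ≤ (m : ℝ) ^ k * nut d m r b k z :=
        mul_le_mul_of_nonneg_left (nut_mono hd k z hab) (by positivity)
      have h4 := abs_le.1 (le_refl |gg d m r b z - (m : ℝ) ^ k * nut d m r b k z|)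
      have h5 := abs_le.1 (le_refl |gg d m r a z - (m : ℝ) ^ k * nut d m r a k z|)
      rw [abs_le]
      constructor
      · linarith [h4.1, h5.2]
      · linarith [h4.2, h5.1]
    rw [mn_add b, mn_add b] at h2
    have hk0 : (0 : ℝ) < (k : ℝ) ^ n := by
      have : (0 : ℝ) < k := by exact_mod_cast hk1
      positivity
    have h10 : (a : ℝ) ^ n ≤ 10 ^ n * (k : ℝ) ^ n := by
      rw [← mul_pow]
      refine pow_le_pow_left₀ ha0.le ?_ n
      exact_mod_cast hk10
    have hA' : C * a / (k : ℝ) ^ n * (a : ℝ) ^ n ≤ C * 10 ^ n * b := by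
      rw [div_mul_eq_mul_div, div_le_iff₀ hk0]
      calc C * a * (a : ℝ) ^ n ≤ C * b * (10 ^ n * (k : ℝ) ^ n) := by gcongr
        _ = C * 10 ^ n * b * (k : ℝ) ^ n := by ring
    have hB' : C * b / (k : ℝ) ^ n * (a : ℝ) ^ n ≤ C * 10 ^ n * b := by
      rw [div_mul_eq_mul_div, div_le_iff₀ hk0]
      calc C * b * (a : ℝ) ^ n ≤ C * b * (10 ^ n * (k : ℝ) ^ n) := by gcongr
        _ = C * 10 ^ n * b * (k : ℝ) ^ n := by ring
    have hN' : (9 / 10 : ℝ) ^ a * (a : ℝ) ^ n ≤ C' := by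
      have := hC' a ha
      rwa [le_div_iff₀ han] at this
    have h11 : mn m b (fun z => |gg d m r b z - gg d m r a z|) * (a : ℝ) ^ n ≤
        (C * b / (k : ℝ) ^ n + C * a / (k : ℝ) ^ n + (9 / 10 : ℝ) ^ a) * (a : ℝ) ^ n := by
      refine mul_le_mul_of_nonneg_right ?_ han.le
      linarith
    have h12 : C' ≤ C' * (b : ℝ) := le_mul_of_one_le_right hC'0.le hb1
    have h13 : 0 ≤ 2 * 5 ^ n * (b : ℝ) := by positivity
    calc mn m b (fun z => |gg d m r b z - gg d m r a z|) * (a : ℝ) ^ n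
        ≤ (C * b / (k : ℝ) ^ n + C * a / (k : ℝ) ^ n + (9 / 10 : ℝ) ^ a) * (a : ℝ) ^ n := h11
      _ = C * b / (k : ℝ) ^ n * (a : ℝ) ^ n + C * a / (k : ℝ) ^ n * (a : ℝ) ^ n +
          (9 / 10 : ℝ) ^ a * (a : ℝ) ^ n := by ring
      _ ≤ C * 10 ^ n * b + C * 10 ^ n * b + C' := by linarith
      _ ≤ (2 * 5 ^ n + 2 * C * 10 ^ n + C') * b := by nlinarith

end Pool.Agent.Helper8.POS
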