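import Pool.Agent.Helper8.PRE.P8d
import Pool.Agent.Helper8.PRE.P8e
import Pool.Agent.Helper91.PL.TR
import Pool.Agent.Helper8.POS.Defs

/-!
# Block POS-REACHA: predecessors in every class near an integer which is not dead

Let `s0` be as in `dead_mod_all`, `P = φ(m ^ (s0 + 1))` (so `m ^ (s0 + 1) ∣ d ^ P - 1`), `|r j| ≤ B` for `0 < j < d`.
1. Let `a ≥ 1` be not dead. Then `0 < nu (s0 + 1) a` (`dead_iff`), so (`nu_pos_iff`) there is a word `w` with `sg w = s0 + 1`, `Hit (s0 + 1) a w`. Write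
   `w = replicate l 0 ++ j :: v`, `0 < j < d` (compare `p8b_split`, `p8b_hit_zeros`, `hit_cons_iff` in Helper8/PRE/P8b, P8d): so `m b = d ^ (l + 1) a + r j`
   with `b ∈ ℤ` and `0 < nu s0 b`, so `b` is not dead. We may replace `l` by any `l' ≡ l (mod P)`, `l' ≥ 0`: then `b' - b` is divisible by `m ^ s0`,
   so `b'` is not dead. Let `l₀` be such that `d ^ l₀ ≥ 2 B + 2 m`; take `l ∈ [l₀, l₀ + P)` and the candidates
   `b_i = (d ^ (l + i P + 1) a + r j) / m`, `i ≤ I = m + 2`. They are `≥ 1`, `≥ a / (2 m)`, `≤ K₁ a`; `b_i ≡ j (mod d)` and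
   `T b_i = d ^ (l + i P) a`, so `T^[l + i P + 1] b_i = a`, and the integers of the path are `b_i` and `d ^ n a ≥ a`.
2. At most one `b_i` is periodic: if `b_i`, `b_{i'}` (`i < i'`) are periodic then `d ^ (l + i P + 1) a`, a point of the orbit of `b_{i'}`, is periodic and has the same
   image under `T` as `b_i`, so it is equal to `b_i` (`tr_per_inj` with `N = 1`), but `d ∤ b_i`.
3. For a prime `p ∣ m` let `V` be so large that `p ^ V` does not divide `r j` (`0 < j < d`; `r j ≠ 0`, `p8b_r_ne`), nor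
   `(d ^ (n P) - 1) * p ^ v` for `1 ≤ n ≤ I`, whenever `p ^ v` does not divide some `r j`, … : there is `V₂` such that `p ^ V₂ ∣ b_i`, `p ^ V₂ ∣ b_{i'}` is impossible for `i < i'`: the
   difference is `d ^ (..) (d ^ ((i' - i) P) - 1) a / m`, so a high power of `p` divides `a`, and then it divides `r j = m b_i - d ^ (..) a`.
   So every prime `p ∣ m` (there are at most `m` of them) and the condition of 2. exclude at most one `i` each, and some `b = b_i` is not periodic and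
   is not divisible by `p ^ V₂` for any prime `p ∣ m`. Hence `b ∣ m ^ V b₂`… : for every `N` and every `z` there is `z'` with `m ^ N ∣ b z' - m ^ V z`
   (`gcd (b, m ^ N)` divides `m ^ V`, `V = V₂`).
-/

set_option autoImplicit false

namespace Pool.Agent.Helper8.POS

open Finset Pool.Agent.Helper68.Moeller Pool.Agent.Helper52.Tao Pool.Agent.Helper91.PL

variable {d m : ℕ} {r : ℤ → ℤ}

private lemma T_pow53 (hd : 2 ≤ d) (n : ℕ) (a : ℤ) :
    T d m r ((d : ℤ) ^ (n + 1) * a) = (d : ℤ) ^ n * a := by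
  have hd0 : (d : ℤ) ≠ 0 := by exact_mod_cast (by omega : d ≠ 0)
  unfold T
  rw [if_pos (Dvd.dvd.mul_right (dvd_pow_self _ (by omega)) a), pow_succ', mul_assoc,
    Int.mul_ediv_cancel_left _ hd0]

private lemma T_iter53 (hd : 2 ≤ d) (a : ℤ) (k n : ℕ) :
    (T d m r)^[k] ((d : ℤ) ^ (n + k) * a) = (d : ℤ) ^ n * a := by
  induction k generalizing n with
  | zero => rfl
  | succ k ih =>
    rw [Function.iterate_succ_apply, ← add_assoc, T_pow53 hd]
    exact ih n

private lemma T_cand53 (hd : 2 ≤ d) (hco : Nat.Coprime m d) (hr : Admissible d m r) {j L : ℕ}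
    (hj0 : 0 < j) (hjd : j < d) {a b : ℤ} (hb : (m : ℤ) * b = (d : ℤ) ^ (L + 1) * a + r j) :
    ¬ (d : ℤ) ∣ b ∧ T d m r b = (d : ℤ) ^ L * a := by
  have hd0 : (d : ℤ) ≠ 0 := by exact_mod_cast (by omega : d ≠ 0)
  have h1 : (d : ℤ) ∣ (m : ℤ) * j - r j := (hr j (by exact_mod_cast hj0) (by exact_mod_cast hjd)).dvd
  have h2 : (d : ℤ) ∣ (m : ℤ) * (b - j) := by
    have e : (m : ℤ) * (b - j) = (d : ℤ) ^ (L + 1) * a - ((m : ℤ) * j - r j) := by
      rw [mul_sub, hb]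
      ring
    rw [e]
    exact dvd_sub (Dvd.dvd.mul_right (dvd_pow_self _ (by omega)) a) h1
  have h3 : (d : ℤ) ∣ b - j :=
    ((Nat.isCoprime_iff_coprime.2 hco).symm).dvd_of_dvd_mul_left h2
  have h4 : b % (d : ℤ) = j := by
    have h5 : b % (d : ℤ) = (j : ℤ) % (d : ℤ) := (Int.modEq_iff_dvd.2 h3).symm
    rw [h5]
    exact Int.emod_eq_of_lt (by positivity) (by exact_mod_cast hjd)
  have h5 : ¬ (d : ℤ) ∣ b := by
    intro h
    rw [Int.emod_eq_zero_of_dvd h] at h4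
    have : (j : ℤ) = 0 := h4.symm
    have : j = 0 := by exact_mod_cast this
    omega
  refine ⟨h5, ?_⟩
  unfold T
  rw [if_neg h5, h4, hb, add_sub_cancel_right, pow_succ', mul_assoc,
    Int.mul_ediv_cancel_left _ hd0]

private lemma gcd53 (hm : 2 ≤ m) {V : ℕ} {b : ℤ} (hb : 1 ≤ b)
    (h : ∀ p ∈ m.primeFactors, ¬ (p : ℤ) ^ V ∣ b) (N : ℕ) (z : ℤ) :
    ∃ z' : ℤ, (m : ℤ) ^ N ∣ b * z' - (m : ℤ) ^ V * z := by
  obtain ⟨n, rfl⟩ := Int.eq_ofNat_of_zero_le (by omega : 0 ≤ b)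
  have hn : n ≠ 0 := by
    rintro rfl
    simp at hb
  have hG : Nat.gcd n (m ^ N) ∣ m ^ V := by
    have hG0 : Nat.gcd n (m ^ N) ≠ 0 := fun h0 => hn (Nat.gcd_eq_zero_iff.1 h0).1
    rw [← Nat.factorization_prime_le_iff_dvd hG0 (pow_ne_zero _ (by omega))]
    intro p hp
    rw [Nat.factorization_pow, Finsupp.smul_apply, smul_eq_mul]
    by_cases hpm : p ∣ m
    · have h1 : ¬ p ^ V ∣ Nat.gcd n (m ^ N) := by
        intro h2
        apply h p (Nat.mem_primeFactors.2 ⟨hp, hpm, by omega⟩)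
        exact_mod_cast h2.trans (Nat.gcd_dvd_left _ _)
      rw [hp.pow_dvd_iff_le_factorization hG0] at h1
      have h2 : 1 ≤ m.factorization p := (hp.dvd_iff_one_le_factorization (by omega)).1 hpm
      have h3 : V * 1 ≤ V * m.factorization p := Nat.mul_le_mul_left V h2
      omega
    · have h1 : (Nat.gcd n (m ^ N)).factorization p = 0 := by
        apply Nat.factorization_eq_zero_of_not_dvd
        intro h2
        exact hpm (hp.dvd_of_dvd_pow (h2.trans (Nat.gcd_dvd_right _ _)))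
      rw [h1]
      exact Nat.zero_le _
  obtain ⟨c, hc⟩ := hG
  have hbez := Nat.gcd_eq_gcd_ab n (m ^ N)
  refine ⟨Nat.gcdA n (m ^ N) * c * z, ⟨-(Nat.gcdB n (m ^ N) * c * z), ?_⟩⟩
  have hc' : (m : ℤ) ^ V = ((Nat.gcd n (m ^ N) : ℕ) : ℤ) * c := by exact_mod_cast hc
  rw [hc', hbez]
  push_cast
  ring

/-- Steps 1-3. -/
theorem exists_base_pt (hd : 2 ≤ d) (hdm : d < m) (hco : Nat.Coprime m d) (hr : Admissible d m r) :
    ∃ (V : ℕ) (K : ℤ), 1 ≤ K ∧ ∀ a : ℤ, 1 ≤ a → ¬ Dead d m r a → ∃ b : ℤ, ¬ Dead d m r b ∧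
      1 ≤ b ∧ b ≤ K * a ∧ ¬ Per d m r b ∧
      (∀ (N : ℕ) (z : ℤ), ∃ z' : ℤ, (m : ℤ) ^ N ∣ b * z' - (m : ℤ) ^ V * z) ∧
      ∃ s : ℕ, (T d m r)^[s] b = a ∧ ∀ i ≤ s, (a : ℝ) / K ≤ ((T d m r)^[i] b : ℝ) := by
  classical
  obtain ⟨s0, hs1, hs2⟩ := PRE.dead_mod_all hd hdm hco hr
  obtain ⟨P, hP1, hP⟩ := PRE.p8b_period hd hco (s0 + 1) 1
  obtain ⟨B, hB⟩ := tr_bound d r
  have hd0 : (0 : ℤ) < d := by exact_mod_cast (by omega : 0 < d)
  have hm0 : (0 : ℤ) < m := by exact_mod_cast (by omega : 0 < m)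
  obtain ⟨l₀, hl₀⟩ : ∃ l₀ : ℕ, 2 * (B : ℤ) + 2 * m ≤ (d : ℤ) ^ l₀ := by
    refine ⟨2 * B + 2 * m, ?_⟩
    have h1 : 2 * B + 2 * m < d ^ (2 * B + 2 * m) := Nat.lt_pow_self (by omega)
    exact_mod_cast h1.le
  obtain ⟨F, hF⟩ : ∃ F : ℕ, F = d ^ ((m + 3) * P) := ⟨_, rfl⟩
  obtain ⟨K, hK⟩ : ∃ K : ℤ, K = (d : ℤ) ^ (l₀ + P + (m + 3) * P + 1) + B := ⟨_, rfl⟩
  have hK1 : 1 ≤ K := by
    have h1 : (1 : ℤ) ≤ (d : ℤ) ^ (l₀ + P + (m + 3) * P + 1) := one_le_pow₀ (by omega)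
    rw [hK]
    omega
  refine ⟨B + 1 + F, K, hK1, fun a ha hdead => ?_⟩
  -- a word with `s0 + 1` non-zero digits
  have hnu : 0 < nu d m r (s0 + 1) a := by
    rw [dead_iff hd hdm hco hr] at hdead
    push Not at hdead
    exact lt_of_le_of_ne (nu_nonneg _ _) (Ne.symm (hdead (s0 + 1)))
  rw [nu_pos_iff hd hco] at hnu
  obtain ⟨t, w, hw, hsg, hhit⟩ := hnu
  obtain ⟨i0, j, w', hj, rfl⟩ := PRE.p8b_split w (by omega)
  have hw2 := (mem_W.1 hw).2
  have hjd : j < d := hw2 j (by simp)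
  have hj0 : 0 < j := Nat.pos_of_ne_zero hj
  rw [PRE.p8b_hit_zeros] at hhit
  have hsg' : sg w' = s0 := by
    rw [sg_append, PRE.p8b_sg_replicate, sg_cons, nz_of_ne hj] at hsg
    omega
  obtain ⟨b0, hb0⟩ := PRE.hit_cons_dvd hco s0 hj hhit
  rw [PRE.hit_cons_iff (by omega) s0 hj hb0] at hhit
  have hb0pos : 0 < nu d m r s0 b0 := by
    rw [nu_pos_iff hd hco]
    exact ⟨w'.length, w', mem_W.2 ⟨rfl, fun b hb => hw2 b (by simp [hb])⟩, hsg', hhit⟩
  have hb0d : ¬ Dead d m r b0 := hs2 b0 hb0pos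
  have hrj : |r j| ≤ B := hB j (by exact_mod_cast hj0) (by exact_mod_cast hjd)
  have hrj0 : r j ≠ 0 := PRE.p8b_r_ne hd hco hr hj0 hjd
  have hpow : ∀ n : ℕ, (d : ℤ) ^ n ≡ (d : ℤ) ^ (n % P) [ZMOD (m : ℤ) ^ (s0 + 1)] := by
    intro n
    have h1 : (d : ℤ) ^ P ≡ 1 [ZMOD (m : ℤ) ^ (s0 + 1)] := (Int.modEq_iff_dvd.2 hP).symm
    have h2 := ((h1.pow (n / P)).mul_left ((d : ℤ) ^ (n % P)))
    rw [one_pow, mul_one, ← pow_mul, ← pow_add, Nat.mod_add_div] at h2
    exact h2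
  obtain ⟨l, hl1, hl2, hl3⟩ : ∃ l : ℕ, l₀ ≤ l ∧ l < l₀ + P ∧ l % P = i0 % P := by
    refine ⟨l₀ + (i0 + (P - 1) * l₀) % P, by omega,
      Nat.add_lt_add_left (Nat.mod_lt _ (by omega)) _, ?_⟩
    rw [Nat.add_mod_mod]
    have e : l₀ + (i0 + (P - 1) * l₀) = i0 + P * l₀ := by
      have : l₀ + (P - 1) * l₀ = P * l₀ := by
        calc l₀ + (P - 1) * l₀ = (1 + (P - 1)) * l₀ := by ring
          _ = P * l₀ := by congr 1; omega
      omega
    rw [e, Nat.add_mul_mod_self_left]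
  have hcand : ∀ i : ℕ, ∃ b : ℤ, (m : ℤ) * b = (d : ℤ) ^ (l + i * P + 1) * a + r j ∧
      ¬ Dead d m r b := by
    intro i
    have h1 : (l + i * P) % P = i0 % P := by
      rw [Nat.add_mul_mod_self_right, hl3]
    have h2 : (d : ℤ) ^ i0 ≡ (d : ℤ) ^ (l + i * P) [ZMOD (m : ℤ) ^ (s0 + 1)] := by
      refine (hpow i0).trans ?_
      rw [← h1]
      exact (hpow _).symm
    obtain ⟨q, hq⟩ := h2.dvd
    refine ⟨b0 + (m : ℤ) ^ s0 * (d * q * a), ?_, ?_⟩
    · have e : (d : ℤ) ^ (l + i * P) = (d : ℤ) ^ i0 + (m : ℤ) ^ (s0 + 1) * q := by linarith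
      rw [pow_succ', e, mul_add, ← hb0]
      ring
    · rw [hs1 (b0 + (m : ℤ) ^ s0 * (d * q * a)) b0 ⟨d * q * a, by ring⟩]
      exact hb0d
  choose β hβ hβd using hcand
  have hT : ∀ i, ¬ (d : ℤ) ∣ β i ∧ T d m r (β i) = (d : ℤ) ^ (l + i * P) * a := fun i =>
    T_cand53 hd hco hr hj0 hjd (hβ i)
  -- the periodic candidates
  have hper : ∀ i i' : ℕ, i < i' → Per d m r (β i) → Per d m r (β i') → False := by
    intro i i' hii h1 h2
    have hle : l + i * P + 1 ≤ l + i' * P := by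
      have h3 : (i + 1) * P ≤ i' * P := Nat.mul_le_mul_right P hii
      have h4 : (i + 1) * P = i * P + P := by ring
      omega
    obtain ⟨k, hk⟩ : ∃ k, l + i' * P = (l + i * P + 1) + k := ⟨_, (Nat.add_sub_cancel' hle).symm⟩
    have h3 : (T d m r)^[k + 1] (β i') = (d : ℤ) ^ (l + i * P + 1) * a := by
      rw [Function.iterate_succ_apply, (hT i').2, hk, T_iter53 hd]
    have h4 : Per d m r ((d : ℤ) ^ (l + i * P + 1) * a) := by
      rw [← h3]
      exact tr_per_iter h2 _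
    have h5 : (d : ℤ) ^ (l + i * P + 1) * a = β i := by
      refine tr_per_inj (d := d) (m := m) (r := r) 1 h4 h1 ?_
      rw [Function.iterate_one, T_pow53 hd, (hT i).2]
    apply (hT i).1
    rw [← h5]
    exact Dvd.dvd.mul_right (dvd_pow_self _ (by omega)) a
  -- the candidates divisible by a high power of a prime
  have hpr : ∀ p ∈ m.primeFactors, ∀ i i' : ℕ, i < i' → i' < m + 3 →
      (p : ℤ) ^ (B + 1 + F) ∣ β i → (p : ℤ) ^ (B + 1 + F) ∣ β i' → False := by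
    intro p hpm i i' hii hi' h1 h2
    obtain ⟨hp, hpdvd, -⟩ := Nat.mem_primeFactors.1 hpm
    have hpP : Prime (p : ℤ) := Nat.prime_iff_prime_int.1 hp
    have hpd : ¬ (p : ℤ) ∣ (d : ℤ) ^ (l + i * P + 1) := by
      intro h
      have h3 : (p : ℤ) ∣ d := hpP.dvd_of_dvd_pow h
      have h4 : p ∣ d := by exact_mod_cast h3
      have h5 : p ∣ Nat.gcd m d := Nat.dvd_gcd hpdvd h4
      rw [hco] at h5
      exact hp.one_lt.ne' (Nat.dvd_one.1 h5)
    obtain ⟨n, hn⟩ : ∃ n, i' = i + n := ⟨_, (Nat.add_sub_cancel' hii.le).symm⟩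
    have hn1 : 1 ≤ n := by omega
    have h3 : (p : ℤ) ^ (B + 1 + F) ∣ (d : ℤ) ^ (l + i * P + 1) * (((d : ℤ) ^ (n * P) - 1) * a) := by
      have e : (d : ℤ) ^ (l + i * P + 1) * (((d : ℤ) ^ (n * P) - 1) * a) =
          (m : ℤ) * β i' - (m : ℤ) * β i := by
        rw [hβ, hβ, hn, show l + (i + n) * P + 1 = (l + i * P + 1) + n * P by ring, pow_add]
        ring
      rw [e]
      exact dvd_sub (Dvd.dvd.mul_left h2 _) (Dvd.dvd.mul_left h1 _)
    have h4 := hpP.pow_dvd_of_dvd_mul_left _ hpd h3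
    have hx1 : 0 < (d : ℤ) ^ (n * P) - 1 := by
      have h5 : (1 : ℤ) < (d : ℤ) ^ (n * P) :=
        one_lt_pow₀ (by exact_mod_cast (by omega : 1 < d)) (Nat.mul_ne_zero (by omega) (by omega))
      omega
    have hx2 : (d : ℤ) ^ (n * P) ≤ F := by
      rw [hF]
      push_cast
      exact pow_le_pow_right₀ (by omega) (Nat.mul_le_mul_right P (by omega))
    have hx3 : ¬ (p : ℤ) ^ (F + 1) ∣ (d : ℤ) ^ (n * P) - 1 := by
      intro h
      have h5 := Int.le_of_dvd hx1 h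
      have h6 : F + 1 < p ^ (F + 1) := Nat.lt_pow_self hp.one_lt
      have h7 : ((F + 1 : ℕ) : ℤ) < (p : ℤ) ^ (F + 1) := by exact_mod_cast h6
      push_cast at h7
      omega
    obtain ⟨e', he', u, hu, hpu⟩ := PRE.p8b_factor p F _ hx3
    have h5 : (p : ℤ) ^ (B + 1) ∣ a := by
      rw [hu, mul_assoc] at h4
      have e1 : B + 1 + F = e' + (B + 1 + (F - e')) := by omega
      rw [e1, pow_add] at h4
      have h6 := (mul_dvd_mul_iff_left (pow_ne_zero e' hpP.ne_zero)).1 h4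
      have h7 := hpP.pow_dvd_of_dvd_mul_left _ hpu h6
      exact (pow_dvd_pow _ (by omega)).trans h7
    have h6 : (p : ℤ) ^ (B + 1) ∣ r j := by
      have e : r j = (m : ℤ) * β i - (d : ℤ) ^ (l + i * P + 1) * a := by rw [hβ]; ring
      rw [e]
      exact dvd_sub (Dvd.dvd.mul_left ((pow_dvd_pow _ (by omega)).trans h1) _)
        (Dvd.dvd.mul_left h5 _)
    have h7 : (p : ℤ) ^ (B + 1) ≤ |r j| :=
      Int.le_of_dvd (abs_pos.2 hrj0) ((dvd_abs _ _).2 h6)
    have h8 : B + 1 < p ^ (B + 1) := Nat.lt_pow_self hp.one_lt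
    have h9 : ((B + 1 : ℕ) : ℤ) < (p : ℤ) ^ (B + 1) := by exact_mod_cast h8
    push_cast at h9
    omega
  have hex : ∃ i < m + 3, ¬ Per d m r (β i) ∧
      ∀ p ∈ m.primeFactors, ¬ (p : ℤ) ^ (B + 1 + F) ∣ β i := by
    by_contra hcon
    push Not at hcon
    have hsub : range (m + 3) ⊆ (range (m + 3)).filter (fun i => Per d m r (β i)) ∪
        m.primeFactors.biUnion (fun p => (range (m + 3)).filter
          (fun i => (p : ℤ) ^ (B + 1 + F) ∣ β i)) := by
      intro i hi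
      rw [Finset.mem_union]
      by_cases h : Per d m r (β i)
      · left
        exact Finset.mem_filter.2 ⟨hi, h⟩
      · right
        obtain ⟨p, hp, hdv⟩ := hcon i (Finset.mem_range.1 hi) h
        exact Finset.mem_biUnion.2 ⟨p, hp, Finset.mem_filter.2 ⟨hi, hdv⟩⟩
    have h1 : ((range (m + 3)).filter (fun i => Per d m r (β i))).card ≤ 1 := by
      rw [Finset.card_le_one]
      intro x hx y hy
      rw [Finset.mem_filter] at hx hy
      rcases lt_trichotomy x y with h | h | h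
      · exact (hper x y h hx.2 hy.2).elim
      · exact h
      · exact (hper y x h hy.2 hx.2).elim
    have h2 : ∀ p ∈ m.primeFactors, ((range (m + 3)).filter
        (fun i => (p : ℤ) ^ (B + 1 + F) ∣ β i)).card ≤ 1 := by
      intro p hp
      rw [Finset.card_le_one]
      intro x hx y hy
      rw [Finset.mem_filter, Finset.mem_range] at hx hy
      rcases lt_trichotomy x y with h | h | h
      · exact (hpr p hp x y h hy.1 hx.2 hy.2).elim
      · exact h
      · exact (hpr p hp y x h hx.1 hy.2 hx.2).elim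
    have h3 := Finset.card_le_card hsub
    rw [Finset.card_range] at h3
    have h4 := Finset.card_union_le ((range (m + 3)).filter (fun i => Per d m r (β i)))
      (m.primeFactors.biUnion (fun p => (range (m + 3)).filter
          (fun i => (p : ℤ) ^ (B + 1 + F) ∣ β i)))
    have h5 : (m.primeFactors.biUnion (fun p => (range (m + 3)).filter
          (fun i => (p : ℤ) ^ (B + 1 + F) ∣ β i))).card ≤ m.primeFactors.card * 1 :=
      Finset.card_biUnion_le_card_mul _ _ _ h2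
    have h6 : m.primeFactors.card ≤ m + 1 := by
      have h7 : m.primeFactors ⊆ range (m + 1) := fun p hp => Finset.mem_range.2
        (Nat.lt_succ_of_le (Nat.le_of_mem_primeFactors hp))
      have h8 := Finset.card_le_card h7
      rwa [Finset.card_range] at h8
    omega
  obtain ⟨i, hi, hnper, hnp⟩ := hex
  have hLl : l₀ ≤ l + i * P := by omega
  have hdl : 2 * (B : ℤ) + 2 * m ≤ (d : ℤ) ^ (l + i * P) :=
    hl₀.trans (pow_le_pow_right₀ (by omega) hLl)
  have hdl' : (d : ℤ) ^ (l + i * P) ≤ (d : ℤ) ^ (l + i * P + 1) :=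
    pow_le_pow_right₀ (by omega) (by omega)
  have hab := abs_le.1 hrj
  have hB0 : (0 : ℤ) ≤ B := by positivity
  have hba : a ≤ β i := by
    have h1 : (m : ℤ) * a ≤ (m : ℤ) * β i := by
      rw [hβ]
      have h2 : (2 * (B : ℤ) + 2 * m) * a ≤ (d : ℤ) ^ (l + i * P + 1) * a :=
        mul_le_mul_of_nonneg_right (hdl.trans hdl') (by omega)
      have h3 : (B : ℤ) * 1 ≤ B * a := mul_le_mul_of_nonneg_left ha hB0
      have h4 : 0 ≤ (m : ℤ) * a := by positivity
      nlinarith [hab.1]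
    exact le_of_mul_le_mul_left h1 hm0
  have hbK : β i ≤ K * a := by
    have h1 : (d : ℤ) ^ (l + i * P + 1) ≤ (d : ℤ) ^ (l₀ + P + (m + 3) * P + 1) := by
      apply pow_le_pow_right₀ (by omega)
      have h2 : i * P ≤ (m + 3) * P := Nat.mul_le_mul_right P hi.le
      omega
    have h2 : (m : ℤ) * β i ≤ K * a := by
      rw [hβ, hK, add_mul]
      have h3 : (d : ℤ) ^ (l + i * P + 1) * a ≤ (d : ℤ) ^ (l₀ + P + (m + 3) * P + 1) * a :=
        mul_le_mul_of_nonneg_right h1 (by omega)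
      have h4 : (B : ℤ) * 1 ≤ B * a := mul_le_mul_of_nonneg_left ha hB0
      linarith [hab.2]
    have h3 : 1 * β i ≤ (m : ℤ) * β i := mul_le_mul_of_nonneg_right (by omega) (by omega)
    linarith
  refine ⟨β i, hβd i, by omega, hbK, hnper, gcd53 (by omega) (by omega) hnp,
    l + i * P + 1, ?_, ?_⟩
  · rw [Function.iterate_succ_apply, (hT i).2]
    have h1 := T_iter53 (m := m) (r := r) hd a (l + i * P) 0
    rwa [zero_add, pow_zero, one_mul] at h1
  · intro k hk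
    have hKR : (1 : ℝ) ≤ (K : ℝ) := by exact_mod_cast hK1
    have haR : (0 : ℝ) ≤ (a : ℝ) := by exact_mod_cast (by omega : (0 : ℤ) ≤ a)
    have h1 : (a : ℝ) / K ≤ a := div_le_self haR hKR
    refine h1.trans ?_
    have h2 : a ≤ (T d m r)^[k] (β i) := by
      rcases Nat.eq_zero_or_pos k with rfl | hk0
      · exact hba
      · obtain ⟨k', rfl⟩ : ∃ k', k = k' + 1 := ⟨k - 1, by omega⟩
        rw [Function.iterate_succ_apply, (hT i).2]
        have h3 := T_iter53 (m := m) (r := r) hd a k' (l + i * P - k')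
        rw [Nat.sub_add_cancel (by omega)] at h3
        rw [h3]
        have h4 : (1 : ℤ) ≤ (d : ℤ) ^ (l + i * P - k') := one_le_pow₀ (by omega)
        nlinarith
    exact_mod_cast h2

end Pool.Agent.Helper8.POS
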