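import Pool.Agent.Helper8.POS.Bd
import Pool.Agent.Helper8.POS.Mix
import Pool.Agent.Helper8.POS.Typ

/-!
# Block POS-STEP: the typical mass is almost non-decreasing, at every point

`j + i ≤ 5 t / Q` and `t / Q ≤ j`, so with `a = t / Q` (`≥ t / (2 Q) ≥ 1` for large `t`) and `b = j + i ≥ a`:
`Lo (Ty (t + j)) (gg i) ≥ Lo (cat (Ty t) (Gd j)) (gg i)` (`Ty_cat`, `Lo_subset`) `= Lo (Ty t) (Lo (Gd j) (gg i))` (`Lo_cat`)
`= Lo (Ty t) (gg b - Lo (W j \ Gd j) (gg i))` (`Lo_sdiff`, `gg_add`) `≥ Lo (Ty t) (gg a) - Lo (Ty t) e` with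
`e = |gg b - gg a| + Lo (W j \ Gd j) (gg i) ≥ 0`, which is periodic modulo `m ^ b` (`Pe_gg`, `Pe_Lo`, `Pe_mono`) with the mean
`≤ C b / a ^ 4 + C' / j ^ 4` (`gg_cauchy`, `mn_Lo`, `bad_pow`, `mn_gg`). By `Lo_le` (`Off_le`, `Gd_pow`)
`Lo (Ty t) e x ≤ (t + 1) (2 C_M + 1) mn e ≤ C'' / t ^ 2`.
-/

set_option autoImplicit false

namespace Pool.Agent.Helper8.POS

open Finset Pool.Agent.Helper68.Moeller Pool.Agent.Helper52.Tao Pool.Agent.Helper91.PL

variable {d m Q : ℕ} {r : ℤ → ℤ} {M : ℝ}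

/-- The bounded density for typical words: `Lo_le` with `Off_le`, `Gd_pow`. -/
theorem Lo_Ty_le (hO : Ok d m r Q) (hM : 1 ≤ M) : ∃ C : ℝ, 0 < C ∧ ∀ (t i : ℕ) (h : ℤ → ℝ),
    1 ≤ t → Q * i ≤ 5 * t → (∀ z, 0 ≤ h z) → Pe m i h → ∀ A ⊆ Ty d m Q M t, ∀ x : ℤ,
      Lo d m r A h x ≤ C * t * mn m i h := by
  obtain ⟨C, hC, hoff⟩ := Off_le (r := r) (M := M) hO hM
  have hd1 : 1 ≤ d := le_trans (by norm_num) hO.hd
  have hm1 : 1 ≤ m := le_of_lt (lt_of_le_of_lt hd1 hO.hdm)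
  refine ⟨2 * (2 * C + 1), by positivity, ?_⟩
  intro t i h ht hQi h0 hp A hA x
  have hAW : A ⊆ W d t := fun w hw => Gd_subset t (Ty_subset t (hA hw))
  have h1 := Lo_le (r := r) (A := A) (h := h) hO.hd hm1 hO.hco hO.hr (t := t) (i := i) hC.le hAW
    (fun w hw => by
      refine hoff t w (hAW hw) ?_
      have h2 := hA hw
      unfold Ty at h2
      rw [mem_filter] at h2
      exact h2.2)
    (fun w hw => Gd_pow hO hQi (Ty_subset t (hA hw))) h0 hp x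
  have ht' : (1 : ℝ) ≤ t := by exact_mod_cast ht
  have h3 : 0 ≤ mn m i h := mn_nonneg i h0
  calc Lo d m r A h x ≤ ((t : ℝ) + 1) * (2 * C + 1) * mn m i h := h1
    _ ≤ (2 * (2 * C + 1) * t) * mn m i h := by
        apply mul_le_mul_of_nonneg_right _ h3
        nlinarith
    _ = 2 * (2 * C + 1) * t * mn m i h := rfl

theorem step (hO : Ok d m r Q) (hmix : Mixing d m r) (hM : 1 ≤ M) : ∃ C : ℝ, 0 < C ∧ ∃ t1 : ℕ,
    ∀ t j i : ℕ, t1 ≤ t → t / Q ≤ j → Q * j ≤ 3 * t → Q * i ≤ 2 * t → ∀ x : ℤ,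
      Lo d m r (Ty d m Q M t) (fun z => gg d m r (t / Q) z) x ≤
        Lo d m r (Ty d m Q M (t + j)) (fun z => gg d m r i z) x + C / (t : ℝ) ^ 2 := by
  have hd1 : 1 ≤ d := le_trans (by norm_num) hO.hd
  have hm1 : 1 ≤ m := le_of_lt (lt_of_le_of_lt hd1 hO.hdm)
  have hQ16 : (16 : ℝ) ≤ Q := by
    have h1 := hO.hQ
    have h2 : 0 ≤ 16 * Real.log m / gam d m := by
      have h3 : 0 ≤ Real.log m := Real.log_nonneg (by exact_mod_cast hm1)
      have h4 := hO.hg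
      positivity
    linarith
  have hQ1 : 1 ≤ Q := by
    have : (1 : ℝ) ≤ Q := by linarith
    exact_mod_cast this
  have hQpos : (0 : ℝ) < Q := by linarith
  obtain ⟨C1, hC1, hcau⟩ := gg_cauchy hO hmix 4
  obtain ⟨C2, hC2, hbad⟩ := bad_pow hO.hd hQ1 4
  obtain ⟨C3, hC3, hLT⟩ := Lo_Ty_le (r := r) (M := M) hO hM
  refine ⟨C3 * (2 * Q) ^ 4 * (5 * C1 + C2), by positivity, Q, ?_⟩
  intro t j i ht hj hQj hQi x
  have htQ1 : 1 ≤ t / Q := (Nat.one_le_div_iff (by omega)).2 ht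
  have hj1 : 1 ≤ j := le_trans htQ1 hj
  have ht1 : 1 ≤ t := le_trans hQ1 ht
  have ggn : ∀ k : ℕ, ∀ z : ℤ, 0 ≤ gg d m r k z := fun k z =>
    Lo_nonneg hd1 hm1 (fun _ => zero_le_one) z
  set bad : ℤ → ℝ := fun z => Lo d m r (W d j \ Gd d Q j) (fun z => gg d m r i z) z with hbd
  set e : ℤ → ℝ := fun z => |gg d m r (j + i) z - gg d m r (t / Q) z| + bad z with he
  have hbad0 : ∀ z, 0 ≤ bad z := fun z => Lo_nonneg hd1 hm1 (ggn i) z
  have he0 : ∀ z, 0 ≤ e z := fun z => add_nonneg (abs_nonneg _) (hbad0 z)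
  have hTyW : Ty d m Q M t ⊆ W d t := fun w hw => Gd_subset t (Ty_subset t hw)
  -- the lower bound of the right side
  have h1 : Lo d m r (Ty d m Q M t) (fun z => Lo d m r (Gd d Q j) (fun z => gg d m r i z) z) x ≤
      Lo d m r (Ty d m Q M (t + j)) (fun z => gg d m r i z) x := by
    rw [← Lo_cat hm1 hO.hco hTyW x]
    exact Lo_subset hd1 hm1 (ggn i) (Ty_cat hO hM (by omega)) x
  have h2 : ∀ z, gg d m r (t / Q) z ≤ Lo d m r (Gd d Q j) (fun z => gg d m r i z) z + e z := by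
    intro z
    have h3 := Lo_sdiff (d := d) (m := m) (r := r) (f := fun z => gg d m r i z)
      (Gd_subset (d := d) (Q := Q) j) z
    have h4 := gg_add (d := d) (r := r) hm1 hO.hco j i z
    have h5 : gg d m r (t / Q) z - gg d m r (j + i) z ≤
        |gg d m r (j + i) z - gg d m r (t / Q) z| := by
      rw [abs_sub_comm]; exact le_abs_self _
    have h6 : bad z = gg d m r (j + i) z - Lo d m r (Gd d Q j) (fun z => gg d m r i z) z := by
      rw [← h4]; exact h3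
    have h7 : e z = |gg d m r (j + i) z - gg d m r (t / Q) z| + bad z := rfl
    rw [h7, h6]
    linarith
  have h3 : Lo d m r (Ty d m Q M t) (fun z => gg d m r (t / Q) z) x ≤
      Lo d m r (Ty d m Q M t) (fun z => Lo d m r (Gd d Q j) (fun z => gg d m r i z) z) x +
        Lo d m r (Ty d m Q M t) e x := by
    rw [← Lo_add]
    exact Lo_mono hd1 hm1 h2 x
  -- the error
  have hab : t / Q ≤ j + i := le_trans hj (Nat.le_add_right _ _)
  have hper1 : Pe m (j + i) (fun z => gg d m r (j + i) z) := Pe_gg hm1 _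
  have hper2 : Pe m (j + i) (fun z => gg d m r (t / Q) z) := Pe_mono hab (Pe_gg hm1 _)
  have hper3 : Pe m (j + i) bad := Pe_Lo hm1 sdiff_subset (Pe_gg hm1 i)
  have hpere : Pe m (j + i) e := by
    intro y z hyz
    have e1 := hper1 y z hyz
    have e2 := hper2 y z hyz
    have e3 := hper3 y z hyz
    simp only at e1 e2
    simp only [he]
    rw [e1, e2, e3]
  have hmn : mn m (j + i) e ≤ C1 * ((j + i : ℕ) : ℝ) / ((t / Q : ℕ) : ℝ) ^ 4 + C2 / (j : ℝ) ^ 4 := by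
    have e1 : mn m (j + i) e = mn m (j + i) (fun z => |gg d m r (j + i) z - gg d m r (t / Q) z|) +
        mn m (j + i) bad := mn_add (m := m)
          (f := fun z => |gg d m r (j + i) z - gg d m r (t / Q) z|) (g := bad) (j + i)
    have e2 := hcau (t / Q) (j + i) htQ1 hab
    have e3 : mn m (j + i) bad = ((W d j \ Gd d Q j).card : ℝ) / (d : ℝ) ^ j := by
      have e4 := mn_Lo (r := r) hd1 hm1 hO.hco (A := W d j \ Gd d Q j) sdiff_subset
        (Pe_gg (d := d) (r := r) hm1 i)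
      have e5 := mn_gg (r := r) hd1 hm1 hO.hco i
      rw [e5, mul_one] at e4
      exact e4
    have e6 := hbad j hj1
    have e7 : ((W d j \ Gd d Q j).card : ℝ) / (d : ℝ) ^ j ≤ C2 / (j : ℝ) ^ 4 := by
      rw [div_le_iff₀ (by positivity)]
      exact e6
    rw [e1, e3]
    exact add_le_add e2 e7
  have h4 := hLT t (j + i) e ht1 (by
    rw [Nat.mul_add]; omega) he0 hpere (Ty d m Q M t) (Finset.Subset.refl _) x
  have htR : (0 : ℝ) < t := by exact_mod_cast ht1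
  have hfl : (t : ℝ) / (2 * Q) ≤ ((t / Q : ℕ) : ℝ) := by
    have e1 : t < Q * (t / Q + 1) := Nat.lt_mul_div_succ t (by omega)
    have e2 : (t : ℝ) < Q * (((t / Q : ℕ) : ℝ) + 1) := by exact_mod_cast e1
    have e3 : (1 : ℝ) ≤ ((t / Q : ℕ) : ℝ) := by exact_mod_cast htQ1
    rw [div_le_iff₀ (by positivity)]
    nlinarith
  have hflj : (t : ℝ) / (2 * Q) ≤ (j : ℝ) := le_trans hfl (by exact_mod_cast hj)
  have hbt : ((j + i : ℕ) : ℝ) ≤ 5 * t := by
    have e1 : j + i ≤ 5 * t := by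
      have e2 : 1 * (j + i) ≤ Q * (j + i) := Nat.mul_le_mul_right _ hQ1
      have e3 : Q * (j + i) = Q * j + Q * i := Nat.mul_add _ _ _
      omega
    exact_mod_cast e1
  have hpos : (0 : ℝ) < (t : ℝ) / (2 * Q) := by positivity
  have hE1 : C1 * ((j + i : ℕ) : ℝ) / ((t / Q : ℕ) : ℝ) ^ 4 ≤
      C1 * (5 * t) / ((t : ℝ) / (2 * Q)) ^ 4 := by
    gcongr
  have hE2 : C2 / (j : ℝ) ^ 4 ≤ C2 / ((t : ℝ) / (2 * Q)) ^ 4 := by
    gcongr
  have hE3 : C1 * (5 * t) / ((t : ℝ) / (2 * Q)) ^ 4 + C2 / ((t : ℝ) / (2 * Q)) ^ 4 ≤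
      (2 * Q) ^ 4 * (5 * C1 + C2) / (t : ℝ) ^ 3 := by
    have e0 : C1 * (5 * t) / ((t : ℝ) / (2 * Q)) ^ 4 + C2 / ((t : ℝ) / (2 * Q)) ^ 4 =
        (2 * Q) ^ 4 * (5 * C1 * t + C2) / (t : ℝ) ^ 4 := by
      field_simp
    rw [e0, div_le_div_iff₀ (by positivity) (by positivity)]
    have ht1R : (1 : ℝ) ≤ t := by exact_mod_cast ht1
    have e1 : 5 * C1 * t + C2 ≤ (5 * C1 + C2) * t := by nlinarith
    calc (2 * (Q : ℝ)) ^ 4 * (5 * C1 * t + C2) * (t : ℝ) ^ 3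
        ≤ (2 * (Q : ℝ)) ^ 4 * ((5 * C1 + C2) * t) * (t : ℝ) ^ 3 := by gcongr
      _ = (2 * (Q : ℝ)) ^ 4 * (5 * C1 + C2) * (t : ℝ) ^ 4 := by ring
  have hE : Lo d m r (Ty d m Q M t) e x ≤ C3 * (2 * Q) ^ 4 * (5 * C1 + C2) / (t : ℝ) ^ 2 := by
    calc Lo d m r (Ty d m Q M t) e x ≤ C3 * t * mn m (j + i) e := h4
      _ ≤ C3 * t * ((2 * Q) ^ 4 * (5 * C1 + C2) / (t : ℝ) ^ 3) := by
          apply mul_le_mul_of_nonneg_left _ (by positivity)
          linarith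
      _ = C3 * (2 * Q) ^ 4 * (5 * C1 + C2) / (t : ℝ) ^ 2 := by
          field_simp
  linarith

end Pool.Agent.Helper8.POS
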