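import Pool.Agent.Helper8.POS.Alg

/-!
# Block POS-TYPA: sizes of typical words

`log (sz w) = t log d - sg w log m = gam t - (sg w - p t) log m` for `w ∈ W d t`, `p = 1 - 1 / d`; `hQ` gives `log m / Q ≤ gam / 16`,
`16 ≤ Q`, so `log m / Q ^ 2 ≤ gam / 256`. `mem_W`, `length_of_mem_W`, `List.take_append`.
* `Gd_sz`, `Gd_pow`: immediate (`i log m ≤ 5 t log m / Q ≤ (5 / 16) gam t ≤ (255 / 256) gam t`).
* `Ty_cat`: `u ++ v`, `u ∈ Ty t`, `v ∈ Gd j`. Prefixes of length `i ≤ t` are prefixes of `u`. For the length `t + i`, `i ≤ j`: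
  `M sz ≥ sz u * sz (v.take i) ≥ exp ((255 / 256) gam t) / m ^ i`, and `(255/256) gam t - i log m ≥ gam (t + i) / 2`
  as `i ≤ j ≤ 4 t / Q` and `4 log m / Q ≤ gam / 4`, `4 / Q * (gam / 2) ≤ gam / 8`.
-/

set_option autoImplicit false

namespace Pool.Agent.Helper8.POS

open Finset Pool.Agent.Helper68.Moeller Pool.Agent.Helper52.Tao Pool.Agent.Helper91.PL

variable {d m Q : ℕ} {r : ℤ → ℤ} {M : ℝ}

theorem Gd_subset (t : ℕ) : Gd d Q t ⊆ W d t := by
  classical
  unfold Gd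
  exact Finset.filter_subset _ _

theorem Ty_subset (t : ℕ) : Ty d m Q M t ⊆ Gd d Q t := by
  classical
  unfold Ty
  exact Finset.filter_subset _ _

private theorem ok_facts (hO : Ok d m r Q) :
    (16 : ℝ) ≤ Q ∧ 0 ≤ Real.log m ∧ 16 * Real.log m ≤ gam d m * Q ∧
      Real.log m / (Q : ℝ) ^ 2 ≤ gam d m / 256 := by
  have hg := hO.hg
  have hm1 : (1 : ℝ) ≤ m := by
    have := hO.hd
    have := hO.hdm
    exact_mod_cast (by omega : 1 ≤ m)
  have hl : 0 ≤ Real.log m := Real.log_nonneg hm1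
  have h0 : 0 ≤ 16 * Real.log m / gam d m := by positivity
  have hQ16 : (16 : ℝ) ≤ Q := by have := hO.hQ; linarith
  have h1 : 16 * Real.log m / gam d m ≤ Q := by have := hO.hQ; linarith
  have h2 : 16 * Real.log m ≤ gam d m * Q := by
    rw [div_le_iff₀ hg] at h1
    linarith
  refine ⟨hQ16, hl, h2, ?_⟩
  have hQp : (0 : ℝ) < Q := by linarith
  rw [div_le_div_iff₀ (by positivity) (by norm_num)]
  nlinarith [mul_le_mul_of_nonneg_left hQ16 (mul_nonneg hg.le hQp.le)]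

private theorem sz_exp (hd : 1 ≤ d) (hm : 1 ≤ m) {t : ℕ} {w : List ℕ} (hw : w.length = t) :
    sz d m w = Real.exp (gam d m * t - ((sg w : ℝ) - (1 - 1 / (d : ℝ)) * t) * Real.log m) := by
  have hd0 : (0 : ℝ) < d := by exact_mod_cast hd
  have hm0 : (0 : ℝ) < m := by exact_mod_cast hm
  have h1 : gam d m * t - ((sg w : ℝ) - (1 - 1 / (d : ℝ)) * t) * Real.log m =
      Real.log d * t - Real.log m * sg w := by
    unfold gam
    ring
  rw [h1, Real.exp_sub, sz, hw]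
  congr 1
  · rw [mul_comm, Real.exp_nat_mul, Real.exp_log hd0]
  · rw [mul_comm, Real.exp_nat_mul, Real.exp_log hm0]

private theorem mem_Gd {t : ℕ} {w : List ℕ} :
    w ∈ Gd d Q t ↔ w ∈ W d t ∧ |(sg w : ℝ) - (1 - 1 / (d : ℝ)) * t| ≤ (t : ℝ) / (Q : ℝ) ^ 2 := by
  classical
  unfold Gd
  rw [Finset.mem_filter]

private theorem mem_Ty {t : ℕ} {w : List ℕ} :
    w ∈ Ty d m Q M t ↔ w ∈ Gd d Q t ∧
      ∀ i ≤ t, Real.exp (gam d m * i / 2) ≤ M * sz d m (w.take i) := by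
  classical
  unfold Ty
  rw [Finset.mem_filter]

theorem Gd_sz (hO : Ok d m r Q) {t : ℕ} {w : List ℕ} (hw : w ∈ Gd d Q t) :
    Real.exp ((gam d m - Real.log m / (Q : ℝ) ^ 2) * t) ≤ sz d m w ∧
      sz d m w ≤ Real.exp ((gam d m + Real.log m / (Q : ℝ) ^ 2) * t) := by
  obtain ⟨-, hl, -, -⟩ := ok_facts hO
  have hd1 : 1 ≤ d := by have := hO.hd; omega
  have hm1 : 1 ≤ m := by have := hO.hd; have := hO.hdm; omega
  obtain ⟨hwW, hab⟩ := mem_Gd.1 hw
  rw [sz_exp hd1 hm1 (length_of_mem_W hwW), Real.exp_le_exp, Real.exp_le_exp]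
  obtain ⟨h1, h2⟩ := abs_le.1 hab
  have e : Real.log m / (Q : ℝ) ^ 2 * t = (t : ℝ) / (Q : ℝ) ^ 2 * Real.log m := by ring
  have k1 := mul_le_mul_of_nonneg_right h1 hl
  have k2 := mul_le_mul_of_nonneg_right h2 hl
  constructor
  · rw [sub_mul, e]; linarith
  · rw [add_mul, e]; linarith

theorem Gd_pow (hO : Ok d m r Q) {t i : ℕ} (hi : Q * i ≤ 5 * t) {w : List ℕ} (hw : w ∈ Gd d Q t) :
    (m : ℝ) ^ i ≤ sz d m w := by
  obtain ⟨hQ16, hl, hlQ, hlQ2⟩ := ok_facts hO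
  have hg := hO.hg
  have hd1 : 1 ≤ d := by have := hO.hd; omega
  have hm1 : 1 ≤ m := by have := hO.hd; have := hO.hdm; omega
  have hm0 : (0 : ℝ) < m := by exact_mod_cast hm1
  refine le_trans ?_ (Gd_sz hO hw).1
  have h1 : (m : ℝ) ^ i = Real.exp ((i : ℝ) * Real.log m) := by
    rw [Real.exp_nat_mul, Real.exp_log hm0]
  rw [h1, Real.exp_le_exp]
  have hQp : (0 : ℝ) < Q := by linarith
  have hi' : (Q : ℝ) * i ≤ 5 * t := by exact_mod_cast hi
  have ht0 : (0 : ℝ) ≤ t := Nat.cast_nonneg t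
  have hi0 : (0 : ℝ) ≤ i := Nat.cast_nonneg i
  -- `16 * (i * log m) ≤ i * gam * Q ≤ 5 * t * gam`
  have a1 : 16 * ((i : ℝ) * Real.log m) ≤ 5 * t * gam d m := by
    have := mul_le_mul_of_nonneg_left hlQ hi0
    have := mul_le_mul_of_nonneg_right hi' hg.le
    nlinarith
  have a2 : Real.log m / (Q : ℝ) ^ 2 * t ≤ gam d m / 256 * t := mul_le_mul_of_nonneg_right hlQ2 ht0
  have a3 : 0 ≤ gam d m * t := by positivity
  rw [sub_mul]
  nlinarith

theorem Ty_cat (hO : Ok d m r Q) (hM : 1 ≤ M) {t j : ℕ} (hj : Q * j ≤ 4 * t) :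
    cat (Ty d m Q M t) (Gd d Q j) ⊆ Ty d m Q M (t + j) := by
  classical
  obtain ⟨hQ16, hl, hlQ, hlQ2⟩ := ok_facts hO
  have hg := hO.hg
  have hd1 : 1 ≤ d := by have := hO.hd; omega
  have hm1 : 1 ≤ m := by have := hO.hd; have := hO.hdm; omega
  have hd0 : (1 : ℝ) ≤ d := by exact_mod_cast hd1
  have hm0 : (0 : ℝ) < m := by exact_mod_cast hm1
  have hm1' : (1 : ℝ) ≤ m := by exact_mod_cast hm1
  have hQp : (0 : ℝ) < Q := by linarith
  have ht0 : (0 : ℝ) ≤ t := Nat.cast_nonneg t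
  intro w hw
  unfold cat at hw
  rw [Finset.mem_image] at hw
  obtain ⟨⟨u, v⟩, huv, rfl⟩ := hw
  rw [Finset.mem_product] at huv
  obtain ⟨hu, hv⟩ := huv
  simp only at hu hv ⊢
  obtain ⟨huG, huT⟩ := mem_Ty.1 hu
  obtain ⟨huW, huS⟩ := mem_Gd.1 huG
  obtain ⟨hvW, hvS⟩ := mem_Gd.1 hv
  obtain ⟨hul, hud⟩ := mem_W.1 huW
  obtain ⟨hvl, hvd⟩ := mem_W.1 hvW
  refine mem_Ty.2 ⟨mem_Gd.2 ⟨mem_W.2 ⟨?_, ?_⟩, ?_⟩, ?_⟩
  · rw [List.length_append, hul, hvl]
  · intro a ha
    rcases List.mem_append.1 ha with h | h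
    · exact hud a h
    · exact hvd a h
  · rw [sg_append]
    push_cast
    have e : (sg u : ℝ) + sg v - (1 - 1 / (d : ℝ)) * (t + j) =
        ((sg u : ℝ) - (1 - 1 / (d : ℝ)) * t) + ((sg v : ℝ) - (1 - 1 / (d : ℝ)) * j) := by ring
    rw [e, add_div]
    exact (abs_add_le _ _).trans (add_le_add huS hvS)
  · intro i hi
    rcases le_or_gt i t with hit | hit
    · rw [List.take_append_of_le_length (by rw [hul]; exact hit)]
      exact huT i hit
    · obtain ⟨i', rfl⟩ := Nat.exists_eq_add_of_le hit.le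
      have hi'j : i' ≤ j := by omega
      have htake : (u ++ v).take (t + i') = u ++ v.take i' := by
        rw [← hul, List.take_length_add_append]
      rw [htake, sz_append hm1]
      have hsu := (Gd_sz hO huG).1
      have hsv : Real.exp (-((i' : ℝ) * Real.log m)) ≤ sz d m (v.take i') := by
        have hlen : (v.take i').length = i' := by rw [List.length_take, hvl]; omega
        have hsgle : sg (v.take i') ≤ i' := (sg_le_length (v.take i')).trans hlen.le
        rw [Real.exp_neg, Real.exp_nat_mul, Real.exp_log hm0, sz, hlen]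
        rw [inv_eq_one_div]
        have h1 : (1 : ℝ) ≤ (d : ℝ) ^ i' := one_le_pow₀ hd0
        have h2 : (m : ℝ) ^ sg (v.take i') ≤ (m : ℝ) ^ i' := pow_le_pow_right₀ hm1' hsgle
        exact div_le_div₀ (by positivity) h1 (by positivity) h2
      have hprod : Real.exp ((gam d m - Real.log m / (Q : ℝ) ^ 2) * t) * Real.exp (-((i' : ℝ) * Real.log m)) ≤
          sz d m u * sz d m (v.take i') := mul_le_mul hsu hsv (Real.exp_pos _).le (le_trans (Real.exp_pos _).le hsu)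
      have hpos : 0 ≤ sz d m u * sz d m (v.take i') :=
        le_trans (mul_nonneg (Real.exp_pos _).le (Real.exp_pos _).le) hprod
      refine le_trans ?_ (le_mul_of_one_le_left hpos hM)
      refine le_trans ?_ hprod
      rw [← Real.exp_add, Real.exp_le_exp]
      push_cast
      have hi0 : (0 : ℝ) ≤ i' := Nat.cast_nonneg i'
      have hij : (Q : ℝ) * i' ≤ 4 * t := by
        have h1 : Q * i' ≤ Q * j := Nat.mul_le_mul_left _ hi'j
        exact_mod_cast h1.trans hj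
      have a1 : 16 * ((i' : ℝ) * Real.log m) ≤ 4 * t * gam d m := by
        have := mul_le_mul_of_nonneg_left hlQ hi0
        have := mul_le_mul_of_nonneg_right hij hg.le
        nlinarith
      have a2 : Real.log m / (Q : ℝ) ^ 2 * t ≤ gam d m / 256 * t := mul_le_mul_of_nonneg_right hlQ2 ht0
      have a3 : 0 ≤ gam d m * t := by positivity
      have a4 : 16 * (gam d m * i') ≤ gam d m * (4 * t) := by
        have h1 : 16 * (i' : ℝ) ≤ Q * i' := mul_le_mul_of_nonneg_right hQ16 hi0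
        have h2 := mul_le_mul_of_nonneg_left (h1.trans hij) hg.le
        linarith
      rw [sub_mul]
      nlinarith

end Pool.Agent.Helper8.POS
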